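import Pool.Agent.MQG.Legs2

set_option autoImplicit false

/-!
# Statements of block B: representations, convolution, states, `L^1`

Notation of the proofs: `H = L2 ι`, `K = L2 κ`; `emb u : K → K ⊗ H`, `k ↦ k ⊗ u` (this is
`emb (Equiv.refl (κ × ι)) u`), `⟪x, sl U u y z⟫ = ⟪x ⊗ u, U (z ⊗ y)⟫ = ⟪u, co U x z y⟫`,
`sl U u y = (emb u)* U (emb y)`.  Operators on triple tensor products are compared on elementary
tensors (their span is dense); a vector of a tensor product is a norm limit of finite sums of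
elementary tensors.
-/

namespace Pool.Agent.MQG

open scoped InnerProductSpace InnerProduct Topology
open Complex Filter

/-! ## 0. Definitions -/

/-- `((a, b), c) ↦ ((a, c), b)` -/
def f13 {α β γ : Type} : (α × β) × γ ≃ (α × γ) × β where
  toFun p := ((p.1.1, p.2), p.1.2)
  invFun p := ((p.1.1, p.2), p.1.2)
  left_inv _ := rfl
  right_inv _ := rfl

/-- `((a, b), c) ↦ ((b, c), a)` -/
def f23 {α β γ : Type} : (α × β) × γ ≃ (β × γ) × α where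
  toFun p := ((p.1.2, p.2), p.1.1)
  invFun p := ((p.2, p.1.1), p.1.2)
  left_inv _ := rfl
  right_inv _ := rfl

/-- The product `U₁₃ U'₂₃` of two operators: the tensor product of two representations. -/
noncomputable def pr {κ κ' ι : Type} (U : Op (κ × ι)) (U' : Op (κ' × ι)) : Op ((κ × κ') × ι) :=
  leg f13 U * leg f23 U'

/-- The operator `k ↦ a k ⊗ h`. -/
noncomputable def col {κ ι : Type} (a : Op κ) (h : L2 ι) : L2 κ →L[ℂ] L2 (κ × ι) :=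
  (emb (Equiv.refl (κ × ι)) h) ∘L a

/-- The norm closure of the span of the `col a h`, `a ∈ Aalg U`. -/
noncomputable def Cols {κ ι : Type} (U : Op (κ × ι)) : Submodule ℂ (L2 κ →L[ℂ] L2 (κ × ι)) :=
  (Submodule.span ℂ {T | ∃ a ∈ Aalg U, ∃ h : L2 ι, T = col a h}).topologicalClosure

/-- A representation is non degenerate. -/
def NonDeg {A : Type} [NonUnitalCStarAlgebra A] {κ : Type} (π : A →⋆ₙₐ[ℂ] Op κ) : Prop :=
  Dense (Submodule.span ℂ {x : L2 κ | ∃ a y, x = π a y} : Set (L2 κ))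

/-! ## 1. The inputs of block A -/

/-- ASP (block A): the C*-algebra `Aalg U` of an adapted unitary is the closed span of the slices. -/
def AspStmt : Prop := ∀ (ι : Type) (M : MU ι) (κ : Type) (U : Op (κ × ι)), Adapted M.W U →
  ∀ a ∈ Aalg U, a ∈ closure (Submodule.span ℂ {T : Op κ | ∃ u y, T = sl U u y} : Set (Op κ))

/-- AMU (block A): the multiplier property. -/
def AmuStmt : Prop := ∀ (ι : Type) (M : MU ι) (κ : Type) (U : Op (κ × ι)), Adapted M.W U →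
  ∀ a ∈ Aalg U, ∀ h : L2 ι, U ∘L col a h ∈ Cols U ∧ star U ∘L col a h ∈ Cols U

/-- ABS (block A): the C*-algebra `Balg W` is the closed span of the slices. -/
def AbsStmt : Prop := ∀ (ι : Type) (M : MU ι), ∀ b ∈ Balg M.W,
  b ∈ closure (Submodule.span ℂ {T : Op ι | ∃ x z, T = co M.W x z} : Set (Op ι))

/-! ## 2. Products and slice maps -/

/-- PRA: the product of two adapted unitaries is adapted.

Proof.  On `ℓ²((κ × κ') × ι × ι)`, legs 1, 2, 3, 4: `l12 (pr U U') = U₁₃ U'₂₃`, `l13 (pr U U') = U₁₄ U'₂₄`,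
`l23 W = W₃₄` (all of these are operators `leg e T` for a suitable `e`, check on elementary tensors
`(x ⊗ x') ⊗ h ⊗ h'`).  `U₁₄` and `U'₂₃` act on different legs, so they commute, and
`U₁₃ U'₂₃ U₁₄ U'₂₄ W₃₄ = U₁₃ U₁₄ (U'₂₃ U'₂₄ W₃₄) = U₁₃ U₁₄ W₃₄ U'₂₃ = W₃₄ U₁₃ U'₂₃` by the two adapted
equations (ampliated by the legs `κ` and `κ'`: `leg` is multiplicative).  `pr U U'` is unitary: a product
of two ampliations of unitaries. -/
def PraStmt : Prop := ∀ (ι κ κ' : Type) (W : Op (ι × ι)) (U : Op (κ × ι)) (U' : Op (κ' × ι)),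
  Adapted W U → Adapted W U' → Adapted W (pr U U')

/-- PRC: the coefficients of the product.

Proof.  `⟪(x ⊗ x') ⊗ u, U₁₃ U'₂₃ ((z ⊗ z') ⊗ y)⟫`: `U'₂₃ ((z ⊗ z') ⊗ y) = z ⊗ U'(z' ⊗ y)`, a limit of sums
`∑ (z ⊗ z'_l) ⊗ y_l` with `∑ ⟪x', z'_l⟫ y_l → (emb' x')* U' (z' ⊗ y) = co U' x' z' y`, and
`⟪(x ⊗ x') ⊗ u, U₁₃ ((z ⊗ z'_l) ⊗ y_l)⟫ = ⟪x', z'_l⟫ ⟪x ⊗ u, U (z ⊗ y_l)⟫ = ⟪u, co U x z (⟪x', z'_l⟫ y_l)⟫`. -/
def PrcStmt : Prop := ∀ (ι κ κ' : Type) (U : Op (κ × ι)) (U' : Op (κ' × ι)) (x z : L2 κ)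
  (x' z' : L2 κ'), co (pr U U') (tn x x') (tn z z') = co U x z * co U' x' z'

/-- RBD: the bounds for the slice maps of the comultiplication.

Proof.  Let `Φ : Al WW → Op (κ × κ)` be the *-homomorphism of `pr WW WW` (PRA, `Universal.lift`),
`a = ∑ c j asl (u j) (y j)`, `C = ∑ c j asl (u j) (lam ν (y j))`.  For `x, z` in `K` one has, with
`e₁ x : K → K ⊗ K`, `k ↦ x ⊗ k` (this is `emb' x`), by PRC
`(e₁ x)* Φ(asl u y) (e₁ z) = sl WW ((co WW x z)* u) y` (take `⟪k, · k'⟫`: both sides are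
`⟪u, co WW x z (co WW k k' y)⟫`).  So `b := ∑ c j asl ((co WW x z)* (u j)) (y j)` satisfies
`val b = (e₁ x)* Φ(a) (e₁ z)`, `‖b‖ ≤ ‖x‖ ‖z‖ ‖a‖`, and `⟪x, val C z⟫ = ∑ c j ⟪u j, co WW x z (lam ν (y j))⟫ =
∑ c j ν(asl ((co WW x z)* (u j)) (y j)) = ν b` (`inner_lam`).  So `|⟪x, val C z⟫| ≤ ‖ν‖ ‖x‖ ‖z‖ ‖a‖`, hence
`‖C‖ ≤ ‖ν‖ ‖a‖`.  The second estimate in the same way with `e₂ z : k ↦ k ⊗ z`:
`(e₂ x)* Φ(asl u y) (e₂ z) = sl WW u (co WW x z y)`, and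
`⟪x, ∑ c j sl ((lam ν)* (u j)) (y j) z⟫ = ∑ c j ⟪u j, lam ν (co WW x z (y j))⟫ = ν(∑ c j asl (u j) (co WW x z (y j)))`.
(A *-homomorphism of C*-algebras is contractive: `NonUnitalStarAlgHom.norm_apply_le`.) -/
def RbdStmt : Prop := ∀ (ι κ : Type) (W : Op (ι × ι)) (WW : Op (κ × ι)), Universal W WW →
  ∀ (ν : Du WW) (n : ℕ) (c : Fin n → ℂ) (u y : Fin n → L2 ι),
  ‖∑ j, c j • asl WW (u j) (lam WW ν (y j))‖ ≤ ‖ν‖ * ‖∑ j, c j • asl WW (u j) (y j)‖ ∧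
  ‖∑ j, c j • asl WW (star (lam WW ν) (u j)) (y j)‖ ≤ ‖ν‖ * ‖∑ j, c j • asl WW (u j) (y j)‖

/-- RLX: the slice maps.

Proof.  `F := (L2 ι × L2 ι) →₀ ℂ`, `e : F → Al WW`, `f ↦ ∑ f (u, y) asl u y` (linear, dense range by ASP and
`norm_val`), `r : F → Al WW`, `f ↦ ∑ f (u, y) asl u (lam ν y)`; RBD gives `‖r f‖ ≤ ‖ν‖ ‖e f‖`
(`Finsupp` as a sum over `Fin n`: `Finsupp.sum` over the support, or prove RBD for finite sets in the same way).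
`LinearMap.extendOfNorm`, `extendOfNorm_eq`, `norm_extendOfNorm_apply_le`.  The same for the second map. -/
def RlxStmt : Prop := ∀ (ι : Type) (M : MU ι) (κ : Type) (WW : Op (κ × ι)), Universal M.W WW →
  ∀ ν : Du WW,
  (∃ R : Al WW →L[ℂ] Al WW, ‖R‖ ≤ ‖ν‖ ∧ ∀ u y, R (asl WW u y) = asl WW u (lam WW ν y)) ∧
  ∃ L : Al WW →L[ℂ] Al WW, ‖L‖ ≤ ‖ν‖ ∧ ∀ u y, L (asl WW u y) = asl WW (star (lam WW ν) u) y

/-- DNS: the slices are total in the type `Al U`.  Proof.  ASP: approximate `val a` by a finite sum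
`∑ c j sl (u j) (y j) = val (∑ c j asl (u j) (y j))`; `norm_val`. -/
def DnsStmt : Prop := ∀ (ι : Type) (M : MU ι) (κ : Type) (U : Op (κ × ι)), Adapted M.W U →
  Dense (Submodule.span ℂ {a : Al U | ∃ u y, a = asl U u y} : Set (Al U))

/-- LNO: `‖λ(μ)‖ ≤ ‖μ‖`.  Proof.  `|⟪u, lam μ y⟫| = |μ(asl u y)| ≤ ‖μ‖ ‖sl U u y‖ ≤ ‖μ‖ ‖u‖ ‖y‖` (`norm_sl_le`,
`‖U‖ ≤ 1` for a unitary `U`). -/
def LnoStmt : Prop := ∀ (ι κ : Type) (U : Op (κ × ι)), U ∈ unitary (Op (κ × ι)) → ∀ μ : Du U,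
  ‖lam U μ‖ ≤ ‖μ‖

/-! ## 3. The counit, representations, states -/

/-- EPS: the counit.

Proof.  `(1 : Op (Unit × ι))` is adapted (`leg` of `1` is `1`); let `π : Al WW → Op Unit` be its
representation, `δ` the unit vector of `L2 Unit` (`lp.single`), `e a := ⟪δ, π a δ⟫` (continuous:
`NonUnitalStarAlgHom.norm_apply_le`).  `⟪δ, sl 1 u y δ⟫ = ⟪δ ⊗ u, δ ⊗ y⟫ = ⟪u, y⟫`.  `π` is non degenerate:
`π (asl u u) δ = ‖u‖² δ`, `u ≠ 0` (`ι` is not empty), `L2 Unit` is spanned by `δ`.  `H59.GNS.vec_state`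
(`Pool/Agent/Helper59_MMU/GNS.lean`, proved) gives `IsState`. -/
def EpsStmt : Prop := ∀ (ι : Type) [Nonempty ι] (W : Op (ι × ι)) (κ : Type) (WW : Op (κ × ι)),
  Universal W WW → ∃ e : Du WW, IsState e ∧ ∀ u y, e (asl WW u y) = ⟪u, y⟫_ℂ

/-- CPI: a representation of `Aalg U` acts on the columns.

Proof.  For a finite sum `T = ∑ col a_l h_l` put `P T = ∑ col (π a_l) h_l`.  `(col a h)* (col a' h') =
⟪h, h'⟫ a* a'`, so `T* T = val b` and `(P T)* (P T) = π b` for the same finite sum `b`, and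
`‖P T‖² = ‖π b‖ ≤ ‖b‖ = ‖T‖²`: `P` is well defined and contractive on the span; extend by continuity
(`LinearMap.extendOfNorm` with `F := (Al U × L2 ι) →₀ ℂ`, dense range in `Cols U`).  (2), (3): for finite sums
clear (`(emb u)* (col a h) = ⟪u, h⟫ a`); the general case by continuity: `Aalg U` is closed, if
`S_n* T_n = val b_n → S* T` then `b_n` is a Cauchy sequence in `Al U`, `b_n → b`, `π b_n → π b`. -/
def CpiStmt : Prop := ∀ (ι κ κ' : Type) (U : Op (κ × ι)) (π : Al U →⋆ₙₐ[ℂ] Op κ'),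
  ∃ P : Cols U →L[ℂ] (L2 κ' →L[ℂ] L2 (κ' × ι)),
    (∀ (a : Al U) (h : L2 ι) (T : Cols U), (T : L2 κ →L[ℂ] L2 (κ × ι)) = col (val a) h →
      P T = col (π a) h) ∧
    (∀ S T : Cols U, ∃ b : Al U, val b = (S : L2 κ →L[ℂ] L2 (κ × ι))† ∘L T ∧
      π b = (P S)† ∘L P T) ∧
    ∀ (u : L2 ι) (T : Cols U), ∃ b : Al U,
      val b = (emb (Equiv.refl (κ × ι)) u)† ∘L (T : L2 κ →L[ℂ] L2 (κ × ι)) ∧
      π b = (emb (Equiv.refl (κ' × ι)) u)† ∘L P T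

/-- UPU: the unitary of a representation.

Proof.  CPI.  Let `D ⊆ L2 (κ' × ι)` be the span of the vectors `π(a) l ⊗ h = P(col a h) l`; it is dense (`NonDeg`).
For `X = U` or `star U` and a finite sum `f = ∑ (a_j, h_j, l_j)` let `d f = ∑ P(col a_j h_j) l_j`,
`v_X f = ∑ P(X ∘ col a_j h_j) l_j` (AMU).  `⟪P S l, P T l'⟫ = ⟪l, (P S)* (P T) l'⟫ = ⟪l, π b l'⟫` with
`val b = S* T`, and `(X col a h)* (X col a' h') = (col a h)* (col a' h')` (`X` unitary; `val` is injective), so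
`⟪v_X f, v_X g⟫ = ⟪d f, d g⟫`: `d f ↦ v_X f` is well defined and isometric and extends to an isometry `X'` of
`L2 (κ' × ι)` (`LinearMap.extendOfNorm`).  For `T ∈ Cols U` one has `X ∘ T ∈ Cols U` and `X' (P T l) = P (X ∘ T) l`
(both sides are continuous in `T`, true for `T = col a h`).  So `U' (star U)' (P(col a h) l) = P(U star U col a h) l =
P(col a h) l`: `U' (star U)' = 1`, and in the same way `(star U)' U' = 1`; an invertible isometry is unitary.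
Slices: with `T = U ∘ col a y`: `⟪l' ⊗ u, U' (π(a) l ⊗ y)⟫ = ⟪l', (emb u)* (P T) l⟫ = ⟪l', π b l⟫`,
`val b = (emb u)* U (emb y) a = sl U u y * a`, so `b = asl U u y * a` and `sl U' u y (π a l) = π (asl U u y) (π a l)`;
`NonDeg`. -/
def UpuStmt : Prop := ∀ (ι : Type) (M : MU ι) (κ : Type) (U : Op (κ × ι)), Adapted M.W U →
  ∀ (κ' : Type) (π : Al U →⋆ₙₐ[ℂ] Op κ'), NonDeg π → ∃ U' : Op (κ' × ι),
    U' ∈ unitary (Op (κ' × ι)) ∧ ∀ u y, sl U' u y = π (asl U u y)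

/-- UPA: a unitary whose slices are given by a representation is adapted.

Proof.  For `X : Op (κ × ι × ι)` and `s, t ∈ L2 (ι × ι)` let `sl₂ X s t = (emb s)* X (emb t) ∈ Op κ`, continuous in
`s`, `t`; `X` is determined by the `sl₂ X (u ⊗ u') (y ⊗ y')`.
`sl₂ (l12 T) (u ⊗ u') (y ⊗ y') = ⟪u', y'⟫ sl T u y`, and `sl₂ (l12 T * l13 T) (u ⊗ u') (y ⊗ y') = sl T u y * sl T u' y'`
(`T = U, U'`).  By continuity for all `s, t` there is `c(s, t) ∈ Al U` with `val c(s, t) = sl₂ (l12 U) s t` and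
`π c(s, t) = sl₂ (l12 U') s t` (approximate `s`, `t` by finite sums of elementary tensors; `Aalg U` is closed).  The
adapted equation is `l12 U * l13 U = l23 W * l12 U * (l23 W)*`; take `sl₂` at `u ⊗ u'`, `y ⊗ y'`
(`sl₂ (l23 W * X * (l23 W)*) s t = sl₂ X (W* s) (W* t)`):
`sl U u y * sl U u' y' = val c(W*(u ⊗ u'), W*(y ⊗ y'))`, apply `π`: `sl U' u y * sl U' u' y' =
sl₂ (l12 U') (W*(u ⊗ u')) (W*(y ⊗ y'))`, i.e. `l12 U' * l13 U' = l23 W * l12 U' * (l23 W)*`. -/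
def UpaStmt : Prop := ∀ (ι κ κ' : Type) (W : Op (ι × ι)) (U : Op (κ × ι)) (U' : Op (κ' × ι)),
  W ∈ unitary (Op (ι × ι)) → Adapted W U → ∀ π : Al U →⋆ₙₐ[ℂ] Op κ',
  U' ∈ unitary (Op (κ' × ι)) → (∀ u y, sl U' u y = π (asl U u y)) → Adapted W U'

/-- STU: a state of `C_0^u(G)` is a coefficient of an adapted unitary.

Proof.  `H59.GNS.gns'` (`Pool/Agent/Helper59_MMU/GNS.lean`, proved; no separability): `κ'`,
`π : Al WW → Op κ'`, a unit vector `ξ` with `μ a = ⟪ξ, π a ξ⟫` and `DenseRange (π · ξ)` (so `NonDeg π`).  UPU, UPA: `U`.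
`⟪u, lam WW μ y⟫ = μ (asl u y) = ⟪ξ, π (asl u y) ξ⟫ = ⟪ξ, sl U u y ξ⟫ = ⟪u, co U ξ ξ y⟫`. -/
def StuStmt : Prop := ∀ (ι : Type) (M : MU ι) (κ : Type) (WW : Op (κ × ι)), Universal M.W WW →
  ∀ μ : Du WW, IsState μ → ∃ (κ' : Type) (U : Op (κ' × ι)) (ξ : L2 κ'), Adapted M.W U ∧
    ‖ξ‖ = 1 ∧ lam WW μ = co U ξ ξ

/-- VST: a coefficient of an adapted unitary is a state.

Proof.  `π` of `Universal.lift`, `μ a := ⟪ξ, π a ξ⟫`; `⟪u, lam WW μ y⟫ = ⟪ξ, sl U u y ξ⟫ = ⟪u, co U ξ ξ y⟫`.  `π` is non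
degenerate: if `w` is orthogonal to all `sl U u y x` then `w ⊗ u` is orthogonal to `U (x ⊗ y)`, so to the range of `U`,
which is everything; `w ⊗ u = 0` for `u ≠ 0` (`ι` is not empty), `w = 0`.  `H59.GNS.vec_state`. -/
def VstStmt : Prop := ∀ (ι : Type) [Nonempty ι] (M : MU ι) (κ : Type) (WW : Op (κ × ι)),
  Universal M.W WW → ∀ (κ' : Type) (U : Op (κ' × ι)), Adapted M.W U → ∀ ξ : L2 κ', ‖ξ‖ = 1 →
  ∃ μ : Du WW, IsState μ ∧ lam WW μ = co U ξ ξ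

/-- SMU: the product of two states is a state.  Proof.  STU for `μ`, `ν`: `U, ξ`, `U', ξ'`; PRA, PRC:
`lam μ * lam ν = co (pr U U') (ξ ⊗ ξ') (ξ ⊗ ξ')`, `‖ξ ⊗ ξ'‖ = 1` (`norm_tl`); VST. -/
def SmuStmt : Prop := ∀ (ι : Type) [Nonempty ι] (M : MU ι) (κ : Type) (WW : Op (κ × ι)),
  Universal M.W WW → ∀ μ ν : Du WW, IsState μ → IsState ν →
  ∃ ρ : Du WW, IsState ρ ∧ lam WW ρ = lam WW μ * lam WW ν

/-! ## 4. `L^1(G)` -/

/-- LFV: the functionals of two vectors of `K' ⊗ H` are in `L^1`.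

Proof.  `leg (Equiv.prodComm κ' ι) T` is `1 ⊗ T` on `L2 (κ' × ι)`.  If `s = ∑ p_j ⊗ x_j`, `t = ∑ q_l ⊗ z_l` are finite
sums of elementary tensors then `⟪s, (1 ⊗ Λ a) t⟫ = ∑ ⟪p_j, q_l⟫ ⟪x_j, Λ a z_l⟫` is in the span of the definition of `L1`.
In general approximate `s`, `t` by such sums: `|⟪s, (1 ⊗ Λ a) t⟫ - ⟪s', (1 ⊗ Λ a) t'⟫| ≤ (‖s - s'‖ ‖t‖ + ‖s'‖ ‖t - t'‖) ‖a‖`
(`norm_leg_le`, `NonUnitalStarAlgHom.norm_apply_le`), and `L1` is closed. -/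
def LfvStmt : Prop := ∀ (ι : Type) (W : Op (ι × ι)) (κ : Type) (WW : Op (κ × ι))
  (Λ : Al WW →⋆ₙₐ[ℂ] Op ι), (∀ u y, Λ (asl WW u y) = sl W u y) →
  ∀ (κ' : Type) (s t : L2 (κ' × ι)), ∃ ω ∈ L1 W WW,
    ∀ a, ω a = ⟪s, leg (Equiv.prodComm κ' ι) (Λ a) t⟫_ℂ

/-- LPR: the product of a coefficient and a functional of `L^1`.

Proof.  Take `⟪v, · w⟫`, `v, w ∈ H`, i.e. `a = asl WW v w`, `Λ a = sl W v w`:
`⟪v, lam ρ w⟫ = ρ(asl v w) = ⟪U(p ⊗ x), (1 ⊗ sl W v w) U(q ⊗ z)⟫ = ⟪(l12 U)(p ⊗ x ⊗ v), (l23 W) (l12 U) (q ⊗ z ⊗ w)⟫ =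
⟪p ⊗ x ⊗ v, (l13 U) (l23 W) (q ⊗ z ⊗ w)⟫` (adapted equation, `l12 U` unitary) `= ⟪v, co U p q (co W x z w)⟫`, and
`co W x z = lam ω`: `⟪v, lam ω w⟫ = ω (asl v w) = ⟪x, sl W v w z⟫ = ⟪v, co W x z w⟫`. -/
def LprStmt : Prop := ∀ (ι : Type) (W : Op (ι × ι)) (κ : Type) (WW : Op (κ × ι))
  (Λ : Al WW →⋆ₙₐ[ℂ] Op ι), (∀ u y, Λ (asl WW u y) = sl W u y) →
  ∀ (κ' : Type) (U : Op (κ' × ι)), Adapted W U → ∀ (p q : L2 κ') (x z : L2 ι) (ω ρ : Du WW),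
  (∀ a, ω a = ⟪x, Λ a z⟫_ℂ) →
  (∀ a, ρ a = ⟪U (tn p x), leg (Equiv.prodComm κ' ι) (Λ a) (U (tn q z))⟫_ℂ) →
  lam WW ρ = co U p q * lam WW ω

/-- LLE: `L^1` is a left ideal (for states on the left).

Proof.  `M.W` is adapted (pentagon), so `Λ` exists (`Universal.lift`); two such `Λ` are equal (DNS), so `L1` is the closed
span of the `ω_(x,z) = ⟪x, Λ · z⟫`.  STU: `lam μ = co U ξ ξ`.  For `ω = ω_(x,z)` LFV with `s = U(ξ ⊗ x)`, `t = U(ξ ⊗ z)` and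
LPR give `ρ ∈ L1` with `lam ρ = lam μ * lam ω`, and `lam` is injective (DNS).  Linearity.  For `ω` in the closure: RLX:
`ρ = μ ∘ R ω`..., precisely `ρ_ω := ω ∘ L` with the `L` of `μ` (`‖ω ∘ L‖ ≤ ‖ω‖`, linear and continuous in `ω`,
`lam (ω ∘ L) = lam μ * lam ω` on slices), and `L1` is closed. -/
def LleStmt : Prop := ∀ (ι : Type) (M : MU ι) (κ : Type) (WW : Op (κ × ι)), Universal M.W WW →
  ∀ μ ω ρ : Du WW, IsState μ → ω ∈ L1 M.W WW → lam WW ρ = lam WW μ * lam WW ω → ρ ∈ L1 M.W WW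

/-- LTI: the norm estimate for the convergence at the counit.

Proof.  STU: `lam μ = co U ξ ξ`, `‖ξ‖ = 1`.  LPR, LFV: `ρ a = ⟪s, (1 ⊗ Λ a) t⟫`, `s = U(ξ ⊗ x)`, `t = U(ξ ⊗ z)` (`lam` is
injective, DNS), `ω a = ⟪ξ ⊗ x, (1 ⊗ Λ a) (ξ ⊗ z)⟫`.  So `|ρ a - ω a| ≤ ‖a‖ (‖s - ξ ⊗ x‖ ‖z‖ + ‖x‖ ‖t - ξ ⊗ z‖)`, and
`‖U(ξ ⊗ z) - ξ ⊗ z‖² = 2 ‖z‖² - 2 Re ⟪ξ ⊗ z, U(ξ ⊗ z)⟫ = 2 ‖z‖² - 2 Re ⟪z, co U ξ ξ z⟫ = 2 ‖z‖² - 2 Re μ(asl z z)`. -/
def LtiStmt : Prop := ∀ (ι : Type) (M : MU ι) (κ : Type) (WW : Op (κ × ι)), Universal M.W WW →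
  ∀ Λ : Al WW →⋆ₙₐ[ℂ] Op ι, (∀ u y, Λ (asl WW u y) = sl M.W u y) →
  ∀ (μ ω ρ : Du WW) (x z : L2 ι), IsState μ → (∀ a, ω a = ⟪x, Λ a z⟫_ℂ) →
  lam WW ρ = lam WW μ * lam WW ω →
  ‖ρ - ω‖ ≤ √(2 * ‖x‖ ^ 2 - 2 * (μ (asl WW x x)).re) * ‖z‖ +
    ‖x‖ * √(2 * ‖z‖ ^ 2 - 2 * (μ (asl WW z z)).re)

/-- LTE: `μ ⋆ ω → ω` in norm if states `μ` tend to the counit.

Proof.  For `ω = ω_(x,z)`: LTI and `μ(asl z z) → ⟪z, z⟫`.  The set of the `ω` with the property is a linear subspace, and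
closed: `‖μ ⋆ ω‖ ≤ ‖ω‖` for states `μ` (`μ ⋆ ω = ω ∘ L`, RLX; `f` below is the map `μ ↦ μ ⋆ ω`, which is linear in `ω`
because `lam` is injective). -/
def LteStmt : Prop := ∀ (ι : Type) (M : MU ι) (κ : Type) (WW : Op (κ × ι)), Universal M.W WW →
  ∀ e : Du WW, (∀ u y, e (asl WW u y) = ⟪u, y⟫_ℂ) → ∀ ω ∈ L1 M.W WW, ∀ f : Du WW → Du WW,
  (∀ μ, lam WW (f μ) = lam WW μ * lam WW ω) →
  Tendsto f (comap (fun (μ : Du WW) (a : Al WW) => μ a) (𝓝 fun a : Al WW => e a) ⊓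
    𝓟 {μ | IsState μ}) (𝓝 ω)

/-- SPA: separability of `C_0^u(G)`.  Proof.  DNS; `(u, y) ↦ asl u y` is continuous (`norm_sl_le`), `L2 ι` is separable
for countable `ι`, the closed span of a separable set is separable. -/
def SpaStmt : Prop := ∀ (ι : Type) [Countable ι] (M : MU ι) (κ : Type) (U : Op (κ × ι)),
  Adapted M.W U → TopologicalSpace.SeparableSpace (Al U)

/-- SPL: separability of `L^1(G)`.  Proof.  If there is no `Λ` then `L1 = ⊥`.  Otherwise two `Λ` are equal (DNS), and `L1` is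
the closed span of the image of the continuous map `(x, z) ↦ ⟪x, Λ · z⟫` on `L2 ι × L2 ι`. -/
def SplStmt : Prop := ∀ (ι : Type) [Countable ι] (M : MU ι) (κ : Type) (WW : Op (κ × ι)),
  Universal M.W WW → TopologicalSpace.IsSeparable (L1 M.W WW : Set (Du WW))

/-- LSS: `L^1(G)` contains a state.  Proof.  `M.W` is adapted, `Λ` of `Universal.lift`, `ω a = ⟪x, Λ a x⟫`, `‖x‖ = 1`
(`ι` is not empty); as in VST `Λ` is non degenerate; `H59.GNS.vec_state`. -/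
def LssStmt : Prop := ∀ (ι : Type) [Nonempty ι] (M : MU ι) (κ : Type) (WW : Op (κ × ι)),
  Universal M.W WW → ∃ ω ∈ L1 M.W WW, IsState ω

/-- LMB: `λ(L^1(G))` is a dense subspace of `C_0(G^)`.

Proof.  For `ω = ⟪x, Λ · z⟫` one has `lam ω = co W x z ∈ Balg W`; `lam` is linear and contractive (LNO), `Balg W` is closed:
`lam ω ∈ Balg W` for `ω ∈ L1`.  By ABS `b ∈ Balg W` is a limit of finite sums of the `co W x z = lam ω_(x,z)`. -/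
def LmbStmt : Prop := ∀ (ι : Type) (M : MU ι) (κ : Type) (WW : Op (κ × ι)), Universal M.W WW →
  (∀ ω ∈ L1 M.W WW, lam WW ω ∈ Balg M.W) ∧
  ∀ b ∈ Balg M.W, b ∈ closure (lam WW '' (L1 M.W WW : Set (Du WW)))

end Pool.Agent.MQG
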