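import Pool.Agent.MQG.Legs2
import Pool.Agent.MQG.StmtsB

set_option autoImplicit false

/-!
# Slices of operators on two and three legs
-/

namespace Pool.Agent.MQG

open scoped InnerProductSpace InnerProduct Topology
open Complex Filter

variable {α β γ δ κ κ' ι : Type}

/-! ## Total sets -/

/-- A set with dense span. -/
def Total {E : Type*} [AddCommGroup E] [Module ℂ E] [TopologicalSpace E] (X : Set E) : Prop :=
  Dense (Submodule.span ℂ X : Set E)

theorem Total.mono {E : Type*} [AddCommGroup E] [Module ℂ E] [TopologicalSpace E] {X Y : Set E}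
    (h : Total X) (hXY : X ⊆ Y) : Total Y :=
  Dense.mono (Submodule.span_mono hXY) h

theorem total_of_dense {E : Type*} [AddCommGroup E] [Module ℂ E] [TopologicalSpace E] {X : Set E}
    (h : Dense X) : Total X := h.mono Submodule.subset_span

theorem total_univ {E : Type*} [AddCommGroup E] [Module ℂ E] [TopologicalSpace E] :
    Total (Set.univ : Set E) := total_of_dense dense_univ

/-- A closed subspace which contains a total set is everything. -/
theorem Total.mem_of_closed {E : Type*} [AddCommGroup E] [Module ℂ E] [TopologicalSpace E]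
    {X : Set E} (h : Total X) (S : Submodule ℂ E) (hS : IsClosed (S : Set E)) (hX : X ⊆ S)
    (v : E) : v ∈ S := by
  have h1 : closure (Submodule.span ℂ X : Set E) ⊆ S := hS.closure_subset_iff.2
    (Submodule.span_le.2 hX)
  exact h1 (h v)

theorem Total.ext {E F : Type*} [NormedAddCommGroup E] [NormedSpace ℂ E] [NormedAddCommGroup F]
    [NormedSpace ℂ F] {X : Set E} (h : Total X) {S T : E →L[ℂ] F} (hST : ∀ x ∈ X, S x = T x) :
    S = T := ContinuousLinearMap.ext_on h hST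

/-- Two vectors with the same inner products with a total set are equal. -/
theorem Total.ext_inner {E : Type*} [NormedAddCommGroup E] [InnerProductSpace ℂ E]
    {X : Set E} (h : Total X) {v w : E} (hvw : ∀ x ∈ X, ⟪x, v⟫_ℂ = ⟪x, w⟫_ℂ) : v = w := by
  refine ext_inner_left ℂ fun x => ?_
  have h1 := Total.ext (S := (innerSL ℂ v : E →L[ℂ] ℂ)) (T := innerSL ℂ w) h (fun x hx => by
    rw [innerSL_apply_apply, innerSL_apply_apply, ← inner_conj_symm, hvw x hx, inner_conj_symm])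
  have h2 := DFunLike.congr_fun h1 x
  rw [innerSL_apply_apply, innerSL_apply_apply] at h2
  rw [← inner_conj_symm, h2, inner_conj_symm]

/-- Operators with the same matrix elements between total sets are equal. -/
theorem Total.ext_op {E F : Type*} [NormedAddCommGroup E] [NormedSpace ℂ E]
    [NormedAddCommGroup F] [InnerProductSpace ℂ F] {X : Set E} {Y : Set F} (hX : Total X)
    (hY : Total Y) {S T : E →L[ℂ] F} (h : ∀ y ∈ Y, ∀ x ∈ X, ⟪y, S x⟫_ℂ = ⟪y, T x⟫_ℂ) : S = T :=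
  hX.ext fun x hx => hY.ext_inner fun y hy => h y hy x hx

theorem total_tl (e : γ ≃ α × β) : Total {ζ : L2 γ | ∃ x y, ζ = tl e x y} := dense_span_tl e

theorem total_tn : Total {ζ : L2 (α × β) | ∃ x y, ζ = tn x y} := dense_span_tn

/-- Elementary tensors of vectors from two total sets are total. -/
theorem Total.tl {e : γ ≃ α × β} {X : Set (L2 α)} {Y : Set (L2 β)} (hX : Total X)
    (hY : Total Y) : Total {ζ : L2 γ | ∃ x ∈ X, ∃ y ∈ Y, ζ = MQG.tl e x y} := by
  set S : Submodule ℂ (L2 γ) := (Submodule.span ℂ {ζ : L2 γ | ∃ x ∈ X, ∃ y ∈ Y,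
    ζ = MQG.tl e x y}).topologicalClosure with hS
  have hSc : IsClosed (S : Set (L2 γ)) := Submodule.isClosed_topologicalClosure _
  have h1 : ∀ x ∈ X, ∀ y, MQG.tl e x y ∈ S := fun x hx y =>
    hY.mem_of_closed (S.comap ((emb' e x : L2 β →L[ℂ] L2 γ) : L2 β →ₗ[ℂ] L2 γ))
      (hSc.preimage (emb' e x).continuous) (fun y hy =>
        Submodule.le_topologicalClosure _ (Submodule.subset_span ⟨x, hx, y, hy, rfl⟩)) y
  have h2 : ∀ x y, MQG.tl e x y ∈ S := fun x y =>
    hX.mem_of_closed (S.comap ((emb e y : L2 α →L[ℂ] L2 γ) : L2 α →ₗ[ℂ] L2 γ))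
      (hSc.preimage (emb e y).continuous) (fun x hx => h1 x hx y) x
  intro v
  exact (total_tl e).mem_of_closed S hSc (by rintro _ ⟨x, y, rfl⟩; exact h2 x y) v

theorem Total.tn {X : Set (L2 α)} {Y : Set (L2 β)} (hX : Total X) (hY : Total Y) :
    Total {ζ : L2 (α × β) | ∃ x ∈ X, ∃ y ∈ Y, ζ = MQG.tn x y} := Total.tl hX hY

theorem Total.tn3 {X : Set (L2 α)} {Y : Set (L2 β)} {Z : Set (L2 γ)} (hX : Total X)
    (hY : Total Y) (hZ : Total Z) :
    Total {ζ : L2 (α × β × γ) | ∃ x ∈ X, ∃ h ∈ Y, ∃ u ∈ Z, ζ = MQG.tn x (MQG.tn h u)} := by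
  refine (Total.tn hX (Total.tn hY hZ)).mono ?_
  rintro _ ⟨x, hx, _, ⟨h, hh, u, hu, rfl⟩, rfl⟩
  exact ⟨x, hx, h, hh, u, hu, rfl⟩

theorem total_tn3 : Total {ζ : L2 (α × β × γ) | ∃ x h u, ζ = tn x (tn h u)} := by
  refine (Total.tn3 (total_univ (E := L2 α)) (total_univ (E := L2 β))
    (total_univ (E := L2 γ))).mono ?_
  rintro _ ⟨x, _, h, _, u, _, rfl⟩
  exact ⟨x, h, u, rfl⟩

theorem total_star {X : Set (L2 α)} (h : Total X) : Total {y : L2 α | ∃ x ∈ X, y = star x} := by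
  intro v
  have h1 : star v ∈ closure (Submodule.span ℂ X : Set (L2 α)) := h (star v)
  have h2 : star v ∈ star ⁻¹' closure (Submodule.span ℂ {y : L2 α | ∃ x ∈ X, y = star x} :
      Set (L2 α)) := by
    refine closure_minimal ?_ (isClosed_closure.preimage continuous_star) h1
    intro w hw
    refine subset_closure ?_
    change star w ∈ Submodule.span ℂ {y : L2 α | ∃ x ∈ X, y = star x}
    induction hw using Submodule.span_induction with
    | mem x hx => exact Submodule.subset_span ⟨x, hx, rfl⟩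
    | zero => simp
    | add x y _ _ hx hy => rw [star_add]; exact Submodule.add_mem _ hx hy
    | smul r x _ hx => rw [star_smul]; exact Submodule.smul_mem _ _ hx
  simpa using h2

/-- The values at `w` of the trajectories are total. -/
theorem total_traj {V : ℝ → Op α} (hV : IsGroup V) (w : ℂ) :
    Total {ξ : L2 α | ∃ f, Traj V f ∧ ξ = f w} := by
  refine (total_of_dense (hV.dense_traj w)).mono ?_
  rintro _ ⟨f, hf, rfl⟩
  exact ⟨f, hf, rfl⟩

/-! ## More on legs -/

theorem inner_emb_adj (e : γ ≃ α × β) (x : L2 α) (u : L2 β) (ζ : L2 γ) :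
    ⟪x, ((emb e u)†) ζ⟫_ℂ = ⟪tl e x u, ζ⟫_ℂ := by
  rw [ContinuousLinearMap.adjoint_inner_right, emb_apply]

theorem inner_emb'_adj (e : γ ≃ α × β) (x : L2 α) (u : L2 β) (ζ : L2 γ) :
    ⟪u, ((emb' e x)†) ζ⟫_ℂ = ⟪tl e x u, ζ⟫_ℂ := by
  rw [ContinuousLinearMap.adjoint_inner_right, emb'_apply]

theorem leg_comp_emb (e : γ ≃ α × β) (T : Op α) (y : L2 β) :
    leg e T ∘L emb e y = emb e y ∘L T := by
  ext x : 1
  rw [ContinuousLinearMap.comp_apply, ContinuousLinearMap.comp_apply, emb_apply, emb_apply, leg_tl]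

theorem adj_emb_comp_leg (e : γ ≃ α × β) (T : Op α) (u : L2 β) :
    (emb e u)† ∘L leg e T = T ∘L (emb e u)† :=
  (total_tl e).ext (by
    rintro _ ⟨x, y, rfl⟩
    rw [ContinuousLinearMap.comp_apply, ContinuousLinearMap.comp_apply, leg_tl, adj_emb_tl,
      adj_emb_tl, map_smul])

theorem norm_emb_adj_le (e : γ ≃ α × β) (u : L2 β) : ‖(emb e u)†‖ ≤ ‖u‖ := by
  rw [LinearIsometryEquiv.norm_map]
  exact norm_emb_le _ _

theorem norm_emb'_adj_le (e : γ ≃ α × β) (u : L2 α) : ‖(emb' e u)†‖ ≤ ‖u‖ := by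
  rw [LinearIsometryEquiv.norm_map]
  exact norm_emb'_le _ _

/-- `leg e` is injective if the other factor is not zero. -/
theorem leg_injective (e : γ ≃ α × β) [Nonempty β] : Function.Injective (leg e) := by
  classical
  intro S T h
  obtain ⟨b⟩ := ‹Nonempty β›
  set y : L2 β := lp.single 2 b 1 with hy
  have hy1 : ⟪y, y⟫_ℂ = 1 := by
    rw [hy, lp.inner_single_left]
    simp
  ext x : 1
  have h1 : ((emb e y)†) (leg e S (tl e x y)) = ((emb e y)†) (leg e T (tl e x y)) := by rw [h]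
  rwa [leg_tl, leg_tl, adj_emb_tl, adj_emb_tl, hy1, one_smul, one_smul] at h1

theorem l12_tl (T : Op (α × β)) (ζ : L2 (α × β)) (u : L2 γ) :
    l12 T (tl e12 ζ u) = tl e12 (T ζ) u := leg_tl _ _ _ _

theorem l13_tl (T : Op (α × γ)) (ζ : L2 (α × γ)) (h : L2 β) :
    l13 T (tl e13 ζ h) = tl e13 (T ζ) h := leg_tl _ _ _ _

theorem l12_unitary {T : Op (α × β)} (h : T ∈ unitary (Op (α × β))) :
    (l12 T : Op (α × β × γ)) ∈ unitary (Op (α × β × γ)) := leg_unitary _ h
theorem l13_unitary {T : Op (α × γ)} (h : T ∈ unitary (Op (α × γ))) :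
    (l13 T : Op (α × β × γ)) ∈ unitary (Op (α × β × γ)) := leg_unitary _ h
theorem l23_unitary {T : Op (β × γ)} (h : T ∈ unitary (Op (β × γ))) :
    (l23 T : Op (α × β × γ)) ∈ unitary (Op (α × β × γ)) := leg_unitary _ h

theorem tens_unitary {S : Op α} {T : Op β} (hS : S ∈ unitary (Op α)) (hT : T ∈ unitary (Op β)) :
    tens S T ∈ unitary (Op (α × β)) := by
  rw [Unitary.mem_iff] at hS hT ⊢
  rw [tens_star, ← tens_mul, ← tens_mul, hS.1, hS.2, hT.1, hT.2, tens_one]
  exact ⟨rfl, rfl⟩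

theorem cj_tens (S : Op α) (T : Op β) : cj (tens S T) = tens (cj S) (cj T) :=
  total_tn.ext (by
    rintro _ ⟨x, y, rfl⟩
    rw [cj_apply, star_tn, tens_tn, star_tn, tens_tn, cj_apply, cj_apply])

theorem inner_sl_co (U : Op (κ × ι)) (u y : L2 ι) (x z : L2 κ) :
    ⟪x, sl U u y z⟫_ℂ = ⟪u, co U x z y⟫_ℂ := by rw [inner_sl, inner_co]

theorem star_sl (U : Op (κ × ι)) (u y : L2 ι) : star (sl U u y) = sl (star U) y u := by
  rw [sl_star]

theorem star_co (U : Op (κ × ι)) (x z : L2 κ) : star (co U x z) = co (star U) z x := by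
  rw [co_star]

/-- Operators with the same slices are equal. -/
theorem ext_sl {S T : Op (κ × ι)} (h : ∀ u y, sl S u y = sl T u y) : S = T :=
  ext_inner_tn fun x u z y => by rw [← inner_sl, ← inner_sl, h]

theorem ext_co {S T : Op (κ × ι)} (h : ∀ x z, co S x z = co T x z) : S = T :=
  ext_inner_tn fun x u z y => by rw [← inner_co, ← inner_co, h]

/-! ## Bilinearity and continuity of slices -/

theorem co_add_left (U : Op (κ × ι)) (x x' z : L2 κ) :
    co U (x + x') z = co U x z + co U x' z := by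
  simp [co, emb'_add, ContinuousLinearMap.add_comp]

theorem co_add_right (U : Op (κ × ι)) (x z z' : L2 κ) :
    co U x (z + z') = co U x z + co U x z' := by
  simp [co, emb'_add, ContinuousLinearMap.comp_add]

theorem co_smul_left (U : Op (κ × ι)) (r : ℂ) (x z : L2 κ) :
    co U (r • x) z = (starRingEnd ℂ) r • co U x z := by
  simp only [co, emb'_smul, map_smulₛₗ, ContinuousLinearMap.smul_comp]

theorem co_smul_right (U : Op (κ × ι)) (r : ℂ) (x z : L2 κ) :
    co U x (r • z) = r • co U x z := by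
  simp only [co, emb'_smul, ContinuousLinearMap.comp_smul]

theorem norm_co_le (U : Op (κ × ι)) (x z : L2 κ) : ‖co U x z‖ ≤ ‖U‖ * ‖x‖ * ‖z‖ := by
  unfold co
  refine (ContinuousLinearMap.opNorm_comp_le _ _).trans ?_
  have h2 : ‖U ∘L emb' (Equiv.refl (κ × ι)) z‖ ≤ ‖U‖ * ‖z‖ :=
    (ContinuousLinearMap.opNorm_comp_le _ _).trans
      (mul_le_mul_of_nonneg_left (norm_emb'_le _ _) (norm_nonneg _))
  calc _ ≤ ‖x‖ * (‖U‖ * ‖z‖) :=
        mul_le_mul (norm_emb'_adj_le _ _) h2 (norm_nonneg _) (norm_nonneg _)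
    _ = ‖U‖ * ‖x‖ * ‖z‖ := by ring

/-- The slices as a bounded sesquilinear map. -/
noncomputable def slL (U : Op (κ × ι)) : L2 ι →L⋆[ℂ] L2 ι →L[ℂ] Op κ :=
  LinearMap.mkContinuous₂
    (LinearMap.mk₂'ₛₗ (starRingEnd ℂ) (RingHom.id ℂ) (fun u y => sl U u y)
      (fun u u' y => sl_add_left U u u' y) (fun r u y => sl_smul_left U r u y)
      (fun u y y' => sl_add_right U u y y') (fun r u y => sl_smul_right U r u y))
    ‖U‖ (fun u y => norm_sl_le U u y)

@[simp] theorem slL_apply (U : Op (κ × ι)) (u y : L2 ι) : slL U u y = sl U u y := rfl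

/-- The slices as a bounded sesquilinear map. -/
noncomputable def coL (U : Op (κ × ι)) : L2 κ →L⋆[ℂ] L2 κ →L[ℂ] Op ι :=
  LinearMap.mkContinuous₂
    (LinearMap.mk₂'ₛₗ (starRingEnd ℂ) (RingHom.id ℂ) (fun x z => co U x z)
      (fun u u' y => co_add_left U u u' y) (fun r u y => co_smul_left U r u y)
      (fun u y y' => co_add_right U u y y') (fun r u y => co_smul_right U r u y))
    ‖U‖ (fun u y => norm_co_le U u y)

@[simp] theorem coL_apply (U : Op (κ × ι)) (x z : L2 κ) : coL U x z = co U x z := rfl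

theorem continuous_sl (U : Op (κ × ι)) : Continuous fun p : L2 ι × L2 ι => sl U p.1 p.2 :=
  ((slL U).continuous.comp continuous_fst).clm_apply continuous_snd

theorem continuous_co (U : Op (κ × ι)) : Continuous fun p : L2 κ × L2 κ => co U p.1 p.2 :=
  ((coL U).continuous.comp continuous_fst).clm_apply continuous_snd

@[simp] theorem sl_zero_left (U : Op (κ × ι)) (y : L2 ι) : sl U 0 y = 0 := by
  have h := sl_smul_left U 0 0 y
  simpa using h

@[simp] theorem sl_zero_right (U : Op (κ × ι)) (y : L2 ι) : sl U y 0 = 0 := by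
  have h := sl_smul_right U 0 y 0
  simpa using h

@[simp] theorem co_zero_left (U : Op (κ × ι)) (y : L2 κ) : co U 0 y = 0 := by
  have h := co_smul_left U 0 0 y
  simpa using h

@[simp] theorem co_zero_right (U : Op (κ × ι)) (y : L2 κ) : co U y 0 = 0 := by
  have h := co_smul_right U 0 y 0
  simpa using h

/-- General principle: values of a bounded sesquilinear map are in a closed subspace if they are
for vectors of total sets. -/
theorem Total.sesq_mem {E F G : Type*} [NormedAddCommGroup E] [NormedSpace ℂ E]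
    [NormedAddCommGroup F] [NormedSpace ℂ F] [NormedAddCommGroup G] [NormedSpace ℂ G]
    {X : Set E} {Y : Set F} (hX : Total X) (hY : Total Y) (B : E →L⋆[ℂ] F →L[ℂ] G)
    (S : Submodule ℂ G) (hS : IsClosed (S : Set G)) (h : ∀ u ∈ X, ∀ y ∈ Y, B u y ∈ S)
    (u : E) (y : F) : B u y ∈ S := by
  have h1 : ∀ u ∈ X, ∀ y, B u y ∈ S := fun u hu y =>
    hY.mem_of_closed (S.comap ((B u : F →L[ℂ] G) : F →ₗ[ℂ] G))
      (hS.preimage (B u).continuous) (fun y hy => h u hu y hy) y
  let P : Submodule ℂ E :=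
    { carrier := {u | B u y ∈ S}
      add_mem' := fun {a b} ha hb => by
        have : B (a + b) y = B a y + B b y := by simp
        change B (a + b) y ∈ S
        rw [this]; exact S.add_mem ha hb
      zero_mem' := by
        change B 0 y ∈ S
        simp
      smul_mem' := fun c a ha => by
        have : B (c • a) y = (starRingEnd ℂ) c • B a y := by simp
        change B (c • a) y ∈ S
        rw [this]; exact S.smul_mem _ ha }
  have hP : IsClosed (P : Set E) :=
    hS.preimage (B.continuous.clm_apply continuous_const)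
  exact hX.mem_of_closed P hP (fun u hu => h1 u hu y) u

theorem Total.sesq_ext {E F G : Type*} [NormedAddCommGroup E] [NormedSpace ℂ E]
    [NormedAddCommGroup F] [NormedSpace ℂ F] [NormedAddCommGroup G] [NormedSpace ℂ G]
    {X : Set E} {Y : Set F} (hX : Total X) (hY : Total Y) (B B' : E →L⋆[ℂ] F →L[ℂ] G)
    (h : ∀ u ∈ X, ∀ y ∈ Y, B u y = B' u y) (u : E) (y : F) : B u y = B' u y := by
  have h1 := hX.sesq_mem hY (B - B') ⊥ (by simp) (fun u hu y hy => by
    simp [h u hu y hy]) u y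
  simpa [sub_eq_zero] using h1

theorem sl_mem_of_total {X Y : Set (L2 ι)} (hX : Total X) (hY : Total Y) (U : Op (κ × ι))
    (S : Submodule ℂ (Op κ)) (hS : IsClosed (S : Set (Op κ)))
    (h : ∀ u ∈ X, ∀ y ∈ Y, sl U u y ∈ S) (u y : L2 ι) : sl U u y ∈ S :=
  hX.sesq_mem hY (slL U) S hS h u y

theorem co_mem_of_total {X Y : Set (L2 κ)} (hX : Total X) (hY : Total Y) (U : Op (κ × ι))
    (S : Submodule ℂ (Op ι)) (hS : IsClosed (S : Set (Op ι)))
    (h : ∀ x ∈ X, ∀ z ∈ Y, co U x z ∈ S) (x z : L2 κ) : co U x z ∈ S :=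
  hX.sesq_mem hY (coL U) S hS h x z

/-! ## `S ⊗ 1`, `1 ⊗ T` -/

theorem leg_refl (S : Op α) : leg (Equiv.refl (α × β)) S = tens S 1 :=
  total_tn.ext (by rintro _ ⟨x, y, rfl⟩; rw [tens_tn, tn_eq, leg_tl, ← tn_eq]; rfl)

/-! ## Slices of three-leg operators -/

/-- `((1 ⊗ h ⊗ 1)* U₁₂ (1 ⊗ h' ⊗ 1)) = (sl U h h') ⊗ 1` -/
theorem e13_l12 (U : Op (α × β)) (h h' : L2 β) :
    ((emb (e13 : α × β × γ ≃ _) h)†) ∘L l12 U ∘L emb e13 h' = tens (sl U h h') 1 := by
  refine ext_inner_tn fun x u z y => ?_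
  rw [ContinuousLinearMap.comp_apply, inner_emb_adj, ContinuousLinearMap.comp_apply, emb_apply,
    tl_e13, tl_e13, l12_tn, ← tl_e12, inner_tl, tens_tn, inner_tn, inner_sl]
  rfl

theorem e12_l13 (U : Op (α × γ)) (u y : L2 γ) :
    ((emb (e12 : α × β × γ ≃ _) u)†) ∘L l13 U ∘L emb e12 y = tens (sl U u y) 1 := by
  refine ext_inner_tn fun x h z h' => ?_
  rw [ContinuousLinearMap.comp_apply, inner_emb_adj, ContinuousLinearMap.comp_apply, emb_apply,
    tl_e12, tl_e12, l13_tn, ← tl_e13, inner_tl, tens_tn, inner_tn, inner_sl]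
  rfl

theorem e12_l23 (T : Op (β × γ)) (u y : L2 γ) :
    ((emb (e12 : α × β × γ ≃ _) u)†) ∘L l23 T ∘L emb e12 y = tens 1 (sl T u y) := by
  refine ext_inner_tn fun x h z h' => ?_
  rw [ContinuousLinearMap.comp_apply, inner_emb_adj, ContinuousLinearMap.comp_apply, emb_apply,
    tl_e12, tl_e12, l23_tn', inner_tn, tens_tn, inner_tn, inner_sl]
  rfl

theorem e13_l23 (T : Op (β × γ)) (h h' : L2 β) :
    ((emb (e13 : α × β × γ ≃ _) h)†) ∘L l23 T ∘L emb e13 h' = tens 1 (co T h h') := by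
  refine ext_inner_tn fun x u z y => ?_
  rw [ContinuousLinearMap.comp_apply, inner_emb_adj, ContinuousLinearMap.comp_apply, emb_apply,
    tl_e13, tl_e13, l23_tn', inner_tn, tens_tn, inner_tn, inner_co]
  rfl

theorem e23_l12 (U : Op (α × β)) (x z : L2 α) :
    ((emb (e23 : α × β × γ ≃ _) x)†) ∘L l12 U ∘L emb e23 z = tens (co U x z) 1 := by
  refine ext_inner_tn fun h u h' y => ?_
  rw [ContinuousLinearMap.comp_apply, inner_emb_adj, ContinuousLinearMap.comp_apply, emb_apply,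
    tl_e23, tl_e23, l12_tn, ← tl_e12, inner_tl, tens_tn, inner_tn, inner_co]
  rfl

theorem e23_l13 (U : Op (α × γ)) (x z : L2 α) :
    ((emb (e23 : α × β × γ ≃ _) x)†) ∘L l13 U ∘L emb e23 z = tens 1 (co U x z) := by
  refine ext_inner_tn fun h u h' y => ?_
  rw [ContinuousLinearMap.comp_apply, inner_emb_adj, ContinuousLinearMap.comp_apply, emb_apply,
    tl_e23, tl_e23, l13_tn, ← tl_e13, inner_tl, tens_tn, inner_tn, inner_co, mul_comm]
  rfl

theorem emb_tn12 (h : L2 β) (u : L2 γ) :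
    emb (Equiv.refl (α × β × γ)) (tn h u) = emb e12 u ∘L emb (Equiv.refl (α × β)) h := by
  ext x : 1
  rw [ContinuousLinearMap.comp_apply, emb_apply, emb_apply, emb_apply, ← tn_eq, ← tn_eq, tl_e12]

theorem emb_tn13 (h : L2 β) (u : L2 γ) :
    emb (Equiv.refl (α × β × γ)) (tn h u) = emb e13 h ∘L emb (Equiv.refl (α × γ)) u := by
  ext x : 1
  rw [ContinuousLinearMap.comp_apply, emb_apply, emb_apply, emb_apply, ← tn_eq, ← tn_eq, tl_e13]

theorem sl_l12 (U : Op (α × β)) (h h' : L2 β) (u y : L2 γ) :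
    sl (l12 U : Op (α × β × γ)) (tn h u) (tn h' y) = ⟪u, y⟫_ℂ • sl U h h' := by
  ext z : 1
  refine ext_inner_left ℂ fun x => ?_
  rw [inner_sl, l12_tn, ← tl_e12, inner_tl, smul_apply, inner_smul_right, inner_sl, mul_comm]

theorem sl_l13 (U : Op (α × γ)) (h h' : L2 β) (u y : L2 γ) :
    sl (l13 U : Op (α × β × γ)) (tn h u) (tn h' y) = ⟪h, h'⟫_ℂ • sl U u y := by
  ext z : 1
  refine ext_inner_left ℂ fun x => ?_
  rw [inner_sl, l13_tn, ← tl_e13, inner_tl, smul_apply, inner_smul_right, inner_sl, mul_comm]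

theorem sl_l12_mul_l13 (U : Op (α × β)) (U' : Op (α × γ)) (h h' : L2 β) (u y : L2 γ) :
    sl (l12 U * l13 U' : Op (α × β × γ)) (tn h u) (tn h' y) = sl U h h' * sl U' u y := by
  have h1 : ∀ (z : L2 α), l13 U' (tn z (tn h' y)) = emb e13 h' (U' (tn z y)) := fun z => by
    rw [l13_tn, emb_apply]
  ext z : 1
  refine ext_inner_left ℂ fun x => ?_
  rw [inner_sl, mul_apply_eq_comp, h1, ← tl_e13, ← inner_emb_adj]
  have h2 := DFunLike.congr_fun (e13_l12 (γ := γ) U h h') (U' (tn z y))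
  rw [ContinuousLinearMap.comp_apply, ContinuousLinearMap.comp_apply] at h2
  rw [h2, mul_apply_eq_comp]
  have h3 : ⟪tn x u, tens (sl U h h') 1 (U' (tn z y))⟫_ℂ =
      ⟪tn ((star (sl U h h')) x) u, U' (tn z y)⟫_ℂ := by
    have h4 : tn ((star (sl U h h')) x) u = (star (tens (sl U h h') (1 : Op γ))) (tn x u) := by
      rw [tens_star, tens_tn, star_one]; rfl
    rw [h4, ContinuousLinearMap.star_eq_adjoint, ContinuousLinearMap.adjoint_inner_left]
  rw [h3, ← inner_sl, ContinuousLinearMap.star_eq_adjoint, ContinuousLinearMap.adjoint_inner_left]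

theorem sl_l13_mul_l12 (U : Op (α × γ)) (U' : Op (α × β)) (h h' : L2 β) (u y : L2 γ) :
    sl (l13 U * l12 U' : Op (α × β × γ)) (tn h u) (tn h' y) = sl U u y * sl U' h h' := by
  have h1 := congrArg star (sl_l12_mul_l13 (star U') (star U) h' h y u)
  rw [star_sl, star_mul, ← l12_star, ← l13_star, star_star, star_star, star_mul, star_sl, star_sl,
    star_star, star_star] at h1
  exact h1

/-- `(1 ⊗ ζ)* A₂₃ X B₂₃ (1 ⊗ ζ') = (1 ⊗ A* ζ)* X (1 ⊗ B ζ')` -/
theorem sl_l23_mul (A B : Op (β × γ)) (X : Op (α × β × γ)) (ζ ζ' : L2 (β × γ)) :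
    sl (l23 A * X * l23 B) ζ ζ' = sl X (star A ζ) (B ζ') := by
  ext z : 1
  refine ext_inner_left ℂ fun x => ?_
  rw [inner_sl, inner_sl, mul_apply_eq_comp, mul_apply_eq_comp, l23_tn',
    ← ContinuousLinearMap.adjoint_inner_left, ← ContinuousLinearMap.star_eq_adjoint, ← l23_star,
    l23_tn']

theorem sl_l23 (T : Op (β × γ)) (ζ ζ' : L2 (β × γ)) :
    sl (l23 T : Op (α × β × γ)) ζ ζ' = ⟪ζ, T ζ'⟫_ℂ • 1 := by
  ext z : 1
  refine ext_inner_left ℂ fun x => ?_
  rw [inner_sl, l23_tn', inner_tn, smul_apply, inner_smul_right, mul_comm]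
  rfl

/-! ## Slices over the first two legs -/

/-- The slice over the first two legs: `(u | co12 X ζ ζ' y) = (ζ ⊗ u | X (ζ' ⊗ y))`. -/
noncomputable def co12 (X : Op (α × β × γ)) (ζ ζ' : L2 (α × β)) : Op γ :=
  ((emb' e12 ζ)†) ∘L X ∘L emb' e12 ζ'

theorem inner_co12 (X : Op (α × β × γ)) (ζ ζ' : L2 (α × β)) (u y : L2 γ) :
    ⟪u, co12 X ζ ζ' y⟫_ℂ = ⟪tl e12 ζ u, X (tl e12 ζ' y)⟫_ℂ := by
  rw [co12, ContinuousLinearMap.comp_apply, inner_emb'_adj]
  rfl

/-- `(A ζ ⊗ 1)* X (B ζ' ⊗ 1) = (ζ ⊗ 1)* A₁₂* X B₁₂ (ζ' ⊗ 1)` -/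
theorem co12_l12_mul (A B : Op (α × β)) (X : Op (α × β × γ)) (ζ ζ' : L2 (α × β)) :
    co12 (l12 A * X * l12 B) ζ ζ' = co12 X (star A ζ) (B ζ') := by
  ext z : 1
  refine ext_inner_left ℂ fun x => ?_
  rw [inner_co12, inner_co12, mul_apply_eq_comp, mul_apply_eq_comp, l12_tl,
    ← ContinuousLinearMap.adjoint_inner_left, ← ContinuousLinearMap.star_eq_adjoint, ← l12_star,
    l12_tl]

theorem co12_l23 (T : Op (β × γ)) (x z : L2 α) (h h' : L2 β) :
    co12 (l23 T : Op (α × β × γ)) (tn x h) (tn z h') = ⟪x, z⟫_ℂ • co T h h' := by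
  ext y : 1
  refine ext_inner_left ℂ fun u => ?_
  rw [inner_co12, tl_e12, tl_e12, l23_tn', inner_tn, smul_apply, inner_smul_right, inner_co]

theorem co12_l13 (T : Op (α × γ)) (x z : L2 α) (h h' : L2 β) :
    co12 (l13 T : Op (α × β × γ)) (tn x h) (tn z h') = ⟪h, h'⟫_ℂ • co T x z := by
  ext y : 1
  refine ext_inner_left ℂ fun u => ?_
  rw [inner_co12, tl_e12, tl_e12, l13_tn, ← tl_e13, inner_tl, smul_apply, inner_smul_right,
    inner_co, mul_comm]

/-- `(x ⊗ h ⊗ 1)* T₂₃ U₁₃ (z ⊗ h' ⊗ 1) = (h ⊗ 1)* T (h' ⊗ 1) (x ⊗ 1)* U (z ⊗ 1)` -/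
theorem co12_l23_mul_l13 (T : Op (β × γ)) (U : Op (α × γ)) (x z : L2 α) (h h' : L2 β) :
    co12 (l23 T * l13 U : Op (α × β × γ)) (tn x h) (tn z h') = co T h h' * co U x z := by
  ext y : 1
  refine ext_inner_left ℂ fun u => ?_
  have h1 : l13 U (tn z (tn h' y)) = emb e13 h' (U (tn z y)) := by
    rw [l13_tn, emb_apply]
  rw [inner_co12, mul_apply_eq_comp, tl_e12, tl_e12, h1, ← tl_e13, ← inner_emb_adj]
  have h2 := DFunLike.congr_fun (e13_l23 (α := α) T h h') (U (tn z y))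
  rw [ContinuousLinearMap.comp_apply, ContinuousLinearMap.comp_apply] at h2
  rw [h2, mul_apply_eq_comp]
  have h3 : ⟪tn x u, tens 1 (co T h h') (U (tn z y))⟫_ℂ =
      ⟪tn x ((star (co T h h')) u), U (tn z y)⟫_ℂ := by
    have h4 : tn x ((star (co T h h')) u) = (star (tens (1 : Op α) (co T h h'))) (tn x u) := by
      rw [tens_star, tens_tn, star_one]; rfl
    rw [h4, ContinuousLinearMap.star_eq_adjoint, ContinuousLinearMap.adjoint_inner_left]
  rw [h3, ← inner_co, ContinuousLinearMap.star_eq_adjoint, ContinuousLinearMap.adjoint_inner_left]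

end Pool.Agent.MQG
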