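import Pool.Agent.MQG.Bridge3
import Pool.Agent.MQG.Legs3

set_option autoImplicit false

/-!
# Assembly, Q1
-/

namespace Pool.Agent.MQG

open scoped InnerProductSpace InnerProduct Topology
open Complex Filter

variable {ι κ : Type}

/-- the vectors `b v`, `b ∈ Balg W`, are total -/
theorem dense_Balg [Nonempty ι] {W : Op (ι × ι)} (hW : W ∈ unitary (Op (ι × ι))) :
    Dense (Submodule.span ℂ {w : L2 ι | ∃ b ∈ Balg W, ∃ v, w = b v} : Set (L2 ι)) := by
  classical
  have h1 : (Submodule.span ℂ {w : L2 ι | ∃ b ∈ Balg W, ∃ v, w = b v})ᗮ = ⊥ := by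
    rw [eq_bot_iff]
    intro w hw
    rw [Submodule.mem_bot]
    obtain ⟨i₀⟩ := ‹Nonempty ι›
    let x : L2 ι := lp.single 2 i₀ (1 : ℂ)
    have hx : ‖x‖ = 1 := by
      have := lp.norm_single (E := fun _ : ι => ℂ) (p := 2) (by norm_num) i₀ (1 : ℂ)
      rw [this, norm_one]
    have h2 : ∀ ζ : L2 (ι × ι), ⟪tn x w, W ζ⟫_ℂ = 0 := by
      have h3 : (innerSL ℂ (tn x w)).comp W = 0 := by
        refine ext_tn fun z v => ?_
        change ⟪tn x w, W (tn z v)⟫_ℂ = 0
        rw [← inner_co]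
        have h4 : co W x z v ∈ Submodule.span ℂ {w : L2 ι | ∃ b ∈ Balg W, ∃ v, w = b v} := by
          refine Submodule.subset_span ⟨co W x z, ?_, v, rfl⟩
          exact NonUnitalStarSubalgebra.le_topologicalClosure _
            (NonUnitalStarAlgebra.subset_adjoin ℂ _ ⟨x, z, rfl⟩)
        exact Submodule.inner_left_of_mem_orthogonal h4 hw
      exact fun ζ => DFunLike.congr_fun h3 ζ
    have h5 : tn x w = 0 := by
      have h6 := h2 (star W (tn x w))
      have h7 : W (star W (tn x w)) = tn x w := by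
        have h8 := (Unitary.mem_iff.1 hW).2
        exact DFunLike.congr_fun h8 (tn x w)
      rw [h7] at h6
      exact inner_self_eq_zero.1 h6
    have h9 := norm_tn x w
    rw [h5, norm_zero, hx, one_mul] at h9
    exact norm_eq_zero.1 h9.symm
  have h10 := (Submodule.topologicalClosure_eq_top_iff).2 h1
  exact Submodule.dense_iff_topologicalClosure_eq_top.2 h10

section asm

variable [Countable ι] [Nonempty ι] (M : MU ι) (WW : Op (κ × ι)) (h : Universal M.W WW)
  (dns : DnsStmt) (rlx : RlxStmt) (eps : EpsStmt) (smu : SmuStmt) (lle : LleStmt) (lte : LteStmt)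
  (spl : SplStmt) (lss : LssStmt)

open Bridge

/-- the slices and slice maps -/
noncomputable def preD (h : Universal M.W WW) (dns : DnsStmt) (rlx : RlxStmt) (eps : EpsStmt) :
    Pre (L2 ι) (Al WW) where
  s := asl WW
  dense := dns ι M κ WW h.adapted
  lam := lam WW
  lam_spec := inner_lam WW
  R ν := (rlx ι M κ WW h ν).1.choose
  R_norm ν := (rlx ι M κ WW h ν).1.choose_spec.1
  R_s ν := (rlx ι M κ WW h ν).1.choose_spec.2
  L ν := (rlx ι M κ WW h ν).2.choose
  L_s ν := (rlx ι M κ WW h ν).2.choose_spec.2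
  eps := (eps ι M.W κ WW h).choose
  eps_s := (eps ι M.W κ WW h).choose_spec.2

theorem conv_eq (μ ν : Du WW) : conv WW μ ν = (preD M WW h dns rlx eps).cmul μ ν := by
  refine Pre.lam_injective (P := preD M WW h dns rlx eps) ?_
  rw [Pre.lam_cmul]
  exact Classical.epsilon_spec (p := fun ρ : Du WW => lam WW ρ = lam WW μ * lam WW ν)
    ⟨_, Pre.lam_cmul (P := preD M WW h dns rlx eps) μ ν⟩

theorem counit_eq : counit WW = (preD M WW h dns rlx eps).eps := by
  refine Pre.lam_injective (P := preD M WW h dns rlx eps) ?_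
  rw [Pre.lam_eps]
  exact Classical.epsilon_spec (p := fun ρ : Du WW => lam WW ρ = 1)
    ⟨_, Pre.lam_eps (P := preD M WW h dns rlx eps)⟩

/-- states and `L^1` -/
noncomputable def qhypD (h : Universal M.W WW) (dns : DnsStmt) (rlx : RlxStmt) (eps : EpsStmt)
    (smu : SmuStmt) (lle : LleStmt) (lte : LteStmt) (spl : SplStmt) (lss : LssStmt) :
    QHyp (preD M WW h dns rlx eps) where
  eps_state := (eps ι M.W κ WW h).choose_spec.1
  state_mul μ ν hμ hν := by
    obtain ⟨ρ, hρ, he⟩ := smu ι M κ WW h μ ν hμ hν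
    have h1 : ρ = (preD M WW h dns rlx eps).cmul μ ν := by
      refine Pre.lam_injective (P := preD M WW h dns rlx eps) ?_
      rw [Pre.lam_cmul]
      exact he
    rw [← h1]
    exact hρ
  L1 := L1 M.W WW
  L1_sep := spl ι M κ WW h
  L1_left μ ω hμ hω := lle ι M κ WW h μ ω _ hμ hω
    (Pre.lam_cmul (P := preD M WW h dns rlx eps) μ ω)
  L1_state := lss ι M κ WW h
  L1_tendsto ω hω := lte ι M κ WW h _ (eps ι M.W κ WW h).choose_spec.2 ω hω
    (fun μ => (preD M WW h dns rlx eps).cmul μ ω)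
    (fun μ => Pre.lam_cmul (P := preD M WW h dns rlx eps) μ ω)

theorem amen_iff : Amenable M.W WW ↔ Amen (qhypD M WW h dns rlx eps smu lle lte spl lss) := by
  unfold Amenable Amen
  simp only [conv_eq M WW h dns rlx eps]
  rfl

theorem haag_iff (T : Du WW → Op ι) : Haagerup M.W WW T ↔ Haag T (Balg M.W) := by
  constructor
  · rintro ⟨l, hl, h1, h2⟩
    exact ⟨l, hl, h1, fun b hb => (h2 b hb).1, fun b hb => (h2 b hb).2⟩
  · rintro ⟨l, hl, h1, h2, h3⟩
    exact ⟨l, hl, h1, fun b hb => ⟨h2 b hb, h3 b hb⟩⟩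

theorem condS_iff (T : Du WW → Op ι) : CondS M.W WW T ↔
    Bridge.CondS (qhypD M WW h dns rlx eps smu lle lte spl lss) T (Balg M.W) := by
  unfold CondS Bridge.CondS
  simp only [conv_eq M WW h dns rlx eps, counit_eq M WW h dns rlx eps]
  rfl

/-- the data of `T = λ` -/
noncomputable def tdatL (h : Universal M.W WW) (dns : DnsStmt) (rlx : RlxStmt) (eps : EpsStmt)
    (smu : SmuStmt) (lle : LleStmt) (lte : LteStmt) (spl : SplStmt) (lss : LssStmt)
    (lno : LnoStmt) (lmb : LmbStmt) :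
    TDat (preD M WW h dns rlx eps) (qhypD M WW h dns rlx eps smu lle lte spl lss)
      (Balg M.W) where
  T := lam WW
  T_add := Pre.lam_add (P := preD M WW h dns rlx eps)
  T_smul := Pre.lam_smul (P := preD M WW h dns rlx eps)
  T_mul := Pre.lam_cmul (P := preD M WW h dns rlx eps)
  T_eps := Pre.lam_eps (P := preD M WW h dns rlx eps)
  norm_le := lno ι κ WW h.adapted.unit
  closed := isClosed_Balg M.W
  L1_sub := (lmb ι M κ WW h).1
  L1_dense := (lmb ι M κ WW h).2
  nd := dense_Balg M.W_unitary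
  H₀ := Set.univ
  H₀_dense := dense_univ
  slice_ex u _ v _ := ⟨asl WW u v, fun μ => inner_lam WW μ u v⟩
  slice_dense := by
    refine (dns ι M κ WW h.adapted).mono (Submodule.span_mono ?_)
    rintro a ⟨u, v, rfl⟩
    exact ⟨u, trivial, v, trivial, fun μ => inner_lam WW μ u v⟩

/-- Q1 -/
theorem q1 (h : Universal M.W WW) (dns : DnsStmt) (rlx : RlxStmt) (eps : EpsStmt)
    (smu : SmuStmt) (lle : LleStmt) (lte : LteStmt) (spl : SplStmt) (lss : LssStmt)
    (spa : SpaStmt) (lno : LnoStmt) (lmb : LmbStmt) :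
    (Amenable M.W WW ∧ Haagerup M.W WW (lam WW)) ↔ CondS M.W WW (lam WW) := by
  have : TopologicalSpace.SeparableSpace (Al WW) := spa ι M κ WW h.adapted
  rw [amen_iff M WW h dns rlx eps smu lle lte spl lss, haag_iff M WW,
    condS_iff M WW h dns rlx eps smu lle lte spl lss]
  exact (tdatL M WW h dns rlx eps smu lle lte spl lss lno lmb).main

end asm

end Pool.Agent.MQG
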