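import Pool.Agent.MQG.Grp

set_option autoImplicit false

/-!
# Gaussian means
-/

namespace Pool.Agent.MQG

open scoped InnerProductSpace InnerProduct Topology ComplexConjugate
open Complex Filter MeasureTheory

variable {α β γ : Type}

/-- the Gaussian kernel -/
noncomputable def gk (n : ℕ) (z : ℂ) (t : ℝ) : ℂ :=
  (√(((n : ℝ) + 1) / Real.pi) : ℝ) * cexp (-((n : ℂ) + 1) * ((t : ℂ) - z) ^ 2)

theorem norm_gk (n : ℕ) (z : ℂ) (t : ℝ) : ‖gk n z t‖ = √(((n : ℝ) + 1) / Real.pi) *
    Real.exp (-((n : ℝ) + 1) * ((t - z.re) ^ 2 - z.im ^ 2)) := by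
  rw [gk, norm_mul, Complex.norm_real, Real.norm_of_nonneg (Real.sqrt_nonneg _),
    Complex.norm_exp]
  congr 2
  have h : -((n : ℂ) + 1) * ((t : ℂ) - z) ^ 2 = ((-((n : ℝ) + 1) : ℝ) : ℂ) * ((t : ℂ) - z) ^ 2 := by
    push_cast
    ring
  rw [h, Complex.re_ofReal_mul]
  congr 1
  simp [pow_two]

theorem continuous_gk (n : ℕ) (z : ℂ) : Continuous (gk n z) := by
  unfold gk
  fun_prop

theorem gk_shift (n : ℕ) (z : ℂ) (s t : ℝ) : gk n (z + s) t = gk n z (t - s) := by
  unfold gk
  push_cast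
  congr 2
  ring

/-- the dominating function -/
theorem norm_gk_le (n : ℕ) {z : ℂ} {R : ℝ} (hz : ‖z‖ ≤ R) (t : ℝ) :
    ‖gk n z t‖ ≤ √(((n : ℝ) + 1) / Real.pi) * Real.exp (2 * ((n : ℝ) + 1) * R ^ 2) *
      Real.exp (-(((n : ℝ) + 1) / 2) * t ^ 2) := by
  rw [norm_gk, mul_assoc, ← Real.exp_add]
  have h1 : z.re ^ 2 ≤ R ^ 2 := by
    have := (Complex.abs_re_le_norm z).trans hz
    exact sq_le_sq' (by linarith [neg_abs_le z.re]) ((le_abs_self _).trans this)
  have h2 : z.im ^ 2 ≤ R ^ 2 := by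
    have := (Complex.abs_im_le_norm z).trans hz
    exact sq_le_sq' (by linarith [neg_abs_le z.im]) ((le_abs_self _).trans this)
  gcongr
  have h3 : 0 ≤ (n : ℝ) + 1 := by positivity
  have h4 : t ^ 2 / 2 - R ^ 2 ≤ (t - z.re) ^ 2 := by
    nlinarith [sq_nonneg (t - 2 * z.re)]
  nlinarith

theorem integrable_gauss_bound (n : ℕ) (C R : ℝ) :
    Integrable fun t : ℝ => C * ((|t| + R) * Real.exp (-(((n : ℝ) + 1) / 2) * t ^ 2)) := by
  have hb : 0 < ((n : ℝ) + 1) / 2 := by positivity
  have h1 := (integrable_mul_exp_neg_mul_sq hb).norm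
  have h2 := (integrable_exp_neg_mul_sq hb).const_mul R
  have h3 := (h1.add h2).const_mul C
  refine h3.congr (Eventually.of_forall fun t => ?_)
  change C * (‖t * Real.exp (-(((n : ℝ) + 1) / 2) * t ^ 2)‖ +
    R * Real.exp (-(((n : ℝ) + 1) / 2) * t ^ 2)) = _
  rw [norm_mul, Real.norm_of_nonneg (Real.exp_pos _).le, Real.norm_eq_abs]
  ring

theorem integrable_gk (n : ℕ) (z : ℂ) : Integrable (gk n z) := by
  have hb : 0 < ((n : ℝ) + 1) / 2 := by positivity
  refine Integrable.mono' ((integrable_exp_neg_mul_sq hb).const_mul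
    (√(((n : ℝ) + 1) / Real.pi) * Real.exp (2 * ((n : ℝ) + 1) * ‖z‖ ^ 2)))
    (continuous_gk n z).aestronglyMeasurable (Eventually.of_forall fun t => norm_gk_le n le_rfl t)

theorem integral_norm_gk_zero (n : ℕ) : ∫ t, ‖gk n 0 t‖ = 1 := by
  have hb : 0 < (n : ℝ) + 1 := by positivity
  have h : (fun t => ‖gk n 0 t‖) = fun t : ℝ => √(((n : ℝ) + 1) / Real.pi) *
      Real.exp (-((n : ℝ) + 1) * t ^ 2) := by
    funext t
    rw [norm_gk]
    simp
  rw [h, integral_const_mul, integral_gaussian, ← Real.sqrt_mul (by positivity)]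
  rw [div_mul_div_comm, mul_comm Real.pi, div_self (by positivity), Real.sqrt_one]

theorem integral_gk_zero (n : ℕ) : ∫ t, gk n 0 t = 1 := by
  have h1 := integral_norm_gk_zero n
  have h : gk n 0 = fun t => ((‖gk n 0 t‖ : ℝ) : ℂ) := by
    funext t
    rw [norm_gk, gk]
    simp
  rw [h, integral_complex_ofReal, h1, Complex.ofReal_one]

namespace IsGroup

variable {V : ℝ → Op α}

theorem integrable_smul (hV : IsGroup V) (n : ℕ) (z : ℂ) (ξ : L2 α) :
    Integrable fun t => gk n z t • V t ξ := by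
  refine Integrable.mono' ((integrable_gk n z).norm.mul_const ‖ξ‖)
    ((continuous_gk n z).smul (hV.cont ξ)).aestronglyMeasurable
    (Eventually.of_forall fun t => ?_)
  rw [norm_smul, hV.norm_apply]

/-- the Gaussian mean `∫ √(c/π) exp(-c (t - z)²) V_t ξ dt`, `c = n + 1` -/
noncomputable def gauss (hV : IsGroup V) (n : ℕ) (z : ℂ) : Op α :=
  LinearMap.mkContinuous
    { toFun := fun ξ => ∫ t, gk n z t • V t ξ
      map_add' := fun ξ η => by
        rw [← integral_add (hV.integrable_smul n z ξ) (hV.integrable_smul n z η)]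
        simp only [map_add, smul_add]
      map_smul' := fun c ξ => by
        rw [← integral_smul]
        simp only [map_smul, smul_comm c, RingHom.id_apply] }
    (∫ t, ‖gk n z t‖) (fun ξ => by
      change ‖∫ t, gk n z t • V t ξ‖ ≤ _
      rw [← integral_mul_const]
      refine (norm_integral_le_integral_norm _).trans (le_of_eq ?_)
      congr 1
      funext t
      rw [norm_smul, hV.norm_apply])

theorem gauss_apply (hV : IsGroup V) (n : ℕ) (z : ℂ) (ξ : L2 α) :
    hV.gauss n z ξ = ∫ t, gk n z t • V t ξ := rfl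

theorem norm_gauss_le (hV : IsGroup V) (n : ℕ) (z : ℂ) : ‖hV.gauss n z‖ ≤ ∫ t, ‖gk n z t‖ :=
  LinearMap.mkContinuous_norm_le _ (integral_nonneg fun _ => norm_nonneg _) _

theorem norm_gauss_zero_le (hV : IsGroup V) (n : ℕ) : ‖hV.gauss n 0‖ ≤ 1 :=
  (hV.norm_gauss_le n 0).trans (integral_norm_gk_zero n).le

theorem differentiable_gauss (hV : IsGroup V) (n : ℕ) (ξ : L2 α) :
    Differentiable ℂ fun z => hV.gauss n z ξ := by
  intro z₀
  set c : ℝ := (n : ℝ) + 1 with hc
  set R : ℝ := ‖z₀‖ + 1 with hR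
  have hR0 : 0 ≤ R := by positivity
  have hc0 : 0 ≤ c := by positivity
  have h := hasDerivAt_integral_of_dominated_loc_of_deriv_le (μ := volume) (𝕜 := ℂ)
    (F := fun z t => gk n z t • V t ξ)
    (F' := fun z t => (2 * ((n : ℂ) + 1) * ((t : ℂ) - z) * gk n z t) • V t ξ)
    (x₀ := z₀) (s := Metric.ball z₀ 1)
    (bound := fun t => (2 * c * (√(c / Real.pi) * Real.exp (2 * c * R ^ 2)) * ‖ξ‖) *
      ((|t| + R) * Real.exp (-(c / 2) * t ^ 2)))
    (Metric.ball_mem_nhds _ one_pos)
    (Eventually.of_forall fun z => (hV.integrable_smul n z ξ).aestronglyMeasurable)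
    (hV.integrable_smul n z₀ ξ)
    (by
      refine Continuous.aestronglyMeasurable ?_
      exact ((by fun_prop : Continuous fun t : ℝ => 2 * ((n : ℂ) + 1) * ((t : ℂ) - z₀)).mul
        (continuous_gk n z₀)).smul (hV.cont ξ))
    (by
      refine Eventually.of_forall fun t z hz => ?_
      have hz' : ‖z‖ ≤ R := by
        have h1 : ‖z - z₀‖ < 1 := by simpa [dist_eq_norm] using hz
        calc ‖z‖ = ‖z₀ + (z - z₀)‖ := by ring_nf
          _ ≤ ‖z₀‖ + ‖z - z₀‖ := norm_add_le _ _
          _ ≤ R := by linarith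
      have h2 : ‖(2 * ((n : ℂ) + 1) * ((t : ℂ) - z))‖ ≤ 2 * c * (|t| + R) := by
        rw [norm_mul, norm_mul]
        have h3 : ‖((n : ℂ) + 1)‖ = c := by
          have : ((n : ℂ) + 1) = ((c : ℝ) : ℂ) := by push_cast [hc]; ring
          rw [this, Complex.norm_real, Real.norm_of_nonneg hc0]
        have h4 : ‖(t : ℂ) - z‖ ≤ |t| + R := by
          refine (norm_sub_le _ _).trans ?_
          rw [Complex.norm_real, Real.norm_eq_abs]
          linarith
        rw [h3, Complex.norm_two]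
        gcongr
      have h5 := norm_gk_le n hz' t
      rw [norm_smul, norm_mul, hV.norm_apply]
      calc ‖(2 * ((n : ℂ) + 1) * ((t : ℂ) - z))‖ * ‖gk n z t‖ * ‖ξ‖
          ≤ (2 * c * (|t| + R)) * (√(c / Real.pi) * Real.exp (2 * c * R ^ 2) *
            Real.exp (-(c / 2) * t ^ 2)) * ‖ξ‖ := by gcongr
        _ = _ := by ring)
    (integrable_gauss_bound n _ _)
    (by
      refine Eventually.of_forall fun t z _ => ?_
      refine HasDerivAt.smul_const ?_ (V t ξ)
      have h1 : HasDerivAt (fun z : ℂ => -((n : ℂ) + 1) * ((t : ℂ) - z) ^ 2)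
          (-((n : ℂ) + 1) * (2 * ((t : ℂ) - z) * (-1))) z := by
        have h2 : HasDerivAt (fun z : ℂ => (t : ℂ) - z) (-1) z := by
          simpa using (hasDerivAt_id z).const_sub (t : ℂ)
        have h3 := h2.pow 2
        have h4 := h3.const_mul (-((n : ℂ) + 1))
        refine h4.congr_deriv ?_
        simp
      have h5 := (h1.cexp).const_mul ((√(((n : ℝ) + 1) / Real.pi) : ℝ) : ℂ)
      refine h5.congr_deriv ?_
      rw [gk]
      ring)
  exact h.2.differentiableAt

/-- pulling a bounded operator into the integral -/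
theorem apply_gauss {E : Type*} [NormedAddCommGroup E] [NormedSpace ℂ E] [CompleteSpace E]
    (hV : IsGroup V) (F : L2 α →L[ℂ] E) (n : ℕ) (z : ℂ) (ξ : L2 α) :
    F (hV.gauss n z ξ) = ∫ t, gk n z t • F (V t ξ) := by
  rw [gauss_apply, ← ContinuousLinearMap.integral_comp_comm F (hV.integrable_smul n z ξ)]
  simp only [map_smul]

theorem gauss_real (hV : IsGroup V) (n : ℕ) (s : ℝ) (z : ℂ) (ξ : L2 α) :
    hV.gauss n (z + s) ξ = V s (hV.gauss n z ξ) := by
  calc hV.gauss n (z + s) ξ = ∫ t, gk n z (t - s) • V t ξ := by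
        rw [gauss_apply]
        simp only [gk_shift]
    _ = ∫ t, (fun t => gk n z (t - s) • V t ξ) (t + s) :=
        (integral_add_right_eq_self (fun t => gk n z (t - s) • V t ξ) s).symm
    _ = ∫ t, gk n z t • V s (V t ξ) := by
        congr 1
        funext t
        change gk n z (t + s - s) • V (t + s) ξ = _
        rw [add_sub_cancel_right, add_comm t s, hV.apply_add]
    _ = V s (hV.gauss n z ξ) := (hV.apply_gauss (V s) n z ξ).symm

/-- the Gaussian mean is an entire vector -/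
theorem traj_gauss (hV : IsGroup V) (n : ℕ) (ξ : L2 α) : Traj V fun z => hV.gauss n z ξ := by
  refine ⟨hV.differentiable_gauss n ξ, fun t => ?_⟩
  change hV.gauss n t ξ = V t (hV.gauss n 0 ξ)
  rw [← hV.gauss_real, zero_add]

/-- intertwiners commute with Gaussian means -/
theorem map_gauss (hV : IsGroup V) {V' : ℝ → Op β} (hV' : IsGroup V') {T : L2 α →L[ℂ] L2 β}
    (hT : ∀ t ξ, T (V t ξ) = V' t (T ξ)) (n : ℕ) (z : ℂ) (ξ : L2 α) :
    T (hV.gauss n z ξ) = hV'.gauss n z (T ξ) := by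
  rw [hV.apply_gauss T n z ξ, hV'.gauss_apply]
  simp only [hT]
  rfl

theorem gauss_V (hV : IsGroup V) (n : ℕ) (z : ℂ) (s : ℝ) (ξ : L2 α) :
    hV.gauss n z (V s ξ) = V s (hV.gauss n z ξ) := by
  rw [hV.map_gauss hV (T := V s) (fun t η => ?_)]
  rw [← hV.apply_add, ← hV.apply_add, add_comm]

/-- Gaussian means commute with the extension of the orbits of entire vectors -/
theorem gauss_traj (hV : IsGroup V) {f : ℂ → L2 α} (hf : Traj V f) (n : ℕ) (z w : ℂ) :
    hV.gauss n z (f w) = hV.gauss n 0 (f (z + w)) := by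
  have h : (fun z => hV.gauss n z (f w)) = fun z => hV.gauss n 0 (f (z + w)) := by
    refine entire_ext (hV.differentiable_gauss n _)
      ((hV.gauss n 0).differentiable.comp (hf.shift hV w).1) fun s => ?_
    change hV.gauss n s (f w) = hV.gauss n 0 (f (s + w))
    have h1 := hV.gauss_real n s 0 (f w)
    rw [zero_add] at h1
    rw [h1, hf.shift_real hV, hV.gauss_V]
  exact congrFun h z

/-- integration of an identity over the orbit: if `F₁ (V_t ζ) = F₂ (V_{t+w} ζ)` for all real `t` then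
`F₁ (gauss n 0 ζ) = F₂ (gauss n w ζ)` -/
theorem gauss_integrate {E : Type*} [NormedAddCommGroup E] [NormedSpace ℂ E] [CompleteSpace E]
    (hV : IsGroup V) {f : ℂ → L2 α} (hf : Traj V f) (n : ℕ) (w : ℂ) {F₁ F₂ : L2 α →L[ℂ] E}
    (h : ∀ t : ℝ, F₁ (f t) = F₂ (f (t + w))) :
    F₁ (hV.gauss n 0 (f 0)) = F₂ (hV.gauss n w (f 0)) := by
  rw [hV.gauss_traj hf n w 0, add_zero, hV.apply_gauss F₁, hV.apply_gauss F₂]
  congr 1
  funext t
  rw [← hf.2, h, hf.shift_real hV]

/-- Gaussian means converge strongly to the identity -/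
theorem tendsto_gauss (hV : IsGroup V) (ξ : L2 α) :
    Tendsto (fun n => hV.gauss n 0 ξ) atTop (𝓝 ξ) := by
  -- substitution
  have h1 : ∀ n : ℕ, hV.gauss n 0 ξ = ∫ s, gk 0 0 s • V (s / √((n : ℝ) + 1)) ξ := by
    intro n
    have hc : 0 < (n : ℝ) + 1 := by positivity
    have hs : 0 < √((n : ℝ) + 1) := Real.sqrt_pos.2 hc
    have h2 := MeasureTheory.Measure.integral_comp_mul_left
      (fun s => gk 0 0 s • V (s / √((n : ℝ) + 1)) ξ) (√((n : ℝ) + 1))
    have h3 : (fun x : ℝ => (fun s => gk 0 0 s • V (s / √((n : ℝ) + 1)) ξ) (√((n : ℝ) + 1) * x)) =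
        fun x => ((√((n : ℝ) + 1))⁻¹ : ℝ) • (gk n 0 x • V x ξ) := by
      funext x
      change gk 0 0 (√((n : ℝ) + 1) * x) • V (√((n : ℝ) + 1) * x / √((n : ℝ) + 1)) ξ = _
      rw [mul_div_cancel_left₀ _ hs.ne', ← smul_assoc]
      congr 1
      rw [gk, gk, Complex.real_smul, ← mul_assoc, ← Complex.ofReal_mul]
      congr 1
      · congr 1
        rw [Real.sqrt_div hc.le, Nat.cast_zero, zero_add, Real.sqrt_div zero_le_one, Real.sqrt_one]
        field_simp
      · congr 1
        have h4 : ((√((n : ℝ) + 1) : ℝ) : ℂ) ^ 2 = (n : ℂ) + 1 := by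
          rw [← Complex.ofReal_pow, Real.sq_sqrt hc.le]
          push_cast
          ring
        push_cast
        rw [sub_zero, mul_pow, h4]
        ring
    rw [h3, integral_smul, abs_of_pos (inv_pos.2 hs)] at h2
    have h5 := congrArg (fun v => (√((n : ℝ) + 1) : ℝ) • v) h2
    simp only [smul_smul, mul_inv_cancel₀ hs.ne', one_smul] at h5
    exact h5
  simp only [h1]
  have h6 : ξ = ∫ s, gk 0 0 s • ξ := by
    rw [integral_smul_const, integral_gk_zero, one_smul]
  have h7 : Tendsto (fun n : ℕ => ∫ s, gk 0 0 s • V (s / √((n : ℝ) + 1)) ξ) atTop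
      (𝓝 (∫ s, gk 0 0 s • ξ)) := by
    refine tendsto_integral_of_dominated_convergence (fun s => ‖gk 0 0 s‖ * ‖ξ‖) (fun n => ?_)
      ((integrable_gk 0 0).norm.mul_const _) (fun n => Eventually.of_forall fun s => ?_)
      (Eventually.of_forall fun s => ?_)
    · refine Continuous.aestronglyMeasurable ?_
      exact (continuous_gk 0 0).smul ((hV.cont ξ).comp (continuous_id.div_const _))
    · rw [norm_smul, hV.norm_apply]
    · refine Tendsto.const_smul ?_ (gk 0 0 s)
      have h8 : Tendsto (fun n : ℕ => s / √((n : ℝ) + 1)) atTop (𝓝 0) := by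
        refine Tendsto.div_atTop tendsto_const_nhds ?_
        exact Real.tendsto_sqrt_atTop.comp
          (tendsto_atTop_add_const_right _ _ tendsto_natCast_atTop_atTop)
      have h9 := ((hV.cont ξ).tendsto 0).comp h8
      rwa [hV.apply_zero] at h9
  rwa [← h6] at h7

/-- entire vectors are dense, even the values of all trajectories at one point -/
theorem dense_traj (hV : IsGroup V) (w : ℂ) : Dense {ξ : L2 α | ∃ f, Traj V f ∧ f w = ξ} := by
  intro ξ
  refine mem_closure_of_tendsto (hV.tendsto_gauss ξ) (Eventually.of_forall fun n => ?_)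
  refine ⟨fun z => hV.gauss n (z - w) ξ, ?_, ?_⟩
  · have h := (hV.traj_gauss n ξ).shift hV (-w)
    exact h
  · change hV.gauss n (w - w) ξ = _
    rw [sub_self]

/-- entire vectors are dense -/
theorem dense_entire (hV : IsGroup V) : Dense {ξ : L2 α | ∃ f, Traj V f ∧ f 0 = ξ} :=
  hV.dense_traj 0

end IsGroup

/-! ## Three lines -/

/-- the maximum principle on a strip for bounded functions -/
theorem three_lines {f : ℂ → ℂ} {s C M : ℝ} (hs : 0 < s)
    (hf : DiffContOnCl ℂ f {z | 0 < z.im ∧ z.im < s})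
    (hC : ∀ z : ℂ, 0 ≤ z.im → z.im ≤ s → ‖f z‖ ≤ C)
    (h0 : ∀ t : ℝ, ‖f t‖ ≤ M) (h1 : ∀ t : ℝ, ‖f (t + s * I)‖ ≤ M) {z : ℂ} (hz : 0 ≤ z.im)
    (hz' : z.im ≤ s) : ‖f z‖ ≤ M := by
  have hset : {z : ℂ | 0 < z.im ∧ z.im < s} = Complex.im ⁻¹' Set.Ioo 0 s := rfl
  rw [hset] at hf
  refine PhragmenLindelof.horizontal_strip hf ?_ (fun z h => ?_) (fun z h => ?_) hz hz'
  · refine ⟨0, by positivity, 0, ?_⟩
    refine Asymptotics.IsBigO.of_bound C ?_
    refine Filter.mem_inf_of_right ?_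
    intro z hz
    have h2 := hC z hz.1.le hz.2.le
    simpa using h2
  · have h2 : z = (z.re : ℂ) := by
      apply Complex.ext <;> simp [h]
    rw [h2]
    exact h0 _
  · have h2 : z = (z.re : ℂ) + s * I := by
      apply Complex.ext <;> simp [h]
    rw [h2]
    exact h1 _

end Pool.Agent.MQG
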