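import Pool.Agent.MQG.StmtsA

set_option autoImplicit false

/-!
# Statements of block C: the scaling group and `λ~`

`V` is a group (`IsGroup V`), `V_z (f 0) = f z` for a trajectory `f`; for `a ∈ B(H)`, `τ_z(a) = V_z a V_(-z)`
has the matrix elements `⟪f (-(conj z)), a (g (-z))⟫` at the entire vectors `f 0`, `g 0`.
-/

namespace Pool.Agent.MQG

open scoped InnerProductSpace InnerProduct Topology ComplexConjugate
open Complex Filter

/-- `b` is `τ_(i s)(a)` at the level of entire vectors. -/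
def Shp {ι : Type} (V : ℝ → Op ι) (s : ℝ) (a b : Op ι) : Prop :=
  ∀ f g : ℂ → L2 ι, Traj V f → Traj V g → ⟪f 0, b (g 0)⟫_ℂ = ⟪f (I * s), a (g (-(I * s)))⟫_ℂ

/-! ## 1. Analytic continuation -/

/-- TLA: three lines, construction of `τ_z(a)` on the strip.

Proof.  For trajectories `f`, `g` let `Φ z = ⟪f (-(conj z)), a (g (-z))⟫`.  It is entire
(`inner_differentiable` with `w ↦ f (-w)`, `w ↦ a (g (-w))`), and bounded on `0 ≤ Im z ≤ s`:
`‖f (-(x - i y))‖ = ‖f (i y)‖` (`Traj.shift_real`, `norm_apply`) and `y ↦ f (i y)` is bounded on `[0, s]`, the same for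
`g (-z)`.  On `Im z = 0`: `|Φ| ≤ ‖a‖ ‖f 0‖ ‖g 0‖`.  On `Im z = s`, `z = x + i s`: the hypothesis for the trajectories
`f (· - x)`, `g (· - x)` gives `|Φ| ≤ C ‖f (-x)‖ ‖g (-x)‖ = C ‖f 0‖ ‖g 0‖`.  `three_lines`:
`|Φ z| ≤ C ‖f 0‖ ‖g 0‖` on the strip.
Let `G n w := hV.gauss n w`, `F n z := (G n (-(conj z)))† ∘ a ∘ G n (-z)`.  For all `ξ`, `η` (`w ↦ G n w ξ` is a trajectory):
`|⟪ξ, F n z η⟫| = |⟪G n (-(conj z)) ξ, a (G n (-z) η)⟫| ≤ C ‖G n 0 ξ‖ ‖G n 0 η‖ ≤ C ‖ξ‖ ‖η‖`, so `‖F n z‖ ≤ C`.  For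
trajectories `⟪f 0, F n z (g 0)⟫ = ⟪G n 0 (f (-(conj z))), a (G n 0 (g (-z)))⟫ → Φ z` (`gauss_traj`, `tendsto_gauss`).  As
the `f 0` are dense and `‖F n z‖ ≤ C`, `⟪ξ, F n z η⟫` converges for all `ξ`, `η` (Cauchy), the limit is a bounded
sesquilinear form of norm `≤ C`, given by an operator `F z` (`InnerProductSpace.continuousLinearMapOfBilin`).
(Alternative: extend the form `(f 0, g 0) ↦ Φ z` from the dense subspace of entire vectors.) -/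
def TlaStmt : Prop := ∀ (ι : Type) (V : ℝ → Op ι), IsGroup V → ∀ (a : Op ι) (C s : ℝ), 0 < s →
  ‖a‖ ≤ C → (∀ f g : ℂ → L2 ι, Traj V f → Traj V g →
    ‖⟪f (I * s), a (g (-(I * s)))⟫_ℂ‖ ≤ C * ‖f 0‖ * ‖g 0‖) →
  ∃ F : ℂ → Op ι, ∀ z : ℂ, 0 ≤ z.im → z.im ≤ s → ‖F z‖ ≤ C ∧
    ∀ f g : ℂ → L2 ι, Traj V f → Traj V g → ⟪f 0, F z (g 0)⟫_ℂ = ⟪f (-(conj z)), a (g (-z))⟫_ℂ

/-- TLB: regularity of `τ_z(a)`.

Proof.  `F t = V t a V (-t)` for real `t` by density (`f (-t) = V (-t) (f 0)`, `star_eq`).  For `u = f 0`, `y = g 0` the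
function `z ↦ ⟪u, F z y⟫` coincides on the closed strip with an entire function.  For arbitrary `u`, `y` choose
trajectories with `f_n 0 → u`, `g_n 0 → y`: because of `‖F z‖ ≤ C` the functions `⟪f_n 0, F z (g_n 0)⟫` converge to
`⟪u, F z y⟫` uniformly on the strip `0 ≤ Im z ≤ r`; so the limit is continuous there and analytic inside
(`TendstoUniformlyOn.differentiableOn`, `TendstoUniformlyOn.continuousOn`; the closure of the open strip is contained in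
the closed strip). -/
def TlbStmt : Prop := ∀ (ι : Type) (V : ℝ → Op ι), IsGroup V → ∀ (a : Op ι) (C s : ℝ)
  (F : ℂ → Op ι), (∀ z : ℂ, 0 ≤ z.im → z.im ≤ s → ‖F z‖ ≤ C ∧
    ∀ f g : ℂ → L2 ι, Traj V f → Traj V g → ⟪f 0, F z (g 0)⟫_ℂ = ⟪f (-(conj z)), a (g (-z))⟫_ℂ) →
  ∀ r : ℝ, 0 < r → r ≤ s → IsTau V r a (F (I * r))

/-- TUN: uniqueness.

Proof.  Let `F` be as in `IsTau V r a b` (`‖F z‖ ≤ C₀`), `f`, `g` trajectories and
`D z = ⟪f 0, F z (g 0)⟫ - ⟪f (-(conj z)), a (g (-z))⟫`: continuous on the closed strip (`DiffContOnCl` on the open strip;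
the closure of the open strip is the closed one), analytic inside, `‖D z‖ ≤ M` on the closed strip, and `D t = 0` for
real `t` (`F t = V t a V (-t)`).  For real `l` apply `three_lines` to `exp (-(I * l * z)) * D z`, which has norm
`exp (l Im z) ‖D z‖`: `exp (l Im z) ‖D z‖ ≤ exp (l r) M`, so `‖D z‖ ≤ M exp (l (r - Im z))`; let `l → -∞`: `D z = 0` for
`Im z < r`, and by continuity at `z = I r`.  So `⟪f 0, b (g 0)⟫ = ⟪f (-(conj (I r))), a (g (-(I r)))⟫` and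
`-(conj (I r)) = I r`. -/
def TunStmt : Prop := ∀ (ι : Type) (V : ℝ → Op ι), IsGroup V → ∀ (r : ℝ) (a b : Op ι), 0 < r →
  IsTau V r a b → Shp V r a b

/-- SHM: multiplicativity.

Proof.  Let `G n w = hV.gauss n w`, `f`, `g`, `h` trajectories.  Claim: `G n (-(I s)) (b' (g 0)) = G n 0 (a' (g (-(I s))))`.
Take the inner product with `h 0`: the adjoint of `G n w` is `G n (-(conj w))` (`gauss_apply`, `star_eq`: substitute
`t → -t` in the integral; for `w = -(I s)` and for `w = 0` it is `G n w` itself; alternatively avoid the adjoint: both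
`w ↦ ⟪h 0, G n w ξ⟫` and `w ↦ ⟪G n (-(conj w)) (h 0), ξ⟫` are entire and agree for real `w`, where
`G n t = V t G n 0` and `G n 0` is symmetric).  So `⟪h 0, G n (-(I s)) (b' (g 0))⟫ = ⟪G n (-(I s)) (h 0), b' (g 0)⟫ =
⟪G n 0 (h 0), a' (g (-(I s)))⟫` (`Shp` for the trajectory `w ↦ G n (w - I s) (h 0)`)
`= ⟪h 0, G n 0 (a' (g (-(I s))))⟫`.
Now `w ↦ G n w (b' (g 0))` is a trajectory and `Shp V s a b` gives
`⟪f 0, b (G n 0 (b' (g 0)))⟫ = ⟪f (I s), a (G n (-(I s)) (b' (g 0)))⟫ = ⟪f (I s), a (G n 0 (a' (g (-(I s)))))⟫`; let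
`n → ∞` (`tendsto_gauss`). -/
def ShmStmt : Prop := ∀ (ι : Type) (V : ℝ → Op ι), IsGroup V → ∀ (s : ℝ) (a b a' b' : Op ι),
  Shp V s a b → Shp V s a' b' → Shp V s (a * a') (b * b')

/-! ## 2. `λ~` -/

/-- HBD: the bound on the line `Im z = 1/2`.

Proof.  `inner_lam`: the left side is `‖μ (asl U (f (I/2)) (g (-(I/2))))‖ ≤ ‖μ‖ ‖sl U (f (I/2)) (g (-(I/2)))‖`, and
`star (sl U (f (I/2)) (g (-(I/2)))) = sl (star U) (g (-(I/2))) (f (I/2)) = sl Uh (star (f 0)) (star (g 0))` (`star_sl`,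
`IsHat.sl`) has norm `≤ ‖Uh‖ ‖f 0‖ ‖g 0‖ ≤ ‖f 0‖ ‖g 0‖` (`norm_sl_le`, `norm_star`, `Uh` unitary; the norm of a unitary
is `≤ 1`). -/
def HbdStmt : Prop := ∀ (ι : Type) (V : ℝ → Op ι) (κ : Type) (U Uh : Op (κ × ι)),
  Uh ∈ unitary (Op (κ × ι)) → IsHat V U Uh → ∀ (μ : Du U) (f g : ℂ → L2 ι), Traj V f → Traj V g →
  ‖⟪f (I / 2), lam U μ (g (-(I / 2)))⟫_ℂ‖ ≤ ‖μ‖ * ‖f 0‖ * ‖g 0‖

/-- LTX: existence of `λ~(μ)`.

Proof.  HTE, HBD, `‖lam U μ‖ ≤ ‖μ‖` (LNO), TLA with `s = 1/2`, `C = ‖μ‖` (`I * (1/2) = I / 2`), TLB with `r = 1/4`: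
`b := F (I * (1/4))`. -/
def LtxStmt : Prop := ∀ (ι : Type) (M : MU ι) (κ : Type) (U : Op (κ × ι)), Adapted M.W U →
  ∀ μ : Du U, ∃ b, IsTau M.V (1 / 4) (lam U μ) b ∧ ‖b‖ ≤ ‖μ‖

/-- `λ~(μ) = τ^_(i/4)(λ(μ))`. -/
noncomputable def lamt {κ ι : Type} (V : ℝ → Op ι) (U : Op (κ × ι)) (μ : Du U) : Op ι :=
  Classical.epsilon fun b => IsTau V (1 / 4) (lam U μ) b

/-- LTS: the properties of `λ~`.

Proof.  LTX gives the first two (`Classical.epsilon_spec`); two operators `b`, `b'` with `IsTau` are equal by TUN and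
density of the `f 0` (for the norm bound take the `b` of LTX, which is `lamt`).  `Shp` is TUN.  Conversely if
`Shp V (1/4) (lam U μ) b` then `b = lamt` by density.  Linearity and the last item: `Shp` is clearly compatible with sums,
multiples, and (SHM) products, and `Shp V s 1 1` (`Traj.inner_shift`). -/
def LtsStmt : Prop := ∀ (ι : Type) (M : MU ι) (κ : Type) (U : Op (κ × ι)), Adapted M.W U →
  (∀ μ b, IsTau M.V (1 / 4) (lam U μ) b ↔ b = lamt M.V U μ) ∧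
  (∀ μ b, Shp M.V (1 / 4) (lam U μ) b ↔ b = lamt M.V U μ) ∧
  (∀ μ, ‖lamt M.V U μ‖ ≤ ‖μ‖) ∧
  (∀ μ ν, lamt M.V U (μ + ν) = lamt M.V U μ + lamt M.V U ν) ∧
  (∀ (c : ℂ) μ, lamt M.V U (c • μ) = c • lamt M.V U μ) ∧
  (∀ μ ν ρ, lam U ρ = lam U μ * lam U ν → lamt M.V U ρ = lamt M.V U μ * lamt M.V U ν) ∧
  ∀ e, lam U e = 1 → lamt M.V U e = 1

/-- SHC: the slices of `W`.

Proof.  `⟪p (I s), co W (f 0) (g 0) (q (-(I s)))⟫ = ⟪f 0 ⊗ p (I s), W (g 0 ⊗ q (-(I s)))⟫` for trajectories `p`, `q`.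
`Ξ w = f w ⊗ p (w + I s)`, `H w = g w ⊗ q (w - I s)` are trajectories of `V ⊗ V`, which commutes with `W` (`M.inv`);
`Traj.inner_const` with `w = I s`: it is `⟪Ξ (-(I s)), W (H (I s))⟫ = ⟪f (-(I s)) ⊗ p 0, W (g (I s) ⊗ q 0)⟫`. -/
def ShcStmt : Prop := ∀ (ι : Type) (M : MU ι) (s : ℝ) (f g : ℂ → L2 ι), Traj M.V f → Traj M.V g →
  Shp M.V s (co M.W (f 0) (g 0)) (co M.W (f (-(I * s))) (g (I * s)))

/-- LTD: `λ~(L^1(G))` is a dense subspace of `C_0(G^)`.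

Proof.  `Λ` exists (`Universal.lift` for `W`, which is adapted by `M.pentagon`).  Let `ω_(x,z) := ⟪x, Λ · z⟫ ∈ L1`
(continuous: `NonUnitalStarAlgHom.norm_apply_le`); `lam ω_(x,z) = co W x z` (`inner_lam`, `inner_sl`, `inner_co`).  For
`x = f 0`, `z = g 0` SHC and LTS give `lamt ω_(x,z) = co W (f (-(I/4))) (g (I/4)) ∈ Balg W`.  For all `x`, `z`: approximate
(`‖ω_(x,z)‖ ≤ ‖x‖ ‖z‖`, bilinear; `lamt` is linear and contractive, `Balg W` is closed), then for all `ω ∈ L1` (closed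
span; two `Λ` agree on the slices, for another `Λ'` the functional `⟪x, Λ' · z⟫` also has `lam = co W x z`, so the same
argument applies to it).
Density: by ABX `b ∈ Balg W` is in the closed span of the `co W x z`, hence of the `co W (f (-(I/4))) (g (I/4))`
(`total_traj`, `co_mem_of_total`), which are `lamt` of elements of `L1`; `lamt '' L1` is a subspace. -/
def LtdStmt : Prop := ∀ (ι : Type) (M : MU ι) (κ : Type) (WW : Op (κ × ι)), Universal M.W WW →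
  (∀ ω ∈ L1 M.W WW, lamt M.V WW ω ∈ Balg M.W) ∧
  ∀ b ∈ Balg M.W, b ∈ closure (lamt M.V WW '' (L1 M.W WW : Set (Du WW)))

/-- LTH: `λ~` and the slices.

Proof.  LTS (`Shp`): `⟪f 0, lamt μ (g 0)⟫ = ⟪f (I/4), lam μ (g (-(I/4)))⟫ = μ (asl U (f (I/4)) (g (-(I/4))))`.  The slices
are total in `Al U` (DNS), `asl` is continuous in both variables (`norm_sl_le`) and the `f (I/4)`, `g (-(I/4))` are total
(`total_traj`). -/
def LthStmt : Prop := ∀ (ι : Type) (M : MU ι) (κ : Type) (U : Op (κ × ι)), Adapted M.W U →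
  (∀ (μ : Du U) (f g : ℂ → L2 ι), Traj M.V f → Traj M.V g →
    ⟪f 0, lamt M.V U μ (g 0)⟫_ℂ = μ (asl U (f (I / 4)) (g (-(I / 4))))) ∧
  Total {a : Al U | ∃ f g : ℂ → L2 ι, Traj M.V f ∧ Traj M.V g ∧ a = asl U (f (I / 4)) (g (-(I / 4)))}

end Pool.Agent.MQG
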