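import Pool.Agent.MQG.StmtsB
import Pool.Agent.MQG.Legs3

set_option autoImplicit false

/-!
# Statements of block H: the Haagerup property can be formulated with `λ` or with its twisted version

`gk n z t = √((n+1)/π) exp(-(n+1)(t - z)²)` (`Gauss.lean`).  For a bounded operator `a` on `H` let
`G z a` be the operator with `⟪u, G z a y⟫ = ∫ gk 0 z t ⟪V(-t) u, a V(-t) y⟫ dt`, i.e.
`G z a = ∫ gk 0 z t τ_t(a) dt` with `τ_t(a) = V t a V(-t)`.
-/

namespace Pool.Agent.MQG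

open scoped InnerProductSpace InnerProduct Topology
open Complex Filter MeasureTheory

/-- `A = ∫ gk 0 z t • (V t a V(-t)) dt` (weakly) -/
def IsMean {ι : Type} (V : ℝ → Op ι) (z : ℂ) (a A : Op ι) : Prop :=
  ∀ u y : L2 ι, ⟪u, A y⟫_ℂ = ∫ t : ℝ, gk 0 z t • ⟪V (-t) u, a (V (-t) y)⟫_ℂ

/-- HGE: integrals of bounded continuous functions against the Gaussian kernel.

Proof.  (1) is `IsGroup.differentiable_gauss` (file `Gauss.lean`) with `φ t` in place of `V t ξ` (the proof uses only the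
continuity and the bound `‖φ t‖ ≤ C`).  (2) `gk_shift` and translation invariance (see `IsGroup.gauss_real`).
(3) By (1) with `φ = 1` the function is entire; for real `z` it is `∫ gk n 0 t = 1` (`integral_gk_zero`, `gk_shift`);
`entire_ext`. -/
def HgeStmt : Prop := ∀ (E : Type) [NormedAddCommGroup E] [NormedSpace ℂ E] [CompleteSpace E] (n : ℕ)
  (φ : ℝ → E) (C : ℝ), Continuous φ → (∀ t, ‖φ t‖ ≤ C) →
  (Differentiable ℂ fun z => ∫ t : ℝ, gk n z t • φ t) ∧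
  (∀ (s : ℝ) (z : ℂ), ∫ t : ℝ, gk n (z + s) t • φ t = ∫ t : ℝ, gk n z t • φ (t + s)) ∧
  ∀ z : ℂ, ∫ t : ℝ, gk n z t = 1

/-- HMX: the mean exists.

Proof.  The integrand is continuous in `t` and bounded by `|gk 0 z t| ‖u‖ ‖a‖ ‖y‖` (`IsGroup.norm_apply`), so integrable
(`integrable_gk`), and `(u, y) ↦ ∫ ...` is a bounded sesquilinear form; `InnerProductSpace.continuousLinearMapOfBilin` and the
adjoint, as in `lam` (`Defs.lean`). -/
def HmxStmt : Prop := ∀ (ι : Type) (V : ℝ → Op ι), IsGroup V → ∀ (z : ℂ) (a : Op ι),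
  ∃ A : Op ι, IsMean V z a A ∧ ‖A‖ ≤ (∫ t : ℝ, ‖gk 0 z t‖) * ‖a‖

/-- HCB: the scaling group on `Balg W`.

Proof.  `V t * co W x z * V (-t) = co W (V t x) (V t z)`: by `M.inv` and `tens_tn`,
`⟪u, V t (co W x z (V (-t) y))⟫ = ⟪x ⊗ V(-t) u, W (z ⊗ V(-t) y)⟫ = ⟪(V t ⊗ V t)(x ⊗ V(-t) u), (V t ⊗ V t) W (z ⊗ V(-t) y)⟫ =
⟪V t x ⊗ u, W (V t z ⊗ y)⟫` (`V t ⊗ V t` is unitary).  `co W x z` is norm continuous in `(x, z)` (sesquilinear and
bounded: `coL`, `continuous_co` of `Legs3.lean`), so (1) and (2) hold for finite sums of the `co W x z`; both properties pass to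
norm limits because `‖V t b V(-t)‖ ≤ ‖b‖` for all `t`; ABS. -/
def HcbStmt : Prop := ∀ (ι : Type) (M : MU ι), ∀ b ∈ Balg M.W,
  (∀ t, M.V t * b * M.V (-t) ∈ Balg M.W) ∧ Continuous fun t => M.V t * b * M.V (-t)

/-- HBM: the mean of an element of `Balg W` is in `Balg W`.

Proof.  By HCB `t ↦ gk 0 z t • (V t b V(-t))` is a norm continuous function with values in the closed subspace `Balg W`,
and integrable (norm `≤ |gk 0 z t| ‖b‖`).  Its Bochner integral `I` in `Op ι` is in `Balg W` (a closed convex set or a closed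
subspace: e.g. `Convex.integral_mem` does not apply to an infinite measure, so use Hahn-Banach or
`Submodule.ClosedComplemented`-free: a continuous functional which vanishes on `Balg W` vanishes at `I`; or
`integral` in the complete space `↥(Balg W)` and `ContinuousLinearMap.integral_comp_comm` for the inclusion), and
`⟪u, I y⟫ = ∫ gk 0 z t ⟪u, V t b V(-t) y⟫ dt` (`ContinuousLinearMap.integral_comp_comm`) `= ⟪u, A y⟫`, so `A = I`. -/
def HbmStmt : Prop := ∀ (ι : Type) (M : MU ι) (z : ℂ) (b A : Op ι), b ∈ Balg M.W →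
  IsMean M.V z b A → A ∈ Balg M.W

/-- HLM: means of an approximate identity are an approximate identity.

Proof.  Let `b ∈ Balg W`, `b_t = V(-t) b V t`, a norm continuous function of `t`, `‖b_t‖ ≤ ‖b‖`.
`⟪u, (A c) y⟫ = ∫ gk z t ⟪V(-t) u, S (V(-t) (c y))⟫` and `∫ gk z t dt = 1` (HGE) give
`⟪u, (A c b - b) y⟫ = ∫ gk z t ⟪V(-t) u, (S c b_t - b_t) V(-t) y⟫ dt` (write `A b`, `S = S c`: `V(-t) b = b_t V(-t)`), so
`‖A b - b‖ ≤ ∫ |gk z t| ‖S b_t - b_t‖ dt`.  Given `ε`, choose `R` with `2 ‖b‖ ∫_{|t| > R} |gk z t| dt ≤ ε` (the kernel is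
integrable).  The set `{b_t | |t| ≤ R}` is norm compact and `‖S‖ ≤ 1`, so eventually along `l` one has
`‖S b_t - b_t‖ ≤ ε` for all `|t| ≤ R` (finite `ε/3`-net), and `‖A b - b‖ ≤ ε (1 + ∫ |gk z t| dt)`.  The other side in the same
way: `‖b A - b‖ ≤ ∫ |gk z t| ‖b_t S - b_t‖ dt`. -/
def HlmStmt : Prop := ∀ (ι : Type) (M : MU ι) (X : Type) (l : Filter X) (S A : X → Op ι) (z : ℂ),
  (∀ᶠ x in l, ‖S x‖ ≤ 1 ∧ IsMean M.V z (S x) (A x)) →
  (∀ b ∈ Balg M.W, Tendsto (fun x => S x * b) l (𝓝 b) ∧ Tendsto (fun x => b * S x) l (𝓝 b)) →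
  ∀ b ∈ Balg M.W, Tendsto (fun x => A x * b) l (𝓝 b) ∧ Tendsto (fun x => b * A x) l (𝓝 b)

/-- HTH: the scaling group of `C_0^u(G)`.

Proof.  `U' := leg (Equiv.prodComm κ ι) (V t) * WW * leg (Equiv.prodComm κ ι) (V (-t))` (i.e. `(1 ⊗ V t) WW (1 ⊗ V(-t))`) is
unitary and adapted: with `D = (V t)_2 (V t)_3` on `κ × ι × ι` one has `l12 U' * l13 U' = D (l12 WW) (l13 WW) D*`
(operators on different legs commute), and `D` commutes with `l23 W` (`M.inv`), so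
`l12 U' * l13 U' * l23 W = D (l12 WW) (l13 WW) (l23 W) D* = D (l23 W) (l12 WW) D* = (l23 W) (V t)_2 (l12 WW) (V t)_2* =
l23 W * l12 U'`.  (Check identities of operators on elementary tensors or through matrix elements.)
`sl U' u y = sl WW (V(-t) u) (V(-t) y)`.  `Universal.lift` gives `π : Al WW → Op κ`; its values are in `Aalg WW`
(`Aalg WW` is the closure of the star algebra generated by the slices and `π` maps these to slices; or ASP), so it gives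
`θ : Al WW → Al WW`. -/
def HthStmt : Prop := ∀ (ι : Type) (M : MU ι) (κ : Type) (WW : Op (κ × ι)), Universal M.W WW →
  ∀ t : ℝ, ∃ θ : Al WW →⋆ₙₐ[ℂ] Al WW, ∀ u y, θ (asl WW u y) = asl WW (M.V (-t) u) (M.V (-t) y)

/-- HSM: Gaussian means of states.

Proof.  Let `θ t` be the *-homomorphism of HTH.  For `a = asl u y` the function `t ↦ θ t a = asl (V(-t) u) (V(-t) y)` is
norm continuous (`M.V_group.cont`, `norm_sl_le`), and `‖θ t‖ ≤ 1`, so `t ↦ θ t a` is continuous for all `a` (DNS).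
`ρ a := ∫ gk 0 0 t • μ (θ t a) dt` is linear, `|ρ a| ≤ ∫ |gk 0 0 t| ‖a‖ = ‖a‖` (`integral_norm_gk_zero`), `ρ (star a * a)` is
the integral of a nonnegative function (`gk 0 0 t ≥ 0`), and
`⟪u, lam WW ρ y⟫ = ρ (asl u y) = ∫ gk 0 0 t • μ(asl (V(-t) u) (V(-t) y)) dt = ∫ gk 0 0 t • ⟪V(-t) u, lam WW μ (V(-t) y)⟫ dt`. -/
def HsmStmt : Prop := ∀ (ι : Type) (M : MU ι) (κ : Type) (WW : Op (κ × ι)), Universal M.W WW →
  ∀ μ : Du WW, IsState μ → ∃ ρ : Du WW, ‖ρ‖ ≤ 1 ∧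
    (∀ a : Al WW, ∃ r : ℝ, 0 ≤ r ∧ ρ (star a * a) = (r : ℂ)) ∧
    IsMean M.V 0 (lam WW μ) (lam WW ρ)

/-- HFT: the means and the analytic extension.

Hypothesis: `a'` is `τ_{i/4}(a)` in the sense of forms, and the same for `A`, `A'`.
Proof.  Let `F z` be the mean `IsMean V z a (F z)` and `F' z` the mean of `a'` (HMX); `F 0 = A` (the mean is unique).  For fixed
`u, y` the functions `z ↦ ⟪u, F z y⟫`, `z ↦ ⟪u, F' z y⟫` are entire (HGE (1), `φ t = ⟪V(-t) u, a (V(-t) y)⟫`), and for real `s`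
`⟪u, F (z + s) y⟫ = ⟪V(-s) u, F z (V(-s) y)⟫` (HGE (2), `V (-(t + s)) = V(-t) V(-s)`), the same for `F'` (shift rule).
Step 1: `F' 0 = A'`.  For trajectories `f, g`: `⟪f 0, A' (g 0)⟫ = ⟪f (I/4), A (g (-(I/4)))⟫ =
∫ gk 0 0 t ⟪f (I/4 - t), a (g (-(I/4) - t))⟫ dt = ∫ gk 0 0 t ⟪V(-t) (f 0), a' (V(-t) (g 0))⟫ dt`, by the hypothesis for `a, a'` and
the trajectories `z ↦ f (z - t)`, `z ↦ g (z - t)` (`Traj.shift`, `Traj.shift_real`).  Entire vectors are dense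
(`IsGroup.dense_entire`).
Step 2: `F (I/4) = A'`.  The functions `z ↦ ⟪f 0, F z (g 0)⟫` and `z ↦ ⟪f (-conj z), F 0 (g (-z))⟫` (`inner_differentiable`) are
entire and agree for real `z` by the shift rule, so (`entire_ext`) they agree at `z = I/4`, where `-conj z = I/4`:
`⟪f 0, F (I/4) (g 0)⟫ = ⟪f (I/4), A (g (-(I/4)))⟫ = ⟪f 0, A' (g 0)⟫`.  This is the first claim.
Step 3: `z ↦ ⟪u, F' z y⟫` and `z ↦ ⟪u, F (z + I/4) y⟫` are entire and agree for real `z = s`, because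
`F' 0 = A' = F (I/4)` and both satisfy the shift rule; so they agree at `z = -(I/4)`: `F' (-(I/4)) = F 0 = A`. -/
def HftStmt : Prop := ∀ (ι : Type) (V : ℝ → Op ι), IsGroup V → ∀ a a' A A' : Op ι,
  (∀ f g, Traj V f → Traj V g → ⟪f 0, a' (g 0)⟫_ℂ = ⟪f (I / 4), a (g (-(I / 4)))⟫_ℂ) →
  (∀ f g, Traj V f → Traj V g → ⟪f 0, A' (g 0)⟫_ℂ = ⟪f (I / 4), A (g (-(I / 4)))⟫_ℂ) →
  IsMean V 0 a A → IsMean V (I / 4) a A' ∧ IsMean V (-(I / 4)) a' A

/-- HAG: the transfer of the Haagerup property.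

Proof.  Let `l` be the filter of `Haagerup M.W WW S`.  For a state `μ` let `ρ μ` be the functional of the hypothesis and
`c μ = ‖ρ μ‖ ≤ 1`.  By HLM (`X = Du WW`, `A μ = T (ρ μ)`, `‖S μ‖ ≤ ‖μ‖ = 1`) `T (ρ μ) b → b` and `b T (ρ μ) → b` for
`b ∈ Balg W`, and `T (ρ μ) ∈ Balg W` by HBM (for the states `μ` with `S μ ∈ Balg W`).  `Balg W` contains some `b ≠ 0` (if
not then `W = 0`, `1 = star W * W = 0` on `L2 (ι × ι) ≠ 0`), and `c μ ‖b‖ ≥ ‖T (ρ μ) b‖ → ‖b‖`, so `c μ → 1`.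
Eventually `c μ > 0`, and `ν μ := (c μ)⁻¹ • ρ μ` is a state; `T (ν μ) = (c μ)⁻¹ • T (ρ μ)`.  The filter `map ν l` proves
`Haagerup M.W WW T`.  (`Balg W ≠ 0`: `dense_Balg` in `AsmQ.lean`.) -/
def HagStmt : Prop := ∀ (ι : Type) [Nonempty ι] (M : MU ι) (κ : Type) (WW : Op (κ × ι))
  (S T : Du WW → Op ι) (z : ℂ), (∀ μ, ‖S μ‖ ≤ ‖μ‖) → (∀ μ, ‖T μ‖ ≤ ‖μ‖) →
  (∀ (c : ℂ) μ, T (c • μ) = c • T μ) →
  (∀ μ : Du WW, IsState μ → ∃ ρ : Du WW, ‖ρ‖ ≤ 1 ∧
    (∀ a : Al WW, ∃ r : ℝ, 0 ≤ r ∧ ρ (star a * a) = (r : ℂ)) ∧ IsMean M.V z (S μ) (T ρ)) →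
  Haagerup M.W WW S → Haagerup M.W WW T

/-- HEQ: the Haagerup property can be formulated with `λ` or with `λ~ = τ_{i/4} ∘ λ`.

Proof.  HAG twice: `S = lam WW`, `T = lamt`, `z = I/4`, and `S = lamt`, `T = lam WW`, `z = -(I/4)`; for a state `μ` take the
functional `ρ` of HSM and HFT with `a = lam μ`, `a' = lamt μ`, `A = lam ρ`, `A' = lamt ρ`.  `lam` is linear (`inner_lam`), and
`lamt (c • μ) = c • lamt μ` because both have the same form on entire vectors, which are dense. -/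
def HeqStmt : Prop := ∀ (ι : Type) [Nonempty ι] (M : MU ι) (κ : Type) (WW : Op (κ × ι)),
  Universal M.W WW → ∀ lamt : Du WW → Op ι, (∀ μ, ‖lamt μ‖ ≤ ‖μ‖) →
  (∀ μ f g, Traj M.V f → Traj M.V g →
    ⟪f 0, lamt μ (g 0)⟫_ℂ = ⟪f (I / 4), lam WW μ (g (-(I / 4)))⟫_ℂ) →
  (Haagerup M.W WW (lam WW) ↔ Haagerup M.W WW lamt)

end Pool.Agent.MQG
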