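import Pool.Agent.MQG.Legs3

set_option autoImplicit false

/-!
# Statements of block U: existence of a universal representation

Direct sums: for `e : Y ≃ Σ p, X p` the operator `S` on `L2 Y` is the direct sum of the operators
`T p` on `L2 (X p)` if `prt e p (S ζ) = T p (prt e p ζ)` for all `ζ`, where `prt e p ζ` is the
restriction of `ζ` to the part `X p`.
-/

namespace Pool.Agent.MQG

open scoped InnerProductSpace InnerProduct Topology
open Complex Filter

/-! ## Definitions -/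

/-- The restriction of a vector to the part `X p`. -/
noncomputable def prt {P Y : Type} {X : P → Type} (e : Y ≃ Σ p, X p) (p : P) :
    L2 Y →L[ℂ] L2 (X p) :=
  LinearMap.mkContinuous
    { toFun := fun ζ => ⟨fun x => ζ (e.symm ⟨p, x⟩), memℓ2 ((summable_sq ζ).comp_injective
        (i := fun x : X p => e.symm ⟨p, x⟩) fun x y h => by simpa using h)⟩
      map_add' := fun ζ η => by ext x; rfl
      map_smul' := fun c ζ => by ext x; rfl }
    1 (fun ζ => by
      refine abs_le_of_sq_le_sq' ?_ (by positivity) |>.2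
      rw [one_mul, norm_sq_eq, norm_sq_eq]
      exact tsum_comp_le_tsum_of_inj (summable_sq ζ) (fun _ => by positivity)
        (i := fun x : X p => e.symm ⟨p, x⟩) fun x y h => by simpa using h)

@[simp] theorem prt_apply {P Y : Type} {X : P → Type} (e : Y ≃ Σ p, X p) (p : P) (ζ : L2 Y)
    (x : X p) : prt e p ζ x = ζ (e.symm ⟨p, x⟩) := rfl

/-- `S` is the direct sum of the operators `T p`. -/
def IsDS {P Y : Type} {X : P → Type} (e : Y ≃ Σ p, X p) (S : Op Y) (T : ∀ p, Op (X p)) : Prop :=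
  ∀ p ζ, prt e p (S ζ) = T p (prt e p ζ)

/-- `(Σ p, κ p) × β ≃ Σ p, κ p × β` -/
def es {P β : Type} (κ : P → Type) : (Σ p, κ p) × β ≃ Σ p, κ p × β := Equiv.sigmaProdDistrib κ β

/-! ## Rows -/

/-- DSX: direct sums exist.

Proof.  Define `(S ζ) y = T p (prt e p ζ) x` where `e y = ⟨p, x⟩`.  With `f p = T p (prt e p ζ)`:
`∑_y |(S ζ) y|² = ∑_p ∑_x |f p x|² = ∑_p ‖f p‖² ≤ C² ∑_p ‖prt e p ζ‖² = C² ‖ζ‖²` (all terms are nonnegative;
`summable_sigma_of_nonneg`, `Summable.tsum_sigma`, as in `hasSum_fib`, `hasSum_glue` of `Model.lean`). -/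
def DsxStmt : Prop := ∀ (P Y : Type) (X : P → Type) (e : Y ≃ Σ p, X p) (T : ∀ p, Op (X p)) (C : ℝ),
  0 ≤ C → (∀ p, ‖T p‖ ≤ C) → ∃ S : Op Y, ‖S‖ ≤ C ∧ IsDS e S T

/-- DSA: algebra of direct sums.

Proof.  A vector `ζ` of `L2 Y` is determined by the `prt e p ζ` (`prt_apply`), which gives the last statement; the
others follow from the definition (`prt e p (S (S' ζ)) = T p (prt e p (S' ζ)) = T p (T' p (prt e p ζ))`, linearity of
`prt e p`). -/
def DsaStmt : Prop := ∀ (P Y : Type) (X : P → Type) (e : Y ≃ Σ p, X p) (S S' : Op Y)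
  (T T' : ∀ p, Op (X p)), IsDS e S T → IsDS e S' T' →
  IsDS e (S * S') (fun p => T p * T' p) ∧ IsDS e (S + S') (fun p => T p + T' p) ∧
  (∀ c : ℂ, IsDS e (c • S) fun p => c • T p) ∧ IsDS e (1 : Op Y) (fun _ => 1) ∧
  IsDS e (0 : Op Y) (fun _ => 0) ∧ ((∀ p, T p = T' p) → S = S')

/-- DSN: adjoints and norms of direct sums.

Proof.  `prt e p` is the adjoint of the isometry `inc p := (prt e p)†`, `(inc p x) y = x x'` if `e y = ⟨p, x'⟩` and `0` if
`y` is not in the part `p`; `prt e p ∘ inc p = 1`, `prt e q ∘ inc p = 0` for `q ≠ p`.  So for `x : L2 (X p)` one has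
`S (inc p x) = inc p (T p x)` (compare the restrictions to all parts `q`: `prt e q (S (inc p x)) = T q (prt e q (inc p x))`),
and `‖T p x‖ = ‖inc p (T p x)‖ = ‖S (inc p x)‖ ≤ ‖S‖ ‖x‖`.  Adjoint: for all `x : L2 (X p)`:
`⟪x, prt e p (S† ζ)⟫ = ⟪S (inc p x), ζ⟫ = ⟪inc p (T p x), ζ⟫ = ⟪T p x, prt e p ζ⟫ = ⟪x, (T p)† (prt e p ζ)⟫`.
Norm: `‖S ζ‖² = ∑_p ‖T p (prt e p ζ)‖² ≤ C² ∑_p ‖prt e p ζ‖² = C² ‖ζ‖²`, or: by DSX there is a direct sum with norm `≤ C`,
and by DSA it is `S`. -/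
def DsnStmt : Prop := ∀ (P Y : Type) (X : P → Type) (e : Y ≃ Σ p, X p) (S : Op Y)
  (T : ∀ p, Op (X p)), IsDS e S T →
  IsDS e (star S) (fun p => star (T p)) ∧ (∀ p, ‖T p‖ ≤ ‖S‖) ∧
  ∀ C : ℝ, 0 ≤ C → (∀ p, ‖T p‖ ≤ C) → ‖S‖ ≤ C

/-- DSL: legs of direct sums.

Proof.  It suffices to compare the continuous linear maps `prt (es κ) p ∘ (l12 U)` and `(l12 (U p)) ∘ prt (es κ) p` on
elementary tensors (`ext_tn3`).  One has `prt (es κ) p (tn x ζ) = tn (prt (Equiv.refl _) p x) ζ` and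
`prt (es κ) p (tl e12 ζ h) = tl e12 (prt (es κ) p ζ) h`, `prt (es κ) p (tl e13 ζ h) = tl e13 (prt (es κ) p ζ) h`
(compare coordinates).  So `prt (l12 U (x ⊗ y ⊗ z)) = prt (tl e12 (U (x ⊗ y)) z) = tl e12 (prt (U (x ⊗ y))) z =
tl e12 (U p (prt x ⊗ y)) z = l12 (U p) (prt x ⊗ y ⊗ z)` by `l12_tn`; the same for `l13`; `l23_tn'` for `l23 W`. -/
def DslStmt : Prop := ∀ (P ι : Type) (κ : P → Type) (U : Op ((Σ p, κ p) × ι))
  (T : ∀ p, Op (κ p × ι)), IsDS (es κ) U T →
  IsDS (es κ) (l12 U : Op ((Σ p, κ p) × ι × ι)) (fun p => l12 (T p)) ∧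
  IsDS (es κ) (l13 U : Op ((Σ p, κ p) × ι × ι)) (fun p => l13 (T p)) ∧
  ∀ W : Op (ι × ι), IsDS (es κ) (l23 W : Op ((Σ p, κ p) × ι × ι)) (fun _ => l23 W)

/-- DSS: slices of direct sums.

Proof.  `prt (es κ) p (tn x y) = tn (prt (Equiv.refl _) p x) y` (coordinates), so `prt (es κ) p ∘ emb y =
emb y ∘ prt (Equiv.refl _) p`; and `prt (Equiv.refl _) p ((emb u)† ζ) = (emb u)† (prt (es κ) p ζ)`: both sides are
continuous in `ζ`, and for `ζ = tn x h` both are `⟪u, h⟫ • prt (Equiv.refl _) p x` (`adj_emb_tl`; `ext_tn`).  So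
`prt (sl U u y ζ) = (emb u)† (prt (U (ζ ⊗ y))) = (emb u)† (T p (prt ζ ⊗ y)) = sl (T p) u y (prt ζ)`. -/
def DssStmt : Prop := ∀ (P ι : Type) (κ : P → Type) (U : Op ((Σ p, κ p) × ι))
  (T : ∀ p, Op (κ p × ι)), IsDS (es κ) U T → ∀ u y : L2 ι,
  IsDS (Equiv.refl (Σ p, κ p)) (sl U u y) (fun p => sl (T p) u y)

/-- DAD: direct sums of adapted unitaries are adapted.

Proof.  DSN, DSA: `star U * U` and `U * star U` are direct sums of the `star (T p) * T p = 1`, so equal to `1` (uniqueness).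
DSL, DSA: `l12 U * l13 U * l23 W` and `l23 W * l12 U` are direct sums of the same operators
`l12 (T p) * l13 (T p) * l23 W = l23 W * l12 (T p)`, so they are equal. -/
def DadStmt : Prop := ∀ (P ι : Type) (W : Op (ι × ι)) (κ : P → Type) (U : Op ((Σ p, κ p) × ι))
  (T : ∀ p, Op (κ p × ι)), IsDS (es κ) U T → (∀ p, Adapted W (T p)) → Adapted W U

/-- LFT: the representation given by an inequality of norms.

Proof.  Let `κ₂ : Bool → Type`, `κ₂ true = κ`, `κ₂ false = κ'`, and let `S` be the direct sum of `WW` and `V` (DSX, the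
norms are `≤ 1`), adapted by DAD.  Every `a ∈ Aalg S` is a direct sum of operators `φ₁ a ∈ Op κ` and `φ₂ a ∈ Op κ'`
(put `φ₁ a = prt true ∘ a ∘ (prt true)†`, etc.; the set of the `a` for which `a` and `star a` are direct sums of such operators
is a closed *-subalgebra, and it contains the slices by DSS, which says `φ₁ (sl S u y) = sl WW u y`,
`φ₂ (sl S u y) = sl V u y`).  By DSA, DSN `φ₁ : Al S → Op κ` and `φ₂ : Al S → Op κ'` are *-homomorphisms and
`‖a‖ = max ‖φ₁ a‖ ‖φ₂ a‖`.  For a finite linear combination `a` of slices the hypothesis says `‖φ₂ a‖ ≤ ‖φ₁ a‖`, so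
`‖a‖ = ‖φ₁ a‖`; by ASP (for `S`) and continuity `‖a‖ = ‖φ₁ a‖` for all `a ∈ Al S`.  So the range of `φ₁` is closed, it is a
*-subalgebra and contains the slices of `WW`: for `a ∈ Al WW` there is exactly one `a' ∈ Al S` with `φ₁ a' = val a`
(`Aalg WW` is the smallest closed *-subalgebra which contains the slices, or ASP for `WW`), and `π a := φ₂ a'` is a
*-homomorphism (uniqueness of `a'`) with `π (asl WW u y) = φ₂ (asl S u y) = sl V u y`. -/
def LftStmt : Prop := ∀ (ι : Type) (M : MU ι) (κ κ' : Type) (WW : Op (κ × ι)) (V : Op (κ' × ι)),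
  Adapted M.W WW → Adapted M.W V →
  (∀ (n : ℕ) (c : Fin n → ℂ) (u y : Fin n → L2 ι),
    ‖∑ j, c j • sl V (u j) (y j)‖ ≤ ‖∑ j, c j • sl WW (u j) (y j)‖) →
  ∃ π : Al WW →⋆ₙₐ[ℂ] Op κ', ∀ u y, π (asl WW u y) = sl V u y

/-- UNX: a universal representation exists.

Proof.  `F := Σ n, (Fin n → ℂ) × (Fin n → L2 ι) × (Fin n → L2 ι)`, for `f = ⟨n, c, u, y⟩` and an adapted `U` put
`N f U = ‖∑ c j • sl U (u j) (y j)‖ ≤ ∑ ‖c j‖ ‖u j‖ ‖y j‖` (`norm_sl_le`, `‖U‖ ≤ 1`).  Let `s f` be the supremum of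
the set of real numbers `{r | ∃ (κ' : Type) (U : Op (κ' × ι)), Adapted M.W U ∧ r = N f U}` (bounded, not empty:
`(1 : Op (Unit × ι))` is adapted).  For `f` and `m : ℕ` choose an adapted `U (f, m)` on some `κ (f, m) : Type` with
`N f (U (f, m)) > s f - 1 / (m + 1)`.  Let `WW` be the direct sum of all `U p`, `p = (f, m) : F × ℕ` (DSX, `‖U p‖ ≤ 1`);
it is adapted by DAD.  If `V` is adapted and `f ∈ F` then `N f V ≤ s f ≤ N f (U (f, m)) + 1 / (m + 1) ≤
N f WW + 1 / (m + 1)` for all `m`, where the last inequality is DSS, DSA (a finite linear combination of direct sums is a direct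
sum) and DSN; so `N f V ≤ N f WW`, and LFT gives the *-homomorphism. -/
def UnxStmt : Prop := ∀ (ι : Type) (M : MU ι), ∃ (κ : Type) (WW : Op (κ × ι)), Universal M.W WW

end Pool.Agent.MQG
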