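import Pool.Agent.MQG.AsmQ
import Pool.Agent.MQG.StmtsC
import Pool.Agent.MQG.StmtsU
import Pool.Agent.MQG.StmtsH

set_option autoImplicit false

/-!
# Assembly, Q2 and the final statement
-/

namespace Pool.Agent.MQG

open scoped InnerProductSpace InnerProduct Topology
open Complex Filter

variable {ι κ : Type}

section asm

variable [Countable ι] [Nonempty ι] (M : MU ι) (WW : Op (κ × ι))

open Bridge

/-- the data of `T = λ~` -/
noncomputable def tdatT (h : Universal M.W WW) (dns : DnsStmt) (rlx : RlxStmt) (eps : EpsStmt)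
    (smu : SmuStmt) (lle : LleStmt) (lte : LteStmt) (spl : SplStmt) (lss : LssStmt)
    (lts : LtsStmt) (ltd : LtdStmt) (lth : LthStmt) :
    TDat (preD M WW h dns rlx eps) (qhypD M WW h dns rlx eps smu lle lte spl lss)
      (Balg M.W) where
  T := lamt M.V WW
  T_add := (lts ι M κ WW h.adapted).2.2.2.1
  T_smul := (lts ι M κ WW h.adapted).2.2.2.2.1
  T_mul μ ν := (lts ι M κ WW h.adapted).2.2.2.2.2.1 μ ν _
    (Pre.lam_cmul (P := preD M WW h dns rlx eps) μ ν)
  T_eps := (lts ι M κ WW h.adapted).2.2.2.2.2.2 _ (Pre.lam_eps (P := preD M WW h dns rlx eps))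
  norm_le := (lts ι M κ WW h.adapted).2.2.1
  closed := isClosed_Balg M.W
  L1_sub := (ltd ι M κ WW h).1
  L1_dense := (ltd ι M κ WW h).2
  nd := dense_Balg M.W_unitary
  H₀ := {ξ | ∃ f, Traj M.V f ∧ f 0 = ξ}
  H₀_dense := M.V_group.dense_entire
  slice_ex := by
    rintro _ ⟨f, hf, rfl⟩ _ ⟨g, hg, rfl⟩
    exact ⟨_, fun μ => (lth ι M κ WW h.adapted).1 μ f g hf hg⟩
  slice_dense := by
    refine Dense.mono (Submodule.span_mono ?_) (lth ι M κ WW h.adapted).2
    rintro _ ⟨f, g, hf, hg, rfl⟩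
    exact ⟨_, ⟨f, hf, rfl⟩, _, ⟨g, hg, rfl⟩, fun μ => (lth ι M κ WW h.adapted).1 μ f g hf hg⟩

/-- Q2 -/
theorem q2 (h : Universal M.W WW) (dns : DnsStmt) (rlx : RlxStmt) (eps : EpsStmt)
    (smu : SmuStmt) (lle : LleStmt) (lte : LteStmt) (spl : SplStmt) (lss : LssStmt)
    (spa : SpaStmt) (lts : LtsStmt) (ltd : LtdStmt) (lth : LthStmt) :
    (Amenable M.W WW ∧ Haagerup M.W WW (lamt M.V WW)) ↔ CondS M.W WW (lamt M.V WW) := by
  have : TopologicalSpace.SeparableSpace (Al WW) := spa ι M κ WW h.adapted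
  rw [amen_iff M WW h dns rlx eps smu lle lte spl lss, haag_iff M WW,
    condS_iff M WW h dns rlx eps smu lle lte spl lss]
  exact (tdatT M WW h dns rlx eps smu lle lte spl lss lts ltd lth).main

end asm

/-- The final statement, with one Haagerup property. -/
def FinalStmt2 : Prop := ∀ (ι : Type) [Countable ι] [Nonempty ι] (M : MU ι),
  (∃ (κ : Type) (WW : Op (κ × ι)), Universal M.W WW) ∧
  ∀ (κ : Type) (WW : Op (κ × ι)), Universal M.W WW →
    (Function.Injective (lam WW) ∧ lam WW (counit WW) = 1 ∧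
      ∀ μ ν, lam WW (conv WW μ ν) = lam WW μ * lam WW ν) ∧
    ((Amenable M.W WW ∧ Haagerup M.W WW (lam WW)) ↔ CondS M.W WW (lam WW)) ∧
    ∃ lamt : Du WW → Op ι, (∀ μ b, IsTau M.V (1 / 4) (lam WW μ) b ↔ b = lamt μ) ∧
      (Haagerup M.W WW (lam WW) ↔ Haagerup M.W WW lamt) ∧
      ((Amenable M.W WW ∧ Haagerup M.W WW (lam WW)) ↔ CondS M.W WW lamt)

theorem final2 (unx : UnxStmt) (dns : DnsStmt) (rlx : RlxStmt) (eps : EpsStmt)
    (smu : SmuStmt) (lle : LleStmt) (lte : LteStmt) (spl : SplStmt) (lss : LssStmt)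
    (spa : SpaStmt) (lno : LnoStmt) (lmb : LmbStmt) (lts : LtsStmt) (ltd : LtdStmt)
    (lth : LthStmt) (heq : HeqStmt) : FinalStmt2 := by
  intro ι _ _ M
  refine ⟨unx ι M, fun κ WW h => ⟨⟨?_, ?_, fun μ ν => ?_⟩, ?_, ?_⟩⟩
  · exact Bridge.Pre.lam_injective (P := preD M WW h dns rlx eps)
  · rw [counit_eq M WW h dns rlx eps]
    exact Bridge.Pre.lam_eps (P := preD M WW h dns rlx eps)
  · rw [conv_eq M WW h dns rlx eps]
    exact Bridge.Pre.lam_cmul (P := preD M WW h dns rlx eps) μ ν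
  · exact q1 M WW h dns rlx eps smu lle lte spl lss spa lno lmb
  · have h1 := lts ι M κ WW h.adapted
    have h2 : ∀ (μ : Du WW) (f g : ℂ → L2 ι), Traj M.V f → Traj M.V g →
        ⟪f 0, lamt M.V WW μ (g 0)⟫_ℂ = ⟪f (I / 4), lam WW μ (g (-(I / 4)))⟫_ℂ := by
      intro μ f g hf hg
      have h3 := ((h1.2.1 μ _).2 rfl) f g hf hg
      have h4 : I * ((1 / 4 : ℝ) : ℂ) = I / 4 := by
        push_cast
        ring
      rwa [h4] at h3
    have h5 := heq ι M κ WW h (lamt M.V WW) h1.2.2.1 h2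
    refine ⟨lamt M.V WW, h1.1, h5, ?_⟩
    rw [h5]
    exact q2 M WW h dns rlx eps smu lle lte spl lss spa lts ltd lth

end Pool.Agent.MQG
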