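import Pool.Agent.MQG.QG.Main

/-!
# From operators on Hilbert spaces to the abstract theorem

`Pre`: a C*-algebra `A` with slices `s u y`, the representation `lam` of its dual by operators and
the slice maps of the comultiplication; the dual of `A` becomes a Banach algebra `Cv P`.
`QHyp`: the hypotheses on states and `L^1`.  `TDat`: a representation `T` of the dual of `A` by
multipliers of a C*-algebra `B` of operators.  The abstract theorem gives
`(amenable and Haagerup) ↔ (S_T)`.
-/

set_option autoImplicit false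

open Filter Topology

open scoped InnerProductSpace

noncomputable section

namespace Pool.Agent.MQG.Bridge

/-- `μ` is a state of the C*-algebra `A`: a positive functional of norm one. -/
def IsSt {A : Type} [NonUnitalCStarAlgebra A] (μ : A →L[ℂ] ℂ) : Prop :=
  ‖μ‖ = 1 ∧ ∀ a : A, ∃ r : ℝ, 0 ≤ r ∧ μ (star a * a) = (r : ℂ)

/-- slices, the representation `lam` of the dual and the slice maps of the comultiplication -/
structure Pre (H A : Type) [NormedAddCommGroup H] [InnerProductSpace ℂ H] [CompleteSpace H]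
    [NonUnitalCStarAlgebra A] where
  s : H → H → A
  dense : Dense (Submodule.span ℂ {a : A | ∃ u y, a = s u y} : Set A)
  lam : (A →L[ℂ] ℂ) → (H →L[ℂ] H)
  lam_spec : ∀ μ u y, ⟪u, lam μ y⟫_ℂ = μ (s u y)
  R : (A →L[ℂ] ℂ) → (A →L[ℂ] A)
  R_norm : ∀ ν, ‖R ν‖ ≤ ‖ν‖
  R_s : ∀ ν u y, R ν (s u y) = s u (lam ν y)
  L : (A →L[ℂ] ℂ) → (A →L[ℂ] A)
  L_s : ∀ ν u y, L ν (s u y) = s (ContinuousLinearMap.adjoint (lam ν) u) y
  eps : A →L[ℂ] ℂ
  eps_s : ∀ u y, eps (s u y) = ⟪u, y⟫_ℂ

variable {H A : Type} [NormedAddCommGroup H] [InnerProductSpace ℂ H] [CompleteSpace H]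
    [NonUnitalCStarAlgebra A]

namespace Pre

variable (P : Pre H A)

/-- the convolution product -/
def cmul (μ ν : A →L[ℂ] ℂ) : A →L[ℂ] ℂ := μ.comp (P.R ν)

theorem cmul_apply (μ ν : A →L[ℂ] ℂ) (a : A) : P.cmul μ ν a = μ (P.R ν a) := rfl

variable {P}

/-- functionals which agree on the slices are equal -/
theorem ext_s {μ ν : A →L[ℂ] ℂ} (h : ∀ u y, μ (P.s u y) = ν (P.s u y)) : μ = ν := by
  refine ContinuousLinearMap.ext_on P.dense ?_
  rintro a ⟨u, y, rfl⟩
  exact h u y

theorem lam_injective : Function.Injective P.lam := by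
  intro μ ν h
  refine ext_s (P := P) fun u y => ?_
  rw [← P.lam_spec, ← P.lam_spec, h]

theorem lam_cmul (μ ν : A →L[ℂ] ℂ) : P.lam (P.cmul μ ν) = P.lam μ * P.lam ν := by
  ext y
  refine ext_inner_left ℂ fun u => ?_
  rw [P.lam_spec, cmul_apply, P.R_s, ← P.lam_spec]
  rfl

theorem lam_add (μ ν : A →L[ℂ] ℂ) : P.lam (μ + ν) = P.lam μ + P.lam ν := by
  ext y
  refine ext_inner_left ℂ fun u => ?_
  rw [P.lam_spec, add_apply, add_apply, inner_add_right,
    P.lam_spec, P.lam_spec]

theorem lam_smul (c : ℂ) (μ : A →L[ℂ] ℂ) : P.lam (c • μ) = c • P.lam μ := by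
  ext y
  refine ext_inner_left ℂ fun u => ?_
  rw [P.lam_spec, smul_apply, smul_apply, inner_smul_right,
    P.lam_spec]
  rfl

theorem lam_zero : P.lam 0 = 0 := by
  have h := lam_add (P := P) 0 0
  rw [add_zero] at h
  exact left_eq_add.1 h

theorem lam_eps : P.lam P.eps = 1 := by
  ext y
  refine ext_inner_left ℂ fun u => ?_
  rw [P.lam_spec, P.eps_s]
  rfl

theorem cmul_norm_le (μ ν : A →L[ℂ] ℂ) : ‖P.cmul μ ν‖ ≤ ‖μ‖ * ‖ν‖ :=
  (ContinuousLinearMap.opNorm_comp_le _ _).trans (mul_le_mul_of_nonneg_left (P.R_norm ν)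
    (norm_nonneg μ))

theorem cmul_L (μ ν : A →L[ℂ] ℂ) (a : A) : P.cmul μ ν a = ν (P.L μ a) := by
  have h : P.cmul μ ν = ν.comp (P.L μ) := by
    refine ext_s (P := P) fun u y => ?_
    rw [cmul_apply, P.R_s, ← P.lam_spec, ContinuousLinearMap.comp_apply, P.L_s, ← P.lam_spec,
      ContinuousLinearMap.adjoint_inner_left]
  rw [h]
  rfl

end Pre

/-- the dual of `A` with the convolution product -/
def Cv (_ : Pre H A) : Type := A →L[ℂ] ℂ

namespace Cv

variable {P : Pre H A}

/-- the element of `Cv P` given by a functional -/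
def mk (μ : A →L[ℂ] ℂ) : Cv P := μ

/-- the functional given by an element of `Cv P` -/
def out (μ : Cv P) : A →L[ℂ] ℂ := μ

instance : NormedAddCommGroup (Cv P) := inferInstanceAs (NormedAddCommGroup (A →L[ℂ] ℂ))

instance : NormedSpace ℂ (Cv P) := inferInstanceAs (NormedSpace ℂ (A →L[ℂ] ℂ))

instance : Mul (Cv P) := ⟨fun μ ν => mk (P.cmul (out μ) (out ν))⟩

instance : One (Cv P) := ⟨mk P.eps⟩

theorem inj {μ ν : Cv P} (h : P.lam (out μ) = P.lam (out ν)) : μ = ν := Pre.lam_injective h

theorem lam_mul (μ ν : Cv P) : P.lam (out (μ * ν)) = P.lam (out μ) * P.lam (out ν) :=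
  Pre.lam_cmul _ _

theorem lam_add (μ ν : Cv P) : P.lam (out (μ + ν)) = P.lam (out μ) + P.lam (out ν) :=
  Pre.lam_add _ _

theorem lam_smul (c : ℂ) (μ : Cv P) : P.lam (out (c • μ)) = c • P.lam (out μ) :=
  Pre.lam_smul _ _

theorem lam_one : P.lam (out (1 : Cv P)) = 1 := Pre.lam_eps

theorem lam_zero : P.lam (out (0 : Cv P)) = 0 := Pre.lam_zero

instance : NormedRing (Cv P) where
  __ := (inferInstance : NormedAddCommGroup (Cv P))
  mul := (· * ·)
  one := 1
  left_distrib a b c := inj (by simp only [lam_mul, lam_add, mul_add])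
  right_distrib a b c := inj (by simp only [lam_mul, lam_add, add_mul])
  zero_mul a := inj (by simp only [lam_mul, lam_zero, zero_mul])
  mul_zero a := inj (by simp only [lam_mul, lam_zero, mul_zero])
  mul_assoc a b c := inj (by simp only [lam_mul, mul_assoc])
  one_mul a := inj (by simp only [lam_mul, lam_one, one_mul])
  mul_one a := inj (by simp only [lam_mul, lam_one, mul_one])
  norm_mul_le a b := Pre.cmul_norm_le _ _

instance : Algebra ℂ (Cv P) :=
  Algebra.ofModule
    (fun c a b => inj (by simp only [lam_mul, lam_smul, smul_mul_assoc]))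
    (fun c a b => inj (by simp only [lam_mul, lam_smul, mul_smul_comm]))

instance : NormedAlgebra ℂ (Cv P) where
  norm_smul_le c a := norm_smul_le c a

end Cv

end Pool.Agent.MQG.Bridge
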