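import Pool.Agent.MQG.Bridge

/-!
# From operators on Hilbert spaces to the abstract theorem, part 2
-/

set_option autoImplicit false

open Filter Topology

open scoped InnerProductSpace

noncomputable section

namespace Pool.Agent.MQG.Bridge

variable {H A : Type} [NormedAddCommGroup H] [InnerProductSpace ℂ H] [CompleteSpace H]
    [NonUnitalCStarAlgebra A]

/-- the weak* neighbourhoods of the counit among the states -/
def nearU (P : Pre H A) : Filter (A →L[ℂ] ℂ) :=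
  comap (fun (μ : A →L[ℂ] ℂ) (a : A) => μ a) (𝓝 (fun a : A => P.eps a)) ⊓ 𝓟 {μ | IsSt μ}

/-- the hypotheses on states and `L^1` -/
structure QHyp (P : Pre H A) where
  eps_state : IsSt P.eps
  state_mul : ∀ μ ν, IsSt μ → IsSt ν → IsSt (P.cmul μ ν)
  L1 : Submodule ℂ (A →L[ℂ] ℂ)
  L1_sep : TopologicalSpace.IsSeparable (L1 : Set (A →L[ℂ] ℂ))
  L1_left : ∀ μ ω, IsSt μ → ω ∈ L1 → P.cmul μ ω ∈ L1
  L1_state : ∃ ω ∈ L1, IsSt ω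
  L1_tendsto : ∀ ω ∈ L1, Tendsto (fun μ => P.cmul μ ω) (nearU P) (𝓝 ω)

/-- the isometry of `Cv P` with the dual space -/
def pairI (P : Pre H A) : Cv P ≃ₗᵢ[ℂ] (A →L[ℂ] ℂ) := LinearIsometryEquiv.refl ℂ (A →L[ℂ] ℂ)

theorem pairI_apply (P : Pre H A) (μ : Cv P) : pairI P μ = Cv.out μ := rfl

/-- the convolution structure -/
def cdata (P : Pre H A) : QG.ConvData A (Cv P) where
  pair := pairI P
  sliceR ν := P.R (Cv.out ν)
  pair_mul_right _ _ _ := rfl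
  sliceL ν := P.L (Cv.out ν)
  pair_mul_left ν μ a := P.cmul_L (Cv.out ν) (Cv.out μ) a

theorem isState_iff (P : Pre H A) (μ : Cv P) : (cdata P).IsState μ ↔ IsSt (Cv.out μ) := Iff.rfl

theorem nearUnit_eq (P : Pre H A) : (cdata P).nearUnit = nearU P := rfl

/-- the abstract quantum group data -/
def qgroup (P : Pre H A) (Q : QHyp P) : QG.QGroup A (Cv P) where
  toConvData := cdata P
  counit_state := Q.eps_state
  state_mul μ ν := Q.state_mul μ ν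
  L1 := Q.L1
  L1_separable := Q.L1_sep
  L1_mul_left μ ω := Q.L1_left μ ω
  L1_state := Q.L1_state
  L1_tendsto ω hω f := (f.continuous.tendsto (ω : Cv P)).comp (Q.L1_tendsto ω hω)

/-- a representation of the dual of `A` by operators and a C*-algebra `B` of operators -/
structure TDat (P : Pre H A) (Q : QHyp P) (B : NonUnitalStarSubalgebra ℂ (H →L[ℂ] H)) where
  T : (A →L[ℂ] ℂ) → (H →L[ℂ] H)
  T_add : ∀ μ ν, T (μ + ν) = T μ + T ν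
  T_smul : ∀ (c : ℂ) μ, T (c • μ) = c • T μ
  T_mul : ∀ μ ν, T (P.cmul μ ν) = T μ * T ν
  T_eps : T P.eps = 1
  norm_le : ∀ μ, ‖T μ‖ ≤ ‖μ‖
  closed : IsClosed (B : Set (H →L[ℂ] H))
  L1_sub : ∀ ω ∈ Q.L1, T ω ∈ B
  L1_dense : ∀ b ∈ B, b ∈ closure (T '' (Q.L1 : Set (A →L[ℂ] ℂ)))
  nd : Dense (Submodule.span ℂ {w : H | ∃ b ∈ B, ∃ v, w = b v} : Set H)
  H₀ : Set H
  H₀_dense : Dense H₀
  slice_ex : ∀ u ∈ H₀, ∀ v ∈ H₀, ∃ a : A, ∀ μ : A →L[ℂ] ℂ, ⟪u, T μ v⟫_ℂ = μ a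
  slice_dense : Dense (Submodule.span ℂ {a : A | ∃ u ∈ H₀, ∃ v ∈ H₀,
    ∀ μ : A →L[ℂ] ℂ, ⟪u, T μ v⟫_ℂ = μ a} : Set A)

section Amen

variable {P : Pre H A} (Q : QHyp P)

/-- amenability -/
def Amen : Prop :=
  ∃ l : Filter (A →L[ℂ] ℂ), l.NeBot ∧ (∀ᶠ μ in l, μ ∈ Q.L1 ∧ IsSt μ) ∧
    ∀ ω ∈ Q.L1, IsSt ω → Tendsto (fun μ => ‖P.cmul ω μ - μ‖) l (𝓝 0)

variable (P) in
/-- Haagerup property, formulated with `T` -/
def Haag (T : (A →L[ℂ] ℂ) → (H →L[ℂ] H)) (B : NonUnitalStarSubalgebra ℂ (H →L[ℂ] H)) : Prop :=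
  ∃ l : Filter (A →L[ℂ] ℂ), l.NeBot ∧ (∀ᶠ μ in l, IsSt μ ∧ T μ ∈ B) ∧
    (∀ b ∈ B, Tendsto (fun μ => T μ * b) l (𝓝 b)) ∧
    (∀ b ∈ B, Tendsto (fun μ => b * T μ) l (𝓝 b))

/-- condition `(S_T)` -/
def CondS (T : (A →L[ℂ] ℂ) → (H →L[ℂ] H)) (B : NonUnitalStarSubalgebra ℂ (H →L[ℂ] H)) : Prop :=
  ∃ μ : ℝ → (A →L[ℂ] ℂ), (∀ t, 0 ≤ t → IsSt (μ t)) ∧ μ 0 = P.eps ∧
    (∀ s t, 0 ≤ s → 0 ≤ t → μ (s + t) = P.cmul (μ s) (μ t)) ∧
    (∀ a : A, Tendsto (fun t => μ t a) (𝓝[>] 0) (𝓝 (P.eps a))) ∧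
    (∀ ω ∈ Q.L1, IsSt ω → Tendsto (fun t => ‖P.cmul ω (μ t) - μ t‖) atTop (𝓝 0)) ∧
    (∀ t, 0 < t → T (μ t) ∈ B)

end Amen

namespace TDat

variable {P : Pre H A} {Q : QHyp P} {B : NonUnitalStarSubalgebra ℂ (H →L[ℂ] H)} (D : TDat P Q B)

/-- `T` as an algebra homomorphism -/
def hom : Cv P →ₐ[ℂ] (H →L[ℂ] H) :=
  AlgHom.ofLinearMap
    { toFun := fun μ => D.T (Cv.out μ)
      map_add' := fun μ ν => D.T_add _ _
      map_smul' := fun c μ => D.T_smul c _ }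
    D.T_eps
    (fun μ ν => D.T_mul _ _)

theorem hom_apply (μ : Cv P) : D.hom μ = D.T (Cv.out μ) := rfl

end TDat

end Pool.Agent.MQG.Bridge
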