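import Pool.Agent.MQG.Bridge2

/-!
# From operators on Hilbert spaces to the abstract theorem, part 3
-/

set_option autoImplicit false

open Filter Topology

open scoped InnerProductSpace

noncomputable section

namespace Pool.Agent.MQG.Bridge

variable {H A : Type} [NormedAddCommGroup H] [InnerProductSpace ℂ H] [CompleteSpace H]
    [NonUnitalCStarAlgebra A]

/-- for a contraction `S`, `‖(S* - 1) c‖² ≤ 2 ‖c‖ ‖S c - c‖` -/
theorem norm_adj_sub_sq_le (S c : H →L[ℂ] H) (hS : ‖S‖ ≤ 1) :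
    ‖star S * c - c‖ ^ 2 ≤ 2 * ‖c‖ * ‖S * c - c‖ := by
  have h0 : 0 ≤ 2 * ‖c‖ * ‖S * c - c‖ := by positivity
  have h1 : ‖star S * c - c‖ ≤ Real.sqrt (2 * ‖c‖ * ‖S * c - c‖) := by
    refine ContinuousLinearMap.opNorm_le_bound _ (Real.sqrt_nonneg _) fun v => ?_
    refine abs_le_of_sq_le_sq' ?_ (by positivity) |>.2
    rw [mul_pow, Real.sq_sqrt h0]
    set w : H := c v with hw
    have e1 : (star S * c - c) v = star S w - w := rfl
    have e2 : (S * c - c) v = S w - w := rfl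
    have h2 : ‖star S w‖ ≤ ‖w‖ := by
      have h3 : ‖star S‖ ≤ 1 := by rwa [norm_star]
      calc ‖star S w‖ ≤ ‖star S‖ * ‖w‖ := (star S).le_opNorm w
        _ ≤ 1 * ‖w‖ := by gcongr
        _ = ‖w‖ := one_mul _
    have h4 : ⟪star S w, w⟫_ℂ = ⟪w, S w⟫_ℂ := by
      rw [ContinuousLinearMap.star_eq_adjoint, ContinuousLinearMap.adjoint_inner_left]
    have h5 : ‖star S w - w‖ ^ 2 = ‖star S w‖ ^ 2 - 2 * RCLike.re ⟪star S w, w⟫_ℂ + ‖w‖ ^ 2 :=
      norm_sub_sq (𝕜 := ℂ) _ _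
    have h6 : RCLike.re ⟪w, S w - w⟫_ℂ = RCLike.re ⟪w, S w⟫_ℂ - ‖w‖ ^ 2 := by
      rw [inner_sub_right, map_sub, inner_self_eq_norm_sq]
    have h7 : |RCLike.re ⟪w, S w - w⟫_ℂ| ≤ ‖w‖ * ‖S w - w‖ :=
      (RCLike.abs_re_le_norm _).trans (norm_inner_le_norm _ _)
    have h8 : ‖w‖ ≤ ‖c‖ * ‖v‖ := c.le_opNorm v
    have h9 : ‖S w - w‖ ≤ ‖S * c - c‖ * ‖v‖ := by
      rw [← e2]
      exact (S * c - c).le_opNorm v
    rw [e1, h5, h4]
    have h10 := (abs_le.1 h7).1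
    have h11 : ‖star S w‖ ^ 2 ≤ ‖w‖ ^ 2 := by gcongr
    have h12 : ‖w‖ * ‖S w - w‖ ≤ (‖c‖ * ‖v‖) * (‖S * c - c‖ * ‖v‖) := by gcongr
    nlinarith
  calc ‖star S * c - c‖ ^ 2 ≤ (Real.sqrt (2 * ‖c‖ * ‖S * c - c‖)) ^ 2 := by gcongr
    _ = _ := Real.sq_sqrt h0

namespace TDat

variable {P : Pre H A} {Q : QHyp P} {B : NonUnitalStarSubalgebra ℂ (H →L[ℂ] H)}

theorem T_sub (D : TDat P Q B) (μ ν : A →L[ℂ] ℂ) : D.T (μ - ν) = D.T μ - D.T ν := by
  have h : μ - ν = μ + (-1 : ℂ) • ν := by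
    ext a
    change μ a - ν a = μ a + (-1 : ℂ) • ν a
    rw [neg_one_smul, sub_eq_add_neg]
  rw [h, D.T_add, D.T_smul, neg_one_smul, ← sub_eq_add_neg]

theorem eventually_state (P : Pre H A) : ∀ᶠ μ in nearU P, IsSt μ :=
  Filter.mem_of_superset (Filter.mem_inf_of_right (Filter.mem_principal_self _)) fun _ h => h

theorem tendsto_left (D : TDat P Q B) {b : H →L[ℂ] H} (hb : b ∈ B) :
    Tendsto (fun μ => D.T μ * b) (nearU P) (𝓝 b) := by
  rw [Metric.tendsto_nhds]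
  intro ε hε
  obtain ⟨c, ⟨ω, hω, rfl⟩, hc⟩ := Metric.mem_closure_iff.1 (D.L1_dense b hb) (ε / 3)
    (by positivity)
  have h1 := (Metric.tendsto_nhds.1 (Q.L1_tendsto ω hω)) (ε / 3) (by positivity)
  filter_upwards [h1, eventually_state P] with μ hμ hs
  have hT : ‖D.T μ‖ ≤ 1 := (D.norm_le μ).trans hs.1.le
  rw [dist_eq_norm] at hc hμ ⊢
  have h2 : ‖D.T μ * D.T ω - D.T ω‖ < ε / 3 := by
    rw [← D.T_mul, ← D.T_sub]
    exact (D.norm_le _).trans_lt hμ
  have e : D.T μ * b - b = D.T μ * (b - D.T ω) + (D.T μ * D.T ω - D.T ω) - (b - D.T ω) := by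
    noncomm_ring
  rw [e]
  calc ‖D.T μ * (b - D.T ω) + (D.T μ * D.T ω - D.T ω) - (b - D.T ω)‖
      ≤ ‖D.T μ * (b - D.T ω)‖ + ‖D.T μ * D.T ω - D.T ω‖ + ‖b - D.T ω‖ :=
        (norm_sub_le _ _).trans (by gcongr; exact norm_add_le _ _)
    _ ≤ 1 * ‖b - D.T ω‖ + ‖D.T μ * D.T ω - D.T ω‖ + ‖b - D.T ω‖ := by
        gcongr
        exact (norm_mul_le _ _).trans (by gcongr)
    _ < ε := by linarith

theorem tendsto_right (D : TDat P Q B) {b : H →L[ℂ] H} (hb : b ∈ B) :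
    Tendsto (fun μ => b * D.T μ) (nearU P) (𝓝 b) := by
  have h1 : Tendsto (fun μ => 2 * ‖star b‖ * ‖D.T μ * star b - star b‖) (nearU P) (𝓝 0) := by
    have := (tendsto_iff_norm_sub_tendsto_zero.1 (D.tendsto_left (star_mem hb))).const_mul
      (2 * ‖star b‖)
    rwa [mul_zero] at this
  have h2 : Tendsto (fun μ => ‖b * D.T μ - b‖ ^ 2) (nearU P) (𝓝 0) := by
    refine squeeze_zero' (Eventually.of_forall fun μ => by positivity) ?_ h1
    filter_upwards [eventually_state P] with μ hs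
    have hT : ‖D.T μ‖ ≤ 1 := (D.norm_le μ).trans hs.1.le
    have h3 := norm_adj_sub_sq_le (D.T μ) (star b) hT
    have h4 : star (D.T μ) * star b - star b = star (b * D.T μ - b) := by
      rw [star_sub, star_mul]
    rwa [h4, norm_star] at h3
  rw [tendsto_iff_norm_sub_tendsto_zero]
  have h5 := (Real.continuous_sqrt.tendsto 0).comp h2
  rw [Real.sqrt_zero] at h5
  refine h5.congr fun μ => ?_
  exact Real.sqrt_sq (norm_nonneg _)

/-- the functional `x ↦ ⟪u, x v⟫` -/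
def fn (u v : H) : (H →L[ℂ] H) →L[ℂ] ℂ :=
  (innerSL ℂ u).comp (ContinuousLinearMap.apply ℂ H v)

theorem fn_apply (u v : H) (x : H →L[ℂ] H) : fn u v x = ⟪u, x v⟫_ℂ := rfl

/-- the functionals -/
def Phi (D : TDat P Q B) : Set ((H →L[ℂ] H) →L[ℂ] ℂ) :=
  {φ | ∃ u ∈ D.H₀, ∃ v ∈ D.H₀, φ = fn u v}

theorem Phi_ex (D : TDat P Q B) (p : D.Phi) : ∃ a : A, ∀ μ : Cv P,
    p.1 (D.hom μ) = (cdata P).pair μ a := by
  obtain ⟨φ, u, hu, v, hv, rfl⟩ := p
  obtain ⟨a, ha⟩ := D.slice_ex u hu v hv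
  exact ⟨a, fun μ => ha (Cv.out μ)⟩

/-- the slices -/
def sl (D : TDat P Q B) (p : D.Phi) : A := (D.Phi_ex p).choose

theorem sl_spec (D : TDat P Q B) (p : D.Phi) (μ : Cv P) :
    p.1 (D.hom μ) = (cdata P).pair μ (D.sl p) := (D.Phi_ex p).choose_spec μ

theorem dense_slices (D : TDat P Q B) :
    Dense (Submodule.span ℂ (Set.range D.sl) : Set A) := by
  refine D.slice_dense.mono ?_
  refine Submodule.span_mono ?_
  rintro a ⟨u, hu, v, hv, h⟩
  refine ⟨⟨fn u v, u, hu, v, hv, rfl⟩, ?_⟩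
  rw [SeparatingDual.eq_iff_forall_dual_eq (R := ℂ)]
  intro μ
  have h1 := D.sl_spec ⟨fn u v, u, hu, v, hv, rfl⟩ (Cv.mk μ)
  exact h1.symm.trans (h μ)

theorem separating (D : TDat P Q B) (x : H →L[ℂ] H)
    (hx : ∀ p ∈ D.Phi, p x = 0) : x = 0 := by
  have h2 : ∀ u ∈ D.H₀, ∀ v ∈ D.H₀, ⟪u, x v⟫_ℂ = 0 := fun u hu v hv =>
    hx (fn u v) ⟨u, hu, v, hv, rfl⟩
  have h3 : ∀ v ∈ D.H₀, x v = 0 := by
    intro v hv
    refine ext_inner_left ℂ fun u => ?_
    rw [inner_zero_right]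
    have hc : IsClosed {u : H | ⟪u, x v⟫_ℂ = 0} :=
      isClosed_eq (continuous_id.inner continuous_const) continuous_const
    have h4 : D.H₀ ⊆ {u : H | ⟪u, x v⟫_ℂ = 0} := fun u hu => h2 u hu v hv
    exact hc.closure_subset_iff.2 h4 (D.H₀_dense u)
  refine ContinuousLinearMap.ext fun v => ?_
  have hc : IsClosed {v : H | x v = 0} := isClosed_eq x.continuous continuous_const
  exact hc.closure_subset_iff.2 (fun v hv => h3 v hv) (D.H₀_dense v)

/-- strong convergence from convergence on `B` -/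
theorem tendsto_apply (D : TDat P Q B) {l : Filter (A →L[ℂ] ℂ)} (hs : ∀ᶠ μ in l, IsSt μ)
    (h : ∀ b ∈ B, Tendsto (fun μ => D.T μ * b) l (𝓝 b)) (v : H) :
    Tendsto (fun μ => D.T μ v) l (𝓝 v) := by
  have key : ∀ w ∈ Submodule.span ℂ {w : H | ∃ b ∈ B, ∃ v, w = b v},
      Tendsto (fun μ => D.T μ w) l (𝓝 w) := by
    intro w hw
    induction hw using Submodule.span_induction with
    | mem x hx =>
      obtain ⟨b, hb, v, rfl⟩ := hx
      exact ((ContinuousLinearMap.apply ℂ H v).continuous.tendsto b).comp (h b hb)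
    | zero => simpa using tendsto_const_nhds
    | add x y _ _ hx hy => simpa using hx.add hy
    | smul c x _ hx => simpa using hx.const_smul c
  rw [Metric.tendsto_nhds]
  intro ε hε
  obtain ⟨w, hw, hvw⟩ := D.nd.exists_dist_lt v (show 0 < ε / 3 by positivity)
  have h2 := (Metric.tendsto_nhds.1 (key w hw)) (ε / 3) (by positivity)
  filter_upwards [h2, hs] with μ hμ hμs
  rw [dist_eq_norm] at hμ hvw ⊢
  have hT : ‖D.T μ‖ ≤ 1 := (D.norm_le μ).trans hμs.1.le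
  have e : D.T μ v - v = D.T μ (v - w) + (D.T μ w - w) - (v - w) := by
    rw [map_sub]
    abel
  rw [e]
  calc _ ≤ ‖D.T μ (v - w)‖ + ‖D.T μ w - w‖ + ‖v - w‖ :=
        (norm_sub_le _ _).trans (by gcongr; exact norm_add_le _ _)
    _ ≤ 1 * ‖v - w‖ + ‖D.T μ w - w‖ + ‖v - w‖ := by
        gcongr
        exact ((D.T μ).le_opNorm _).trans (by gcongr)
    _ < ε := by linarith

/-- the representation of the abstract theorem -/
def rep (D : TDat P Q B) : QG.Rep (qgroup P Q) (H →L[ℂ] H) where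
  T := D.hom
  norm_le μ := D.norm_le (Cv.out μ)
  B := B.toSubmodule
  closed := D.closed
  mul_mem _ hx _ hy := B.mul_mem hx hy
  L1_mem ω hω := D.L1_sub ω hω
  strict_left _ hb := D.tendsto_left hb
  strict_right _ hb := D.tendsto_right hb
  Φ := D.Phi
  Φ_tendsto := by
    rintro φ ⟨u, hu, v, hv, rfl⟩ l hl h
    have h1 := D.tendsto_apply (l := l) hl h v
    exact ((innerSL ℂ u).continuous.tendsto v).comp h1
  slice := D.sl
  slice_pair p μ := D.sl_spec p μ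
  slice_dense := D.dense_slices
  separating := D.separating

theorem haag_iff (D : TDat P Q B) : D.rep.Haagerup ↔ Haag D.T B := Iff.rfl

theorem condS_iff (D : TDat P Q B) : (qgroup P Q).CondS D.rep ↔ CondS Q D.T B := Iff.rfl

/-- the abstract theorem in terms of operators -/
theorem main [TopologicalSpace.SeparableSpace A] (D : TDat P Q B) :
    (Amen Q ∧ Haag D.T B) ↔ CondS Q D.T B := by
  rw [← D.condS_iff, ← D.haag_iff, ← QG.main (qgroup P Q) D.rep]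
  rfl

end TDat

end Pool.Agent.MQG.Bridge
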