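import Pool.Agent.MQG.Legs3

set_option autoImplicit false

/-!
# A core of trajectories; the operator `U^`
-/

namespace Pool.Agent.MQG

open scoped InnerProductSpace InnerProduct Topology ComplexConjugate
open Complex Filter

variable {α β γ δ κ κ' ι : Type}

/-- An identity between the values at `0` and at `w` of trajectories holds for all trajectories if
it holds for a set of trajectories which is invariant under real shifts and has total values. -/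
theorem core {V : ℝ → Op α} (hV : IsGroup V) {D : Set (ℂ → L2 α)} (hD : ∀ Z ∈ D, Traj V Z)
    (hs : ∀ Z ∈ D, ∀ t : ℝ, (fun z => Z (z + t)) ∈ D) (ht : Total {ξ : L2 α | ∃ Z ∈ D, ξ = Z 0})
    (w : ℂ) {F₁ F₂ : L2 α →L[ℂ] ℂ} (h : ∀ Z ∈ D, F₁ (Z 0) = F₂ (Z w)) {Z : ℂ → L2 α}
    (hZ : Traj V Z) : F₁ (Z 0) = F₂ (Z w) := by
  have h1 : ∀ n, F₁ ∘L hV.gauss n 0 = F₂ ∘L hV.gauss n w := fun n => ht.ext (by
    rintro _ ⟨Y, hY, rfl⟩
    refine hV.gauss_integrate (hD Y hY) n w fun t => ?_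
    have h2 := h _ (hs Y hY t)
    simp only [zero_add] at h2
    rw [h2, add_comm])
  have h2 : ∀ n, F₁ (hV.gauss n 0 (Z 0)) = F₂ (hV.gauss n 0 (Z w)) := fun n => by
    have h3 := DFunLike.congr_fun (h1 n) (Z 0)
    have h4 := hV.gauss_traj hZ n w 0
    rw [add_zero] at h4
    rw [← h4]
    exact h3
  have h3 : Tendsto (fun n => F₁ (hV.gauss n 0 (Z 0))) atTop (𝓝 (F₁ (Z 0))) :=
    (F₁.continuous.tendsto _).comp (hV.tendsto_gauss _)
  have h4 : Tendsto (fun n => F₂ (hV.gauss n 0 (Z w))) atTop (𝓝 (F₂ (Z w))) :=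
    (F₂.continuous.tendsto _).comp (hV.tendsto_gauss _)
  simp only [h2] at h3
  exact tendsto_nhds_unique h3 h4

/-- `Uh` is the operator `U^`: `(x ⊗ conj a | U^ (z ⊗ conj b)) = (x ⊗ Q b | U* (z ⊗ Q⁻¹ a))` for all
entire vectors `a = f 0`, `b = g 0`. -/
def IsHat (V : ℝ → Op ι) (U Uh : Op (κ × ι)) : Prop :=
  ∀ (x z : L2 κ) (f g : ℂ → L2 ι), Traj V f → Traj V g →
    ⟪tn x (star (f 0)), Uh (tn z (star (g 0)))⟫_ℂ =
      ⟪tn x (g (-(I / 2))), star U (tn z (f (I / 2)))⟫_ℂ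

/-- The slices of `U^`. -/
theorem IsHat.sl {V : ℝ → Op ι} {U Uh : Op (κ × ι)} (h : IsHat V U Uh) {f g : ℂ → L2 ι}
    (hf : Traj V f) (hg : Traj V g) :
    MQG.sl Uh (star (f 0)) (star (g 0)) = MQG.sl (star U) (g (-(I / 2))) (f (I / 2)) := by
  ext z : 1
  refine ext_inner_left ℂ fun x => ?_
  rw [inner_sl, inner_sl, h x z f g hf hg]

/-- `IsHat` with a further leg in front. -/
theorem IsHat.front {V : ℝ → Op ι} {U Uh : Op (κ × ι)} (h : IsHat V U Uh) {f g : ℂ → L2 ι}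
    (hf : Traj V f) (hg : Traj V g) (ζ ζ' : L2 (α × κ)) :
    ⟪tl e12 ζ (star (f 0)), l23 Uh (tl e12 ζ' (star (g 0)))⟫_ℂ =
      ⟪tl e12 ζ (g (-(I / 2))), star (l23 U) (tl e12 ζ' (f (I / 2)))⟫_ℂ := by
  have h1 := DFunLike.congr_fun (e12_l23 (α := α) Uh (star (f 0)) (star (g 0))) ζ'
  have h2 := DFunLike.congr_fun (e12_l23 (α := α) (star U) (g (-(I / 2))) (f (I / 2))) ζ'
  rw [ContinuousLinearMap.comp_apply, ContinuousLinearMap.comp_apply] at h1 h2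
  rw [← emb_apply, ← emb_apply, ← emb_apply, ← emb_apply, ← l23_star,
    ← ContinuousLinearMap.adjoint_inner_right, ← ContinuousLinearMap.adjoint_inner_right, h1, h2,
    h.sl hf hg]

/-- The operators `l12`, `l13` and partial inner products in the other leg. -/
theorem adj_e13_l13 (U : Op (α × γ)) (h : L2 β) :
    ((emb (e13 : α × β × γ ≃ _) h)†) ∘L l13 U = U ∘L ((emb (e13 : α × β × γ ≃ _) h)†) :=
  adj_emb_comp_leg _ _ _

theorem adj_e12_l12 (U : Op (α × β)) (u : L2 γ) :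
    ((emb (e12 : α × β × γ ≃ _) u)†) ∘L l12 U = U ∘L ((emb (e12 : α × β × γ ≃ _) u)†) :=
  adj_emb_comp_leg _ _ _

/-- `(h | ζ ⊗ u)` in the second leg. -/
theorem adj_e13_tl_e12 (ζ : L2 (α × β)) (h : L2 β) (u : L2 γ) :
    ((emb (e13 : α × β × γ ≃ _) h)†) (tl e12 ζ u) =
      tn (((emb (Equiv.refl (α × β)) h)†) ζ) u := by
  have h1 : ((emb (e13 : α × β × γ ≃ _) h)†) ∘L emb e12 u =
      emb (Equiv.refl (α × γ)) u ∘L ((emb (Equiv.refl (α × β)) h)†) := by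
    refine total_tn.ext ?_
    rintro _ ⟨x, h', rfl⟩
    rw [ContinuousLinearMap.comp_apply, ContinuousLinearMap.comp_apply, emb_apply, tl_e12,
      ← tl_e13, adj_emb_tl, tn_eq x h', adj_emb_tl, map_smul, emb_apply, ← tn_eq]
  exact DFunLike.congr_fun h1 ζ

/-- `(x ⊗ η | ζ₁₃ ⊗ h₂) = (η | h ⊗ (x | ζ))` -/
theorem inner_tn_tl_e13 (x : L2 α) (η : L2 (β × γ)) (ζ : L2 (α × γ)) (h : L2 β) :
    ⟪tn x η, tl e13 ζ h⟫_ℂ = ⟪η, tn h (((emb' (Equiv.refl (α × γ)) x)†) ζ)⟫_ℂ := by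
  have h1 : ((emb' (Equiv.refl (α × β × γ)) x)†) ∘L emb e13 h =
      emb' (Equiv.refl (β × γ)) h ∘L ((emb' (Equiv.refl (α × γ)) x)†) := by
    refine total_tn.ext ?_
    rintro _ ⟨z, y, rfl⟩
    rw [ContinuousLinearMap.comp_apply, ContinuousLinearMap.comp_apply, emb_apply, tl_e13,
      tn_eq z (tn h y), adj_emb'_tl, tn_eq z y, adj_emb'_tl, map_smul, emb'_apply, ← tn_eq]
  have h2 := DFunLike.congr_fun h1 ζ
  rw [ContinuousLinearMap.comp_apply, ContinuousLinearMap.comp_apply, emb_apply, emb'_apply,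
    ← tn_eq] at h2
  rw [← h2, inner_emb'_adj, ← tn_eq]

end Pool.Agent.MQG
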