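import Pool.Agent.MQG.Model

set_option autoImplicit false

/-!
# Locally compact quantum groups given by a manageable multiplicative unitary

Definitions for MP_a4f485_an.  `H = ℓ²(ι)`, inner products are linear in the second variable.
Everything is stated with bounded operators: the strictly positive operator `Q` of a manageable
multiplicative unitary is given by the strongly continuous unitary group `V t = Q^(2 i t)`, and
`Q u`, `Q⁻¹ y` are the values at `-i/2`, `i/2` of the entire extension of `t ↦ V t u`, `t ↦ V t y`.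
-/

namespace Pool.Agent.MQG

open scoped InnerProductSpace InnerProduct Topology
open Complex Filter

variable {α β γ κ κ' ι : Type}

/-! ## Legs -/

/-- `ξ ⊗ g ∈ ℓ²(α × β)`. -/
noncomputable def tn (ξ : L2 α) (g : L2 β) : L2 (α × β) := tl (Equiv.refl (α × β)) ξ g

/-- `(a, b, c) ↦ ((a, b), c)` -/
def e12 : α × β × γ ≃ (α × β) × γ := (Equiv.prodAssoc α β γ).symm

/-- `(a, b, c) ↦ ((a, c), b)` -/
def e13 : α × β × γ ≃ (α × γ) × β where
  toFun p := ((p.1, p.2.2), p.2.1)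
  invFun p := (p.1.1, p.2, p.1.2)
  left_inv _ := rfl
  right_inv _ := rfl

/-- `(a, b, c) ↦ ((b, c), a)` -/
def e23 : α × β × γ ≃ (β × γ) × α := Equiv.prodComm α (β × γ)

/-- `T₁₂` -/
noncomputable def l12 (T : Op (α × β)) : Op (α × β × γ) := leg e12 T

/-- `T₁₃` -/
noncomputable def l13 (T : Op (α × γ)) : Op (α × β × γ) := leg e13 T

/-- `T₂₃` -/
noncomputable def l23 (T : Op (β × γ)) : Op (α × β × γ) := leg e23 T

/-- `S ⊗ T` on `ℓ²(α × β)` -/
noncomputable def tens (S : Op α) (T : Op β) : Op (α × β) :=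
  leg (Equiv.refl (α × β)) S * leg (Equiv.prodComm α β) T

/-! ## Conjugation, one-parameter groups, entire vectors -/

/-- `C T C`, where `C` is the coordinatewise complex conjugation. -/
noncomputable def cj (T : Op α) : Op α :=
  LinearMap.mkContinuous
    { toFun := fun ξ => star (T (star ξ))
      map_add' := fun ξ η => by simp
      map_smul' := fun r ξ => by simp [star_smul] }
    ‖T‖ (fun ξ => by
      simpa using T.le_opNorm (star ξ))

@[simp] theorem cj_apply (T : Op α) (ξ : L2 α) : cj T ξ = star (T (star ξ)) := rfl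

/-- A strongly continuous one-parameter group of unitary operators. -/
structure IsGroup (V : ℝ → Op α) : Prop where
  zero : V 0 = 1
  add : ∀ s t, V (s + t) = V s * V t
  star_eq : ∀ t, star (V t) = V (-t)
  cont : ∀ ξ, Continuous fun t => V t ξ

/-- `f` is the entire extension of the orbit `t ↦ V t (f 0)` of the vector `f 0`; thus `f 0` is an
entire vector of the group `V` and `f z` is written `V_z (f 0)`. -/
def Traj (V : ℝ → Op α) (f : ℂ → L2 α) : Prop :=
  Differentiable ℂ f ∧ ∀ t : ℝ, f t = V t (f 0)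

/-! ## Manageable multiplicative unitaries -/

/-- A manageable multiplicative unitary (Woronowicz 1996) on the Hilbert space `H = ℓ²(ι)`:
unitary operators `W` on `H ⊗ H` and `Wt` on `conj H ⊗ H` (identified with `H ⊗ H` by the
coordinatewise conjugation) and a strictly positive operator `Q`, given by `V t = Q^(2 i t)`,
such that `W₁₂ W₁₃ W₂₃ = W₂₃ W₁₂`, `W* (Q ⊗ Q) W = Q ⊗ Q` and
`(x ⊗ u | W (z ⊗ y)) = (conj z ⊗ Q u | Wt (conj x ⊗ Q⁻¹ y))`. -/
structure MU (ι : Type) where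
  /-- the multiplicative unitary -/
  W : Op (ι × ι)
  /-- the unitary `W~` -/
  Wt : Op (ι × ι)
  /-- `V t = Q^(2 i t)` -/
  V : ℝ → Op ι
  W_unitary : W ∈ unitary (Op (ι × ι))
  Wt_unitary : Wt ∈ unitary (Op (ι × ι))
  V_group : IsGroup V
  pentagon : l12 W * l13 W * l23 W = (l23 W * l12 W : Op (ι × ι × ι))
  inv : ∀ t, W * tens (V t) (V t) = tens (V t) (V t) * W
  manageable : ∀ (x z : L2 ι) (f g : ℂ → L2 ι), Traj V f → Traj V g →
    ⟪tn x (f 0), W (tn z (g 0))⟫_ℂ = ⟪tn (star z) (f (-(I / 2))), Wt (tn (star x) (g (I / 2)))⟫_ℂ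

/-- `U` is a unitary on `K ⊗ H` adapted to `W`, i.e. a unitary representation on `K = ℓ²(κ)` of the
quantum group with comultiplication `a ↦ W (a ⊗ 1) W*` (the dual quantum group):
`U₁₂ U₁₃ = W₂₃ U₁₂ W₂₃*`. -/
structure Adapted (W : Op (ι × ι)) (U : Op (κ × ι)) : Prop where
  unit : U ∈ unitary (Op (κ × ι))
  eq : l12 U * l13 U * l23 W = (l23 W * l12 U : Op (κ × ι × ι))

/-! ## Slices and the C*-algebras of slices -/

/-- The slice `(id ⊗ ω_{u,y})(U)`: `(x | sl U u y z) = (x ⊗ u | U (z ⊗ y))`. -/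
noncomputable def sl (U : Op (κ × ι)) (u y : L2 ι) : Op κ :=
  (emb (Equiv.refl (κ × ι)) u)† ∘L U ∘L (emb (Equiv.refl (κ × ι)) y)

/-- The slice `(ω_{x,z} ⊗ id)(U)`: `(u | co U x z y) = (x ⊗ u | U (z ⊗ y))`. -/
noncomputable def co (U : Op (κ × ι)) (x z : L2 κ) : Op ι :=
  (emb' (Equiv.refl (κ × ι)) x)† ∘L U ∘L (emb' (Equiv.refl (κ × ι)) z)

/-- The C*-algebra generated by the slices `(id ⊗ ω_{u,y})(U)` of `U`. For `U = W` this is
`C_0(G)`, for a universal `U` it is `C_0^u(G)`. -/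
noncomputable def Aalg (U : Op (κ × ι)) : NonUnitalStarSubalgebra ℂ (Op κ) :=
  (NonUnitalStarAlgebra.adjoin ℂ {T | ∃ u y, T = sl U u y}).topologicalClosure

theorem isClosed_Aalg (U : Op (κ × ι)) : IsClosed (Aalg U : Set (Op κ)) :=
  NonUnitalStarSubalgebra.isClosed_topologicalClosure _

/-- The C*-algebra generated by the slices `(ω_{x,z} ⊗ id)(W)`: this is the algebra `C_0(G^)` of
the dual quantum group. -/
noncomputable def Balg (W : Op (ι × ι)) : NonUnitalStarSubalgebra ℂ (Op ι) :=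
  (NonUnitalStarAlgebra.adjoin ℂ {T | ∃ x z, T = co W x z}).topologicalClosure

theorem isClosed_Balg (W : Op (ι × ι)) : IsClosed (Balg W : Set (Op ι)) :=
  NonUnitalStarSubalgebra.isClosed_topologicalClosure _

theorem sl_mem (U : Op (κ × ι)) (u y : L2 ι) : sl U u y ∈ Aalg U :=
  NonUnitalStarSubalgebra.le_topologicalClosure _
    (NonUnitalStarAlgebra.subset_adjoin ℂ _ ⟨u, y, rfl⟩)

/-- The C*-algebra `Aalg U` as a type. -/
def Al (U : Op (κ × ι)) : Type := ↥(Aalg U)

noncomputable instance (U : Op (κ × ι)) : NonUnitalCStarAlgebra (Al U) :=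
  NonUnitalStarSubalgebra.nonUnitalCStarAlgebra (Aalg U) (h_closed := isClosed_Aalg U)

/-- The inclusion of `Aalg U` in `B(K)`. -/
noncomputable def val {U : Op (κ × ι)} : Al U →⋆ₙₐ[ℂ] Op κ where
  toFun a := Subtype.val (p := fun T => T ∈ Aalg U) a
  map_smul' _ _ := rfl
  map_zero' := rfl
  map_add' _ _ := rfl
  map_mul' _ _ := rfl
  map_star' _ := rfl

theorem val_mem {U : Op (κ × ι)} (a : Al U) : val a ∈ Aalg U := Subtype.property (p := fun T => T ∈ Aalg U) a

theorem val_injective {U : Op (κ × ι)} : Function.Injective (val : Al U → Op κ) :=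
  fun _ _ h => Subtype.ext h

@[simp] theorem norm_val {U : Op (κ × ι)} (a : Al U) : ‖val a‖ = ‖a‖ := rfl

/-- The element of the algebra given by an operator. -/
def mkA {U : Op (κ × ι)} (T : Op κ) (h : T ∈ Aalg U) : Al U := ⟨T, h⟩

@[simp] theorem val_mkA {U : Op (κ × ι)} (T : Op κ) (h : T ∈ Aalg U) : val (mkA T h) = T := rfl

/-- The slice `(id ⊗ ω_{u,y})(U)` as an element of the algebra. -/
noncomputable def asl (U : Op (κ × ι)) (u y : L2 ι) : Al U := mkA (sl U u y) (sl_mem U u y)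

@[simp] theorem val_asl (U : Op (κ × ι)) (u y : L2 ι) : val (asl U u y) = sl U u y := rfl

/-- `WW` is universal: it is adapted and for every adapted `U` there is a *-homomorphism (a
representation of `C_0^u(G)`) which maps the slices of `WW` to those of `U`. Then
`Aalg WW` (as a type: `Al WW`) is `C_0^u(G)`. -/
structure Universal (W : Op (ι × ι)) (WW : Op (κ × ι)) : Prop where
  adapted : Adapted W WW
  lift : ∀ (κ' : Type) (U : Op (κ' × ι)), Adapted W U →
    ∃ π : Al WW →⋆ₙₐ[ℂ] Op κ', ∀ u y, π (asl WW u y) = sl U u y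

theorem sl_add_left (U : Op (κ × ι)) (u u' y : L2 ι) :
    sl U (u + u') y = sl U u y + sl U u' y := by
  simp [sl, emb_add, ContinuousLinearMap.add_comp]

theorem sl_add_right (U : Op (κ × ι)) (u y y' : L2 ι) :
    sl U u (y + y') = sl U u y + sl U u y' := by
  simp [sl, emb_add, ContinuousLinearMap.comp_add]

theorem sl_smul_left (U : Op (κ × ι)) (r : ℂ) (u y : L2 ι) :
    sl U (r • u) y = (starRingEnd ℂ) r • sl U u y := by
  simp only [sl, emb_smul, map_smulₛₗ, ContinuousLinearMap.smul_comp]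

theorem sl_smul_right (U : Op (κ × ι)) (r : ℂ) (u y : L2 ι) :
    sl U u (r • y) = r • sl U u y := by
  simp only [sl, emb_smul, ContinuousLinearMap.comp_smul]

theorem norm_sl_le (U : Op (κ × ι)) (u y : L2 ι) : ‖sl U u y‖ ≤ ‖U‖ * ‖u‖ * ‖y‖ := by
  unfold sl
  refine (ContinuousLinearMap.opNorm_comp_le _ _).trans ?_
  have h1 : ‖(emb (Equiv.refl (κ × ι)) u)†‖ ≤ ‖u‖ := by
    rw [LinearIsometryEquiv.norm_map]
    exact norm_emb_le _ _
  have h2 : ‖U ∘L emb (Equiv.refl (κ × ι)) y‖ ≤ ‖U‖ * ‖y‖ :=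
    (ContinuousLinearMap.opNorm_comp_le _ _).trans
      (mul_le_mul_of_nonneg_left (norm_emb_le _ _) (norm_nonneg _))
  calc _ ≤ ‖u‖ * (‖U‖ * ‖y‖) := mul_le_mul h1 h2 (norm_nonneg _) (norm_nonneg _)
    _ = ‖U‖ * ‖u‖ * ‖y‖ := by ring

/-! ## Functionals on `C_0^u(G)` -/

/-- The dual Banach space of `C_0^u(G)`. -/
abbrev Du (U : Op (κ × ι)) : Type := Al U →L[ℂ] ℂ

/-- The sesquilinear form `(u, y) ↦ μ((id ⊗ ω_{u,y})(U))`. -/
noncomputable def lamForm (U : Op (κ × ι)) (μ : Du U) : L2 ι →L⋆[ℂ] L2 ι →L[ℂ] ℂ :=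
  LinearMap.mkContinuous₂
    (LinearMap.mk₂'ₛₗ (starRingEnd ℂ) (RingHom.id ℂ) (fun u y => μ (asl U u y))
      (fun u u' y => by
        have h : asl U (u + u') y = asl U u y + asl U u' y := val_injective (by simpa using sl_add_left U u u' y)
        simp [h])
      (fun r u y => by
        have h : asl U (r • u) y = (starRingEnd ℂ) r • asl U u y :=
          val_injective (by simpa using sl_smul_left U r u y)
        simp only [h, map_smul])
      (fun u y y' => by
        have h : asl U u (y + y') = asl U u y + asl U u y' := val_injective (by simpa using sl_add_right U u y y')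
        simp [h])
      (fun r u y => by
        have h : asl U u (r • y) = r • asl U u y := val_injective (by simpa using sl_smul_right U r u y)
        simp only [h, map_smul, RingHom.id_apply]))
    (‖μ‖ * ‖U‖) (fun u y => by
      have h1 := μ.le_opNorm (asl U u y)
      have h2 : ‖asl U u y‖ ≤ ‖U‖ * ‖u‖ * ‖y‖ := norm_sl_le U u y
      calc _ ≤ ‖μ‖ * ‖asl U u y‖ := h1
        _ ≤ ‖μ‖ * (‖U‖ * ‖u‖ * ‖y‖) := mul_le_mul_of_nonneg_left h2 (norm_nonneg _)
        _ = _ := by ring)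

/-- `λ(μ) = (μ ⊗ id)(U)`, the bounded operator on `H` with `(u | λ(μ) y) = μ((id ⊗ ω_{u,y})(U))`
(`inner_lam`). -/
noncomputable def lam (U : Op (κ × ι)) (μ : Du U) : Op ι :=
  (InnerProductSpace.continuousLinearMapOfBilin (lamForm U μ))†

theorem inner_lam (U : Op (κ × ι)) (μ : Du U) (u y : L2 ι) :
    ⟪u, lam U μ y⟫_ℂ = μ (asl U u y) := by
  rw [lam, ContinuousLinearMap.adjoint_inner_right,
    InnerProductSpace.continuousLinearMapOfBilin_apply]
  rfl

/-- `μ` is a state. -/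
def IsState {U : Op (κ × ι)} (μ : Du U) : Prop :=
  ‖μ‖ = 1 ∧ ∀ a : Al U, ∃ r : ℝ, 0 ≤ r ∧ μ (star a * a) = (r : ℂ)

/-- The convolution `μ ⋆ ν = (μ ⊗ ν) Δ^u`. Because of `(Δ^u ⊗ id)(WW) = WW₁₃ WW₂₃` it is the
functional with `λ(μ ⋆ ν) = λ(μ) λ(ν)`, and `λ` is injective. -/
noncomputable def conv (U : Op (κ × ι)) (μ ν : Du U) : Du U :=
  Classical.epsilon fun ρ : Du U => lam U ρ = lam U μ * lam U ν

/-- The counit, i.e. the functional with `λ(ε) = (ε ⊗ id)(WW) = 1`. -/
noncomputable def counit (U : Op (κ × ι)) : Du U :=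
  Classical.epsilon fun ρ : Du U => lam U ρ = 1

/-- `L^1(G)`, embedded in the dual of `C_0^u(G)` by the reducing homomorphism
`Λ : C_0^u(G) → C_0(G) ⊆ B(H)`: the norm closure of the span of the functionals `(x | Λ(·) z)`. -/
noncomputable def L1 (W : Op (ι × ι)) (WW : Op (κ × ι)) : Submodule ℂ (Du WW) :=
  (Submodule.span ℂ {ω : Du WW | ∃ Λ : Al WW →⋆ₙₐ[ℂ] Op ι,
    (∀ u y, Λ (asl WW u y) = sl W u y) ∧ ∃ x z, ∀ a, ω a = ⟪x, Λ a z⟫_ℂ}).topologicalClosure

/-- `G` is amenable: there is a net of states `μ ∈ L^1(G)` with `‖ω ⋆ μ - μ‖ → 0` for all states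
`ω ∈ L^1(G)`. (The net is given as a filter.) -/
def Amenable (W : Op (ι × ι)) (WW : Op (κ × ι)) : Prop :=
  ∃ l : Filter (Du WW), l.NeBot ∧ (∀ᶠ μ in l, μ ∈ L1 W WW ∧ IsState μ) ∧
    ∀ ω ∈ L1 W WW, IsState ω → Tendsto (fun μ => ‖conv WW ω μ - μ‖) l (𝓝 0)

/-- The Haagerup property of `G^`: there is a net of states `μ` such that `T(μ)` is an approximate
identity of `C_0(G^)`. -/
def Haagerup (W : Op (ι × ι)) (WW : Op (κ × ι)) (T : Du WW → Op ι) : Prop :=
  ∃ l : Filter (Du WW), l.NeBot ∧ (∀ᶠ μ in l, IsState μ ∧ T μ ∈ Balg W) ∧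
    ∀ b ∈ Balg W, Tendsto (fun μ => T μ * b) l (𝓝 b) ∧ Tendsto (fun μ => b * T μ) l (𝓝 b)

/-- Condition `(S_T)`: there is a weak* continuous convolution semigroup of states `μ t` with
`‖ω ⋆ μ t - μ t‖ → 0` as `t → ∞` for all states `ω ∈ L^1(G)`, and `T(μ t) ∈ C_0(G^)` for
`t > 0`. -/
def CondS (W : Op (ι × ι)) (WW : Op (κ × ι)) (T : Du WW → Op ι) : Prop :=
  ∃ μ : ℝ → Du WW, (∀ t, 0 ≤ t → IsState (μ t)) ∧ μ 0 = counit WW ∧
    (∀ s t, 0 ≤ s → 0 ≤ t → μ (s + t) = conv WW (μ s) (μ t)) ∧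
    (∀ a, Tendsto (fun t => μ t a) (𝓝[>] 0) (𝓝 (counit WW a))) ∧
    (∀ ω ∈ L1 W WW, IsState ω → Tendsto (fun t => ‖conv WW ω (μ t) - μ t‖) atTop (𝓝 0)) ∧
    ∀ t, 0 < t → T (μ t) ∈ Balg W

/-- `b = τ^_{i s}(a)` for `s > 0`, where `τ^_t(a) = V t a V(-t)` is the scaling group of the dual
quantum group: there is a bounded function `F` on the strip `0 ≤ Im z ≤ s` with values in `B(H)`,
weakly continuous and analytic inside, with `F t = V t a V(-t)` for real `t` and `F (i s) = b`. -/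
def IsTau (V : ℝ → Op ι) (s : ℝ) (a b : Op ι) : Prop :=
  ∃ F : ℂ → Op ι, (∀ u y, DiffContOnCl ℂ (fun z => ⟪u, F z y⟫_ℂ) {z | 0 < z.im ∧ z.im < s}) ∧
    (∃ C, ∀ z : ℂ, 0 ≤ z.im → z.im ≤ s → ‖F z‖ ≤ C) ∧
    (∀ t : ℝ, F t = V t * a * V (-t)) ∧ F (I * s) = b

/-- The final statement (MP_a4f485_an, Q1 and Q2) for the quantum groups given by a manageable
multiplicative unitary on a separable Hilbert space. -/
def FinalStmt : Prop := ∀ (ι : Type) [Countable ι] [Nonempty ι] (M : MU ι),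
  (∃ (κ : Type) (WW : Op (κ × ι)), Universal M.W WW) ∧
  ∀ (κ : Type) (WW : Op (κ × ι)), Universal M.W WW →
    (Function.Injective (lam WW) ∧ lam WW (counit WW) = 1 ∧
      ∀ μ ν, lam WW (conv WW μ ν) = lam WW μ * lam WW ν) ∧
    ((Amenable M.W WW ∧ Haagerup M.W WW (lam WW)) ↔ CondS M.W WW (lam WW)) ∧
    ∃ lamt : Du WW → Op ι, (∀ μ b, IsTau M.V (1 / 4) (lam WW μ) b ↔ b = lamt μ) ∧
      ((Amenable M.W WW ∧ Haagerup M.W WW lamt) ↔ CondS M.W WW lamt)

end Pool.Agent.MQG
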