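import Pool.Agent.MQG.AsmQ2
import Pool.Agent.Helper10_MQG.HTE
import Pool.Agent.Helper10_MQG.UPA
import Pool.Agent.Helper13_MQG.BCO
import Pool.Agent.Helper13_MQG.SPL
import Pool.Agent.Helper13_MQG.HAG
import Pool.Agent.Helper15_MQG.DSX
import Pool.Agent.Helper21_MQG.HFT
import Pool.Agent.Helper20_MQG.LTD
import Pool.Agent.Helper21_MQG.COM
import Pool.Agent.Helper21_MQG.PRC
import Pool.Agent.Helper24_MQG.LTS
import Pool.Agent.Helper24_MQG.PRA
import Pool.Agent.Helper25_MQG.UNX
import Pool.Agent.Helper27_MQG.HCB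
import Pool.Agent.Helper27_MQG.LTE
import Pool.Agent.Helper29_MQG.BPR
import Pool.Agent.Helper29_MQG.RBD
import Pool.Agent.Helper30_MQG.ABX
import Pool.Agent.Helper30_MQG.LSS
import Pool.Agent.Helper31_MQG.HLM
import Pool.Agent.Helper31_MQG.LMB
import Pool.Agent.Helper32_MQG.AHR
import Pool.Agent.Helper32_MQG.ASX
import Pool.Agent.Helper34_MQG.TLA
import Pool.Agent.Helper35_MQG.LTX
import Pool.Agent.Helper38_MQG.DSL
import Pool.Agent.Helper38_MQG.SHM
import Pool.Agent.Helper39_MQG.LTI
import Pool.Agent.Helper39_MQG.VST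
import Pool.Agent.Helper41_MQG.HBM
import Pool.Agent.Helper41_MQG.SMU
import Pool.Agent.Helper46_MQG.HSM
import Pool.Agent.Helper49_MQG.HGE
import Pool.Agent.Helper49_MQG.HMX
import Pool.Agent.Helper52_MQG.DSS
import Pool.Agent.Helper74_MQG.MUB
import Pool.Agent.Helper55_MQG.LFT
import Pool.Agent.Helper56_MQG.YID
import Pool.Agent.Helper56_MQG.YLI
import Pool.Agent.Helper58_MQG.TLB
import Pool.Agent.Helper59_MQG.CPI
import Pool.Agent.Helper59_MQG.LNO
import Pool.Agent.Helper59_MQG.RLX
import Pool.Agent.Helper59_MQG.UPU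
import Pool.Agent.Helper60_MQG.DSN
import Pool.Agent.Helper64_MQG.LPR
import Pool.Agent.Helper64_MQG.TTB
import Pool.Agent.Helper67_MQG.BTW
import Pool.Agent.Helper69_MQG.KEY
import Pool.Agent.Helper77_MQG.DAD
import Pool.Agent.Helper79_MQG.SPA
import Pool.Agent.Helper80_MQG.MUA
import Pool.Agent.Helper81_MQG.STU
import Pool.Agent.Helper82_MQG.EPS
import Pool.Agent.Helper84_MQG.LFV
import Pool.Agent.Helper86_MQG.HTH
import Pool.Agent.Helper86_MQG.TTA
import Pool.Agent.Helper87_MQG.TUN
import Pool.Agent.Helper90_MQG.DSA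
import Pool.Agent.Helper92_MQG.SHC

set_option autoImplicit false

/-!
# MP_a4f485_an: assembly

All the blocks together: the final statement `FinalStmt2` for all quantum groups given by a
manageable multiplicative unitary on a separable Hilbert space.
-/

namespace Pool.Agent.MQG.Final

/-! ## Block A -/

theorem com : ComStmt := H21.com
theorem haw : HawStmt := H21.haw
theorem yid : YidStmt := H56.yid haw
theorem yli : YliStmt := H56.yli com haw yid
theorem hte : HteStmt := H10.hte yli
theorem tta : TtaStmt := H86.tta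
theorem ttb : TtbStmt := H64.ttb
theorem key : KeyStmt := H69.key tta ttb
theorem bco : BcoStmt := H13.bco com
theorem btw : BtwStmt := H67.btw bco
theorem bpr : BprStmt := H29B.bpr key haw
theorem abx : AbxStmt := H30.abx btw bpr
theorem ahr : AhrStmt := H32.ahr key
theorem asx : AsxStmt := H32.asx ahr
theorem mua : MuaStmt := H80.mua key tta
theorem mub : MubStmt := H74.mub ttb
theorem amu : AmuStmt := H29B.amu hte mua mub asx

theorem asp : AspStmt := by
  intro ι M κ U hU a ha
  obtain ⟨Uh, -, hUh⟩ := hte ι M κ U hU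
  exact ((asx ι M κ U Uh hU hUh).1 a).1 ha

theorem abs : AbsStmt := fun ι M b hb => ((abx ι M).1 b).1 hb

/-! ## Block B -/

theorem pra : PraStmt := H24.pra
theorem prc : PrcStmt := H21.prc
theorem rbd : RbdStmt := H29.rbd pra prc
theorem rlx : RlxStmt := H59.rlx rbd asp
theorem dns : DnsStmt := H59.dns asp
theorem lno : LnoStmt := H59.lno
theorem eps : EpsStmt := H82.eps
theorem cpi : CpiStmt := H59.cpi
theorem upu : UpuStmt := H59.upu cpi amu
theorem upa : UpaStmt := H10.upa
theorem stu : StuStmt := H81.stu upu upa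
theorem vst : VstStmt := H39.vst
theorem smu : SmuStmt := H41.smu stu vst pra prc
theorem lfv : LfvStmt := H84.lfv
theorem lpr : LprStmt := H64.lpr
theorem lle : LleStmt := H29.lle dns stu rlx lfv lpr
theorem lti : LtiStmt := H39.lti dns stu lfv lpr
theorem lte : LteStmt := H27.lte dns lti rlx
theorem spa : SpaStmt := H79.spa dns
theorem spl : SplStmt := H13.spl dns
theorem lss : LssStmt := H30.lss
theorem lmb : LmbStmt := H31.lmb lno abs

/-! ## Block U -/

theorem dsx : DsxStmt := H15.dsx
theorem dsa : DsaStmt := H90.dsa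
theorem dsn : DsnStmt := H60.dsn dsx dsa
theorem dsl : DslStmt := H38.dsl
theorem dss : DssStmt := H52.dss
theorem dad : DadStmt := H77.dad dsn dsa dsl
theorem lft : LftStmt := H55.lft dsx dsa dsn dss dad asp
theorem unx : UnxStmt := H25.unx dsx dsa dsn dss dad lft

/-! ## Block C -/

theorem tla : TlaStmt := H34.tla
theorem tlb : TlbStmt := H58.tlb
theorem tun : TunStmt := H87.tun
theorem shm : ShmStmt := H38.shm
theorem hbd : HbdStmt := H58.hbd
theorem ltx : LtxStmt := H35.ltx hte hbd lno tla tlb
theorem lts : LtsStmt := H24.lts ltx tun shm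
theorem shc : ShcStmt := H92.shc
theorem ltd : LtdStmt := H20.ltd shc lts abx
theorem lth : LthStmt := H35.lth lts dns

/-! ## Block H -/

theorem hge : HgeStmt := H49.hge
theorem hmx : HmxStmt := H49.hmx
theorem hcb : HcbStmt := H27.hcb abs
theorem hbm : HbmStmt := H41.hbm hcb
theorem hlm : HlmStmt := H31.hlm hcb hge
theorem hth : HthStmt := H86.hth
theorem hsm : HsmStmt := H46.hsm hth dns
theorem hft : HftStmt := H21.hft hge hmx
theorem hag : HagStmt := H13.hag hlm hbm
theorem heq : HeqStmt := H13.heq hag hsm hft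

/-! ## The final statement -/

/-- MP_a4f485_an, Q1 and Q2, for all manageable multiplicative unitaries on `ℓ²(ι)`, `ι`
countable. -/
theorem final : FinalStmt2 :=
  final2 unx dns rlx eps smu lle lte spl lss spa lno lmb lts ltd lth heq

end Pool.Agent.MQG.Final
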