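import Pool.Agent.MQG.Defs

set_option autoImplicit false

/-!
# One-parameter groups, entire vectors, Gaussian means

`IsGroup V`, `Traj V f`: see `Defs`.
-/

namespace Pool.Agent.MQG

open scoped InnerProductSpace InnerProduct Topology ComplexConjugate
open Complex Filter MeasureTheory

variable {α β γ : Type}

/-! ## Identity theorem -/

/-- two entire functions which agree on the real line are equal -/
theorem entire_ext {E : Type*} [NormedAddCommGroup E] [NormedSpace ℂ E] [CompleteSpace E]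
    {f g : ℂ → E} (hf : Differentiable ℂ f) (hg : Differentiable ℂ g)
    (h : ∀ t : ℝ, f t = g t) : f = g := by
  have hf' : AnalyticOnNhd ℂ f Set.univ := fun z _ => hf.analyticAt z
  have hg' : AnalyticOnNhd ℂ g Set.univ := fun z _ => hg.analyticAt z
  refine hf'.eq_of_frequently_eq hg' (z₀ := 0) ?_
  have h1 : Tendsto (fun t : ℝ => (t : ℂ)) (𝓝[≠] 0) (𝓝[≠] 0) := by
    refine tendsto_nhdsWithin_iff.2 ⟨?_, ?_⟩
    · have := (Complex.continuous_ofReal.tendsto 0).mono_left (nhdsWithin_le_nhds (s := {0}ᶜ))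
      simpa using this
    · filter_upwards [self_mem_nhdsWithin] with t ht
      simpa using ht
  refine h1.frequently ?_
  exact (Eventually.of_forall fun t => h t).frequently

/-! ## Groups -/

namespace IsGroup

variable {V : ℝ → Op α}

theorem norm_apply (hV : IsGroup V) (t : ℝ) (ξ : L2 α) : ‖V t ξ‖ = ‖ξ‖ := by
  have h : ⟪V t ξ, V t ξ⟫_ℂ = ⟪ξ, ξ⟫_ℂ := by
    rw [← ContinuousLinearMap.adjoint_inner_right, ← ContinuousLinearMap.star_eq_adjoint,
      hV.star_eq]
    have h1 : V (-t) (V t ξ) = (V (-t) * V t) ξ := rfl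
    rw [h1, ← hV.add, neg_add_cancel, hV.zero]
    rfl
  rw [inner_self_eq_norm_sq_to_K, inner_self_eq_norm_sq_to_K] at h
  have h2 : ‖V t ξ‖ ^ 2 = ‖ξ‖ ^ 2 := by exact_mod_cast h
  exact (pow_left_inj₀ (norm_nonneg _) (norm_nonneg _) two_ne_zero).1 h2

theorem norm_le (hV : IsGroup V) (t : ℝ) : ‖V t‖ ≤ 1 :=
  ContinuousLinearMap.opNorm_le_bound _ zero_le_one fun ξ => by
    rw [hV.norm_apply, one_mul]

theorem apply_add (hV : IsGroup V) (s t : ℝ) (ξ : L2 α) : V (s + t) ξ = V s (V t ξ) := by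
  rw [hV.add]; rfl

theorem apply_zero (hV : IsGroup V) (ξ : L2 α) : V 0 ξ = ξ := by
  rw [hV.zero]; rfl

theorem inner_left (hV : IsGroup V) (t : ℝ) (ξ η : L2 α) : ⟪V t ξ, η⟫_ℂ = ⟪ξ, V (-t) η⟫_ℂ := by
  rw [← ContinuousLinearMap.adjoint_inner_right, ← ContinuousLinearMap.star_eq_adjoint,
      hV.star_eq]

theorem inner_right (hV : IsGroup V) (t : ℝ) (ξ η : L2 α) :
    ⟪ξ, V t η⟫_ℂ = ⟪V (-t) ξ, η⟫_ℂ := by
  rw [hV.inner_left, neg_neg]

theorem neg_mul (hV : IsGroup V) (t : ℝ) : V (-t) * V t = 1 := by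
  rw [← hV.add, neg_add_cancel, hV.zero]

theorem mul_neg (hV : IsGroup V) (t : ℝ) : V t * V (-t) = 1 := by
  rw [← hV.add, add_neg_cancel, hV.zero]

end IsGroup

/-! ## Trajectories -/

namespace Traj

variable {V : ℝ → Op α} {f g : ℂ → L2 α}

theorem shift_real (hV : IsGroup V) (hf : Traj V f) (t : ℝ) (w : ℂ) : f (t + w) = V t (f w) := by
  have h : (fun w : ℂ => f (t + w)) = fun w => V t (f w) := by
    refine entire_ext (hf.1.comp ((differentiable_const _).add differentiable_id))
      ((V t).differentiable.comp hf.1) fun s => ?_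
    change f (t + s) = V t (f s)
    rw [hf.2 s, ← hV.apply_add, ← Complex.ofReal_add, hf.2]
  exact congrFun h w

/-- a shift of a trajectory is a trajectory -/
theorem shift (hV : IsGroup V) (hf : Traj V f) (w : ℂ) : Traj V fun z => f (z + w) := by
  refine ⟨hf.1.comp (differentiable_id.add (differentiable_const _)), fun t => ?_⟩
  change f (t + w) = V t (f (0 + w))
  rw [hf.shift_real hV, zero_add]

/-- a trajectory is determined by its value at `0` -/
theorem unique (hf : Traj V f) (hg : Traj V g) (h : f 0 = g 0) : f = g :=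
  entire_ext hf.1 hg.1 fun t => by rw [hf.2, hg.2, h]

theorem add (hf : Traj V f) (hg : Traj V g) : Traj V fun z => f z + g z :=
  ⟨hf.1.add hg.1, fun t => by
    change f t + g t = V t (f 0 + g 0)
    rw [hf.2, hg.2, map_add]⟩

theorem smul (hf : Traj V f) (c : ℂ) : Traj V fun z => c • f z :=
  ⟨hf.1.const_smul c, fun t => by
    change c • f t = V t (c • f 0)
    rw [hf.2, map_smul]⟩

theorem zero (V : ℝ → Op α) : Traj V fun _ => 0 :=
  ⟨differentiable_const _, fun t => (map_zero (V t)).symm⟩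

/-- images of trajectories under intertwiners -/
theorem map {V' : ℝ → Op β} {T : L2 α →L[ℂ] L2 β} (hT : ∀ t ξ, T (V t ξ) = V' t (T ξ))
    (hf : Traj V f) : Traj V' fun z => T (f z) :=
  ⟨T.differentiable.comp hf.1, fun t => by
    change T (f t) = V' t (T (f 0))
    rw [hf.2, hT]⟩

end Traj

/-- the bilinear pairing `(x, y) ↦ ⟪star x, y⟫` -/
noncomputable def bil : L2 α →L[ℂ] L2 α →L[ℂ] ℂ :=
  LinearMap.mkContinuous₂
    (LinearMap.mk₂ ℂ (fun x y => ⟪star x, y⟫_ℂ)
      (fun x x' y => by simp only [star_add, inner_add_left])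
      (fun c x y => by
        simp only [star_smul, inner_smul_left, RCLike.star_def, conj_conj, smul_eq_mul])
      (fun x y y' => by simp only [inner_add_right])
      (fun c x y => by simp only [inner_smul_right, smul_eq_mul])) 1
    (fun x y => by
      have h := norm_inner_le_norm (𝕜 := ℂ) (star x) y
      rw [norm_star] at h
      rw [one_mul]
      exact h)

theorem bil_apply (x y : L2 α) : bil x y = ⟪star x, y⟫_ℂ := rfl

/-- `w ↦ ⟪f (conj w), g w⟫` is entire if `f` and `g` are -/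
theorem inner_differentiable {f g : ℂ → L2 α} (hf : Differentiable ℂ f)
    (hg : Differentiable ℂ g) : Differentiable ℂ fun w => ⟪f (conj w), g w⟫_ℂ := by
  intro w
  have h1 : DifferentiableAt ℂ (star ∘ f ∘ conj) w := by
    have h2 := (hf (conj w)).star_conj
    rwa [conj_conj] at h2
  have h3 : DifferentiableAt ℂ (fun w => bil ((star ∘ f ∘ conj) w) (g w)) w :=
    (bil.differentiableAt.comp w h1).clm_apply (hg w)
  refine h3.congr_of_eventuallyEq (Eventually.of_forall fun w => ?_)
  change _ = ⟪star (star (f (conj w))), g w⟫_ℂ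
  rw [star_star]

namespace Traj

variable {V : ℝ → Op α} {f g : ℂ → L2 α}

/-- `(V_w F(z) | g(w')) = (F z | V_{-conj w} g(w'))` -/
theorem inner_shift (hV : IsGroup V) (hf : Traj V f) (hg : Traj V g) (z w w' : ℂ) :
    ⟪f (z + w), g w'⟫_ℂ = ⟪f z, g (w' - conj w)⟫_ℂ := by
  have h : (fun v : ℂ => ⟪f (conj v + z), g w'⟫_ℂ) = fun v => ⟪f z, g (-v + w')⟫_ℂ := by
    refine entire_ext ?_ ?_ fun t => ?_
    · have := inner_differentiable (hf.shift hV z).1 (differentiable_const (g w'))
      exact this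
    · have h1 : Differentiable ℂ fun v : ℂ => g (-v + w') :=
        hg.1.comp (differentiable_id.neg.add (differentiable_const _))
      exact fun v => ((innerSL ℂ (f z)).differentiableAt.comp v (h1 v))
    · change ⟪f (conj (t : ℂ) + z), g w'⟫_ℂ = ⟪f z, g (-(t : ℂ) + w')⟫_ℂ
      rw [conj_ofReal, hf.shift_real hV, hV.inner_left, ← Complex.ofReal_neg, hg.shift_real hV]
  have h2 := congrFun h (conj w)
  change ⟪f (conj (conj w) + z), g w'⟫_ℂ = ⟪f z, g (-conj w + w')⟫_ℂ at h2
  rw [conj_conj] at h2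
  rw [add_comm z w, h2, neg_add_eq_sub]

/-- constancy: for an intertwiner `T`, `⟪f (conj w), T (g w)⟫` does not depend on `w` -/
theorem inner_const {V' : ℝ → Op β} {T : L2 α →L[ℂ] L2 β} {f' : ℂ → L2 β} (hV' : IsGroup V')
    (hT : ∀ t ξ, T (V t ξ) = V' t (T ξ)) (hf' : Traj V' f') (hg : Traj V g) (w : ℂ) :
    ⟪f' (conj w), T (g w)⟫_ℂ = ⟪f' 0, T (g 0)⟫_ℂ := by
  have h := inner_shift hV' hf' (hg.map hT) 0 (conj w) w
  rw [zero_add, conj_conj, sub_self] at h
  exact h

end Traj

end Pool.Agent.MQG
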