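import Pool.Agent.MQG.Gauss

set_option autoImplicit false

/-!
# Tensors, legs, slices, conjugation
-/

namespace Pool.Agent.MQG

open scoped InnerProductSpace InnerProduct Topology ComplexConjugate
open Complex Filter

variable {α β γ δ κ ι : Type}

/-! ## Elementary tensors -/

section tensors

variable (e : γ ≃ α × β)

theorem tl_add_left (ξ ξ' : L2 α) (g : L2 β) : tl e (ξ + ξ') g = tl e ξ g + tl e ξ' g := by
  ext c; simp [add_mul]

theorem tl_add_right (ξ : L2 α) (g g' : L2 β) : tl e ξ (g + g') = tl e ξ g + tl e ξ g' := by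
  ext c; simp [mul_add]

theorem tl_smul_left (r : ℂ) (ξ : L2 α) (g : L2 β) : tl e (r • ξ) g = r • tl e ξ g := by
  ext c; simp [mul_assoc]

theorem tl_smul_right (r : ℂ) (ξ : L2 α) (g : L2 β) : tl e ξ (r • g) = r • tl e ξ g := by
  ext c; simp [mul_left_comm]

theorem tl_zero_left (g : L2 β) : tl e 0 g = 0 := by
  ext c; simp

theorem tl_zero_right (ξ : L2 α) : tl e ξ 0 = 0 := by
  ext c; simp

theorem tl_sub_left (ξ ξ' : L2 α) (g : L2 β) : tl e (ξ - ξ') g = tl e ξ g - tl e ξ' g :=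
  map_sub (emb e g) ξ ξ'

theorem tl_sub_right (ξ : L2 α) (g g' : L2 β) : tl e ξ (g - g') = tl e ξ g - tl e ξ g' :=
  map_sub (emb' e ξ) g g'

theorem tl_sum_right {T : Type*} (s : Finset T) (ξ : L2 α) (g : T → L2 β) :
    tl e ξ (∑ i ∈ s, g i) = ∑ i ∈ s, tl e ξ (g i) :=
  map_sum (emb' e ξ) g s

theorem tl_sum_left {T : Type*} (s : Finset T) (ξ : T → L2 α) (g : L2 β) :
    tl e (∑ i ∈ s, ξ i) g = ∑ i ∈ s, tl e (ξ i) g :=
  map_sum (emb e g) ξ s

theorem star_tl (ξ : L2 α) (g : L2 β) : star (tl e ξ g) = tl e (star ξ) (star g) := by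
  ext c
  rw [lp.star_apply, tl_apply, tl_apply, lp.star_apply, lp.star_apply, star_mul']

theorem inner_tl (ξ ξ' : L2 α) (g g' : L2 β) :
    ⟪tl e ξ g, tl e ξ' g'⟫_ℂ = ⟪ξ, ξ'⟫_ℂ * ⟪g, g'⟫_ℂ := by
  have h1 := summable_norm_iff.2 (lp.summable_inner (𝕜 := ℂ) ξ ξ')
  have h2 := summable_norm_iff.2 (lp.summable_inner (𝕜 := ℂ) g g')
  rw [lp.inner_eq_tsum, lp.inner_eq_tsum, lp.inner_eq_tsum, tsum_mul_tsum_of_summable_norm h1 h2,
    ← Equiv.tsum_eq e]
  refine tsum_congr fun c => ?_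
  simp only [tl_apply, RCLike.inner_apply, map_mul]
  ring

theorem inner_fib (ζ η : L2 γ) : HasSum (fun b => ⟪fib e ζ b, fib e η b⟫_ℂ) ⟪ζ, η⟫_ℂ := by
  let σ : β × α ≃ γ := (Equiv.prodComm β α).trans e.symm
  have h1 : HasSum (fun p : β × α => ⟪ζ (σ p), η (σ p)⟫_ℂ) ⟪ζ, η⟫_ℂ :=
    (Equiv.hasSum_iff σ).2 (lp.hasSum_inner ζ η)
  exact h1.prod_fiberwise fun b => lp.hasSum_inner (fib e ζ b) (fib e η b)

/-- elementary tensors are total -/
theorem dense_span_tl : Dense (Submodule.span ℂ {ζ : L2 γ | ∃ ξ g, ζ = tl e ξ g} :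
    Set (L2 γ)) := by
  classical
  intro ζ
  have h := lp.hasSum_single (E := fun _ : γ => ℂ) (p := 2) (by norm_num) ζ
  refine mem_closure_of_tendsto h (Eventually.of_forall fun s => ?_)
  refine Submodule.sum_mem _ fun c _ => Submodule.subset_span ?_
  refine ⟨lp.single 2 (e c).1 (ζ c), lp.single 2 (e c).2 1, ?_⟩
  ext d
  rw [tl_apply, lp.single_apply, lp.single_apply, lp.single_apply]
  by_cases h1 : d = c
  · subst h1
    rw [Pi.single_eq_same, Pi.single_eq_same, Pi.single_eq_same, mul_one]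
  · rw [Pi.single_eq_of_ne h1]
    by_cases h2 : (e d).1 = (e c).1
    · have h3 : (e d).2 ≠ (e c).2 := fun h3 => h1 (e.injective (Prod.ext h2 h3))
      rw [Pi.single_eq_of_ne h3, mul_zero]
    · rw [Pi.single_eq_of_ne h2, zero_mul]

/-- continuous linear maps which agree on elementary tensors are equal -/
theorem ext_tl {F : Type*} [NormedAddCommGroup F] [NormedSpace ℂ F] {S T : L2 γ →L[ℂ] F}
    (h : ∀ ξ g, S (tl e ξ g) = T (tl e ξ g)) : S = T := by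
  refine ContinuousLinearMap.ext_on (dense_span_tl e) ?_
  rintro _ ⟨ξ, g, rfl⟩
  exact h ξ g

/-- operators with the same matrix elements at elementary tensors are equal -/
theorem ext_inner_tl {ε' : Type} (e' : ε' ≃ α × β) {S T : L2 γ →L[ℂ] L2 ε'}
    (h : ∀ ξ g ξ' g', ⟪tl e' ξ g, S (tl e ξ' g')⟫_ℂ = ⟪tl e' ξ g, T (tl e ξ' g')⟫_ℂ) : S = T := by
  refine ext_tl e fun ξ' g' => ?_
  have h1 : innerSL ℂ (S (tl e ξ' g')) = innerSL ℂ (T (tl e ξ' g')) := by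
    refine ext_tl e' fun ξ g => ?_
    rw [innerSL_apply_apply, innerSL_apply_apply, ← inner_conj_symm, h, inner_conj_symm]
  exact ext_inner_right ℂ fun v => DFunLike.congr_fun h1 v

end tensors

/-! ## Ampliations -/

section leg

variable (e : γ ≃ α × β)

theorem fib_tl (ξ : L2 α) (g : L2 β) (b : β) : fib e (tl e ξ g) b = g b • ξ := by
  ext a
  simp [mul_comm]

theorem fib_leg (T : Op α) (ζ : L2 γ) (b : β) : fib e (leg e T ζ) b = T (fib e ζ b) := by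
  ext a
  simp

theorem fib_ext {ζ η : L2 γ} (h : ∀ b, fib e ζ b = fib e η b) : ζ = η := by
  ext c
  have h1 := congrArg (fun f : L2 α => f (e c).1) (h (e c).2)
  simpa using h1

@[simp] theorem leg_tl (T : Op α) (ξ : L2 α) (g : L2 β) :
    leg e T (tl e ξ g) = tl e (T ξ) g := by
  refine fib_ext e fun b => ?_
  rw [fib_leg, fib_tl, fib_tl, map_smul]

theorem leg_mul (S T : Op α) : leg e (S * T) = leg e S * leg e T := by
  refine ext_tl e fun ξ g => ?_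
  change leg e (S * T) (tl e ξ g) = leg e S (leg e T (tl e ξ g))
  simp only [leg_tl]
  rfl

theorem leg_one : leg e (1 : Op α) = 1 := by
  refine ext_tl e fun ξ g => ?_
  rw [leg_tl]
  rfl

theorem leg_add (S T : Op α) : leg e (S + T) = leg e S + leg e T := by
  refine ext_tl e fun ξ g => ?_
  rw [add_apply, leg_tl, leg_tl, leg_tl, add_apply, tl_add_left]

theorem leg_smul (r : ℂ) (T : Op α) : leg e (r • T) = r • leg e T := by
  refine ext_tl e fun ξ g => ?_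
  rw [smul_apply, leg_tl, leg_tl, smul_apply, tl_smul_left]

theorem leg_zero : leg e (0 : Op α) = 0 := by
  refine ext_tl e fun ξ g => ?_
  rw [leg_tl, zero_apply, zero_apply, tl_zero_left]

theorem leg_sub (S T : Op α) : leg e (S - T) = leg e S - leg e T := by
  refine ext_tl e fun ξ g => ?_
  rw [sub_apply, leg_tl, leg_tl, leg_tl, sub_apply, tl_sub_left]

theorem leg_star (T : Op α) : leg e (star T) = star (leg e T) := by
  refine ext_inner_tl e e fun ξ g ξ' g' => ?_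
  rw [leg_tl, inner_tl, ContinuousLinearMap.star_eq_adjoint, ContinuousLinearMap.star_eq_adjoint,
    ContinuousLinearMap.adjoint_inner_right, ContinuousLinearMap.adjoint_inner_right, leg_tl,
    inner_tl]

theorem leg_unitary {T : Op α} (h : T ∈ unitary (Op α)) : leg e T ∈ unitary (Op γ) := by
  rw [Unitary.mem_iff] at h ⊢
  rw [← leg_star, ← leg_mul, ← leg_mul, h.1, h.2, leg_one]
  exact ⟨rfl, rfl⟩

theorem norm_leg_sub_le (S T : Op α) : ‖leg e S - leg e T‖ ≤ ‖S - T‖ := by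
  rw [← leg_sub]
  exact norm_leg_le e _

/-- the operator `1 ⊗ S` commutes with `T ⊗ 1` -/
theorem leg_comm (S : Op β) (T : Op α) :
    leg (e.trans (Equiv.prodComm α β)) S * leg e T =
      leg e T * leg (e.trans (Equiv.prodComm α β)) S := by
  have h : ∀ (ξ : L2 α) (g : L2 β), tl e ξ g = tl (e.trans (Equiv.prodComm α β)) g ξ := by
    intro ξ g
    ext c
    simp [mul_comm]
  refine ext_tl e fun ξ g => ?_
  change leg _ S (leg e T (tl e ξ g)) = leg e T (leg _ S (tl e ξ g))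
  rw [leg_tl, h, leg_tl, h, leg_tl, ← h, ← h, leg_tl]

end leg

theorem tl_swap (e : γ ≃ α × β) (ξ : L2 α) (g : L2 β) :
    tl (e.trans (Equiv.prodComm α β)) g ξ = tl e ξ g := by
  ext c
  simp [mul_comm]

/-! ## Two and three legs -/

theorem tn_eq (ξ : L2 α) (g : L2 β) : tn ξ g = tl (Equiv.refl (α × β)) ξ g := rfl

@[simp] theorem tn_apply (ξ : L2 α) (g : L2 β) (c : α × β) : tn ξ g c = ξ c.1 * g c.2 := rfl

theorem tn_add_left (ξ ξ' : L2 α) (g : L2 β) : tn (ξ + ξ') g = tn ξ g + tn ξ' g :=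
  tl_add_left _ _ _ _

theorem tn_add_right (ξ : L2 α) (g g' : L2 β) : tn ξ (g + g') = tn ξ g + tn ξ g' :=
  tl_add_right _ _ _ _

theorem tn_sub_left (ξ ξ' : L2 α) (g : L2 β) : tn (ξ - ξ') g = tn ξ g - tn ξ' g :=
  tl_sub_left _ _ _ _

theorem tn_sub_right (ξ : L2 α) (g g' : L2 β) : tn ξ (g - g') = tn ξ g - tn ξ g' :=
  tl_sub_right _ _ _ _

theorem tn_smul_left (r : ℂ) (ξ : L2 α) (g : L2 β) : tn (r • ξ) g = r • tn ξ g :=
  tl_smul_left _ _ _ _

theorem tn_smul_right (r : ℂ) (ξ : L2 α) (g : L2 β) : tn ξ (r • g) = r • tn ξ g :=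
  tl_smul_right _ _ _ _

theorem tn_zero_left (g : L2 β) : tn (0 : L2 α) g = 0 := tl_zero_left _ _

theorem tn_zero_right (ξ : L2 α) : tn ξ (0 : L2 β) = 0 := tl_zero_right _ _

theorem norm_tn (ξ : L2 α) (g : L2 β) : ‖tn ξ g‖ = ‖ξ‖ * ‖g‖ := norm_tl _ _ _

theorem inner_tn (ξ ξ' : L2 α) (g g' : L2 β) :
    ⟪tn ξ g, tn ξ' g'⟫_ℂ = ⟪ξ, ξ'⟫_ℂ * ⟪g, g'⟫_ℂ := inner_tl _ _ _ _ _

theorem star_tn (ξ : L2 α) (g : L2 β) : star (tn ξ g) = tn (star ξ) (star g) := star_tl _ _ _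

theorem tl_e12 (x : L2 α) (y : L2 β) (z : L2 γ) : tl e12 (tn x y) z = tn x (tn y z) := by
  ext c
  simp [e12, mul_assoc]

theorem tl_e13 (x : L2 α) (y : L2 β) (z : L2 γ) : tl e13 (tn x z) y = tn x (tn y z) := by
  ext c
  simp [e13]
  ring

theorem tl_e23 (x : L2 α) (y : L2 β) (z : L2 γ) : tl e23 (tn y z) x = tn x (tn y z) := by
  ext c
  simp [e23]
  ring

theorem tl_e23' (x : L2 α) (ζ : L2 (β × γ)) : tl e23 ζ x = tn x ζ := by
  ext c
  simp [e23, mul_comm]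

theorem dense_span_tn : Dense (Submodule.span ℂ {ζ : L2 (α × β) | ∃ ξ g, ζ = tn ξ g} :
    Set (L2 (α × β))) := dense_span_tl _

theorem ext_tn {F : Type*} [NormedAddCommGroup F] [NormedSpace ℂ F] {S T : L2 (α × β) →L[ℂ] F}
    (h : ∀ ξ g, S (tn ξ g) = T (tn ξ g)) : S = T := ext_tl _ h

theorem ext_inner_tn {S T : Op (α × β)}
    (h : ∀ ξ g ξ' g', ⟪tn ξ g, S (tn ξ' g')⟫_ℂ = ⟪tn ξ g, T (tn ξ' g')⟫_ℂ) : S = T :=
  ext_inner_tl _ _ h

/-- extensionality at `x ⊗ y ⊗ z` -/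
theorem ext_tn3 {F : Type*} [NormedAddCommGroup F] [NormedSpace ℂ F]
    {S T : L2 (α × β × γ) →L[ℂ] F}
    (h : ∀ x y z, S (tn x (tn y z)) = T (tn x (tn y z))) : S = T := by
  refine ext_tn fun x ζ => ?_
  have h1 : S.comp (emb' (Equiv.refl (α × β × γ)) x) = T.comp (emb' (Equiv.refl (α × β × γ)) x) :=
    ext_tn fun y z => h x y z
  exact DFunLike.congr_fun h1 ζ

theorem ext_inner_tn3 {S T : Op (α × β × γ)}
    (h : ∀ x y z x' y' z', ⟪tn x (tn y z), S (tn x' (tn y' z'))⟫_ℂ =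
      ⟪tn x (tn y z), T (tn x' (tn y' z'))⟫_ℂ) : S = T := by
  refine ext_tn3 fun x' y' z' => ?_
  have h1 : innerSL ℂ (S (tn x' (tn y' z'))) = innerSL ℂ (T (tn x' (tn y' z'))) := by
    refine ext_tn3 fun x y z => ?_
    rw [innerSL_apply_apply, innerSL_apply_apply, ← inner_conj_symm, h, inner_conj_symm]
  exact ext_inner_right ℂ fun v => DFunLike.congr_fun h1 v

theorem l12_tn (T : Op (α × β)) (x : L2 α) (y : L2 β) (z : L2 γ) :
    l12 T (tn x (tn y z)) = tl e12 (T (tn x y)) z := by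
  rw [l12, ← tl_e12, leg_tl]

theorem l13_tn (T : Op (α × γ)) (x : L2 α) (y : L2 β) (z : L2 γ) :
    l13 T (tn x (tn y z)) = tl e13 (T (tn x z)) y := by
  rw [l13, ← tl_e13, leg_tl]

theorem l23_tn (T : Op (β × γ)) (x : L2 α) (y : L2 β) (z : L2 γ) :
    l23 T (tn x (tn y z)) = tl e23 (T (tn y z)) x := by
  rw [l23, ← tl_e23, leg_tl]

theorem l23_tn' (T : Op (β × γ)) (x : L2 α) (ζ : L2 (β × γ)) :
    l23 T (tn x ζ) = tn x (T ζ) := by
  rw [l23, ← tl_e23', leg_tl, tl_e23']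

/-- `(x ⊗ h ⊗ u | T₁₂ (z ⊗ h' ⊗ y)) = (x ⊗ h | T (z ⊗ h')) (u | y)` -/
theorem inner_l12 (T : Op (α × β)) (x z : L2 α) (h h' : L2 β) (u y : L2 γ) :
    ⟪tn x (tn h u), l12 T (tn z (tn h' y))⟫_ℂ = ⟪tn x h, T (tn z h')⟫_ℂ * ⟪u, y⟫_ℂ := by
  rw [l12_tn, ← tl_e12, inner_tl]

/-- `(x ⊗ h ⊗ u | T₁₃ (z ⊗ h' ⊗ y)) = (x ⊗ u | T (z ⊗ y)) (h | h')` -/
theorem inner_l13 (T : Op (α × γ)) (x z : L2 α) (h h' : L2 β) (u y : L2 γ) :
    ⟪tn x (tn h u), l13 T (tn z (tn h' y))⟫_ℂ = ⟪tn x u, T (tn z y)⟫_ℂ * ⟪h, h'⟫_ℂ := by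
  rw [l13_tn, ← tl_e13, inner_tl]

/-- `(x ⊗ h ⊗ u | T₂₃ (z ⊗ h' ⊗ y)) = (h ⊗ u | T (h' ⊗ y)) (x | z)` -/
theorem inner_l23 (T : Op (β × γ)) (x z : L2 α) (h h' : L2 β) (u y : L2 γ) :
    ⟪tn x (tn h u), l23 T (tn z (tn h' y))⟫_ℂ = ⟪tn h u, T (tn h' y)⟫_ℂ * ⟪x, z⟫_ℂ := by
  rw [l23_tn, ← tl_e23, inner_tl]

theorem l12_star (T : Op (α × β)) : (l12 (star T) : Op (α × β × γ)) = star (l12 T) := leg_star _ _

theorem l13_star (T : Op (α × γ)) : (l13 (star T) : Op (α × β × γ)) = star (l13 T) := leg_star _ _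

theorem l23_star (T : Op (β × γ)) : (l23 (star T) : Op (α × β × γ)) = star (l23 T) := leg_star _ _

theorem l12_mul (S T : Op (α × β)) : (l12 (S * T) : Op (α × β × γ)) = l12 S * l12 T :=
  leg_mul _ _ _

theorem l13_mul (S T : Op (α × γ)) : (l13 (S * T) : Op (α × β × γ)) = l13 S * l13 T :=
  leg_mul _ _ _

theorem l23_mul (S T : Op (β × γ)) : (l23 (S * T) : Op (α × β × γ)) = l23 S * l23 T :=
  leg_mul _ _ _

theorem l12_one : (l12 1 : Op (α × β × γ)) = 1 := leg_one _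

theorem l13_one : (l13 1 : Op (α × β × γ)) = 1 := leg_one _

theorem l23_one : (l23 1 : Op (α × β × γ)) = 1 := leg_one _

/-! ## Slices -/

theorem adj_emb_tl (e : γ ≃ α × β) (g g' : L2 β) (ξ : L2 α) :
    ContinuousLinearMap.adjoint (emb e g) (tl e ξ g') = ⟪g, g'⟫_ℂ • ξ := by
  refine ext_inner_left ℂ fun v => ?_
  rw [ContinuousLinearMap.adjoint_inner_right, emb_apply, inner_tl, inner_smul_right, mul_comm]

theorem adj_emb'_tl (e : γ ≃ α × β) (ξ ξ' : L2 α) (g : L2 β) :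
    ContinuousLinearMap.adjoint (emb' e ξ) (tl e ξ' g) = ⟪ξ, ξ'⟫_ℂ • g := by
  refine ext_inner_left ℂ fun v => ?_
  rw [ContinuousLinearMap.adjoint_inner_right, emb'_apply, inner_tl, inner_smul_right]

theorem inner_sl (U : Op (κ × ι)) (u y : L2 ι) (x z : L2 κ) :
    ⟪x, sl U u y z⟫_ℂ = ⟪tn x u, U (tn z y)⟫_ℂ := by
  rw [sl, ContinuousLinearMap.comp_apply, ContinuousLinearMap.adjoint_inner_right]
  rfl

theorem inner_co (U : Op (κ × ι)) (x z : L2 κ) (u y : L2 ι) :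
    ⟪u, co U x z y⟫_ℂ = ⟪tn x u, U (tn z y)⟫_ℂ := by
  rw [co, ContinuousLinearMap.comp_apply, ContinuousLinearMap.adjoint_inner_right]
  rfl

theorem sl_star (U : Op (κ × ι)) (u y : L2 ι) : sl (star U) u y = star (sl U y u) := by
  refine ContinuousLinearMap.ext fun z => ext_inner_left ℂ fun x => ?_
  rw [inner_sl, ContinuousLinearMap.star_eq_adjoint, ContinuousLinearMap.star_eq_adjoint,
    ContinuousLinearMap.adjoint_inner_right, ContinuousLinearMap.adjoint_inner_right,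
    ← inner_conj_symm, ← inner_sl, inner_conj_symm]

theorem co_star (U : Op (κ × ι)) (x z : L2 κ) : co (star U) x z = star (co U z x) := by
  refine ContinuousLinearMap.ext fun y => ext_inner_left ℂ fun u => ?_
  rw [inner_co, ContinuousLinearMap.star_eq_adjoint, ContinuousLinearMap.star_eq_adjoint,
    ContinuousLinearMap.adjoint_inner_right, ContinuousLinearMap.adjoint_inner_right,
    ← inner_conj_symm, ← inner_co, inner_conj_symm]

end Pool.Agent.MQG
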