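import Pool.Agent.MQG.Legs

set_option autoImplicit false

/-!
# Conjugation, groups and trajectories on tensor products
-/

namespace Pool.Agent.MQG

open scoped InnerProductSpace InnerProduct Topology ComplexConjugate
open Complex Filter

variable {α β γ δ κ ι : Type}

/-! ## Conjugation -/

theorem inner_star_star (x y : L2 α) : ⟪star x, star y⟫_ℂ = ⟪y, x⟫_ℂ := by
  rw [lp.inner_eq_tsum, lp.inner_eq_tsum]
  refine tsum_congr fun i => ?_
  simp only [lp.star_apply, RCLike.inner_apply, RCLike.star_def, conj_conj]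
  ring

theorem inner_star_left (x y : L2 α) : ⟪star x, y⟫_ℂ = ⟪star y, x⟫_ℂ := by
  have h := inner_star_star x (star y)
  rwa [star_star] at h

theorem inner_star_right (x y : L2 α) : ⟪x, star y⟫_ℂ = ⟪y, star x⟫_ℂ := by
  have h := inner_star_star (star x) y
  rwa [star_star] at h

theorem cj_mul (S T : Op α) : cj (S * T) = cj S * cj T := by
  ext1 ξ
  change star (S (T (star ξ))) = star (S (star (star (T (star ξ)))))
  rw [star_star]

theorem cj_one : cj (1 : Op α) = 1 := by
  ext1 ξ
  change star (star ξ) = ξ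
  rw [star_star]

theorem cj_cj (T : Op α) : cj (cj T) = T := by
  ext1 ξ
  change star (star (T (star (star ξ)))) = T ξ
  rw [star_star, star_star]

theorem inner_cj (T : Op α) (x y : L2 α) : ⟪x, cj T y⟫_ℂ = ⟪T (star y), star x⟫_ℂ := by
  rw [cj_apply, inner_star_right]

theorem inner_cj_star (T : Op α) (x y : L2 α) :
    ⟪star x, cj T (star y)⟫_ℂ = ⟪T y, x⟫_ℂ := by
  rw [inner_cj, star_star, star_star]

theorem cj_star (T : Op α) : cj (star T) = star (cj T) := by
  refine ContinuousLinearMap.ext fun y => ext_inner_left ℂ fun x => ?_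
  rw [inner_cj, ContinuousLinearMap.star_eq_adjoint, ContinuousLinearMap.star_eq_adjoint,
    ContinuousLinearMap.adjoint_inner_left, ContinuousLinearMap.adjoint_inner_right,
    ← inner_conj_symm (cj T x) y, inner_cj, inner_conj_symm]

theorem cj_unitary {T : Op α} (h : T ∈ unitary (Op α)) : cj T ∈ unitary (Op α) := by
  rw [Unitary.mem_iff] at h ⊢
  rw [← cj_star, ← cj_mul, ← cj_mul, h.1, h.2, cj_one]
  exact ⟨rfl, rfl⟩

theorem cj_add (S T : Op α) : cj (S + T) = cj S + cj T := by
  ext1 ξ
  change star (S (star ξ) + T (star ξ)) = _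
  rw [star_add]
  rfl

theorem cj_leg (e : γ ≃ α × β) (T : Op α) : cj (leg e T) = leg e (cj T) := by
  refine ext_tl e fun ξ g => ?_
  rw [cj_apply, star_tl, leg_tl, star_tl, leg_tl, cj_apply, star_star]

theorem cj_l12 (T : Op (α × β)) : (cj (l12 T) : Op (α × β × γ)) = l12 (cj T) := cj_leg _ _

theorem cj_l13 (T : Op (α × γ)) : (cj (l13 T) : Op (α × β × γ)) = l13 (cj T) := cj_leg _ _

theorem cj_l23 (T : Op (β × γ)) : (cj (l23 T) : Op (α × β × γ)) = l23 (cj T) := cj_leg _ _

/-! ## Tensor products of operators -/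

theorem tens_tn (S : Op α) (T : Op β) (x : L2 α) (y : L2 β) :
    tens S T (tn x y) = tn (S x) (T y) := by
  have h : ∀ (x : L2 α) (y : L2 β), tn x y = tl (Equiv.prodComm α β) y x := by
    intro x y
    ext c
    simp [mul_comm]
  change leg _ S (leg _ T (tn x y)) = _
  rw [h x y, leg_tl, ← h, tn, leg_tl]
  rfl

theorem tens_mul (S S' : Op α) (T T' : Op β) :
    tens (S * S') (T * T') = tens S T * tens S' T' := by
  refine ext_tn fun x y => ?_
  change _ = tens S T (tens S' T' (tn x y))
  rw [tens_tn, tens_tn, tens_tn]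
  rfl

theorem tens_one : tens (1 : Op α) (1 : Op β) = 1 := by
  refine ext_tn fun x y => ?_
  rw [tens_tn]
  rfl

theorem tens_star (S : Op α) (T : Op β) : star (tens S T) = tens (star S) (star T) := by
  refine ext_inner_tn fun x y x' y' => ?_
  rw [ContinuousLinearMap.star_eq_adjoint, ContinuousLinearMap.adjoint_inner_right, tens_tn,
    tens_tn, inner_tn, inner_tn, ContinuousLinearMap.star_eq_adjoint,
    ContinuousLinearMap.star_eq_adjoint, ContinuousLinearMap.adjoint_inner_right,
    ContinuousLinearMap.adjoint_inner_right]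

theorem norm_tens_le (S : Op α) (T : Op β) : ‖tens S T‖ ≤ ‖S‖ * ‖T‖ :=
  (norm_mul_le _ _).trans (mul_le_mul (norm_leg_le _ _) (norm_leg_le _ _) (norm_nonneg _)
    (norm_nonneg _))

/-- the bilinear map `(x, y) ↦ x ⊗ y` -/
noncomputable def tnL : L2 α →L[ℂ] L2 β →L[ℂ] L2 (α × β) :=
  LinearMap.mkContinuous₂
    (LinearMap.mk₂ ℂ (fun x y => tn x y) (fun x x' y => tn_add_left x x' y)
      (fun c x y => tn_smul_left c x y) (fun x y y' => tn_add_right x y y')
      (fun c x y => tn_smul_right c x y)) 1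
    (fun x y => by
      rw [one_mul]
      exact (norm_tn x y).le)

theorem tnL_apply (x : L2 α) (y : L2 β) : tnL x y = tn x y := rfl

theorem continuous_tn {X : Type*} [TopologicalSpace X] {f : X → L2 α} {g : X → L2 β}
    (hf : Continuous f) (hg : Continuous g) : Continuous fun x => tn (f x) (g x) :=
  (tnL.continuous.comp hf).clm_apply hg

theorem differentiable_tn {f : ℂ → L2 α} {g : ℂ → L2 β} (hf : Differentiable ℂ f)
    (hg : Differentiable ℂ g) : Differentiable ℂ fun z => tn (f z) (g z) :=
  fun z => ((tnL (α := α) (β := β)).differentiableAt.comp z (hf z)).clm_apply (hg z)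

/-! ## Groups on tensor products -/

/-- tensor products of groups -/
theorem IsGroup.tens {V : ℝ → Op α} {V' : ℝ → Op β} (hV : IsGroup V) (hV' : IsGroup V') :
    IsGroup fun t => tens (V t) (V' t) where
  zero := by rw [hV.zero, hV'.zero, tens_one]
  add s t := by rw [hV.add, hV'.add, tens_mul]
  star_eq t := by rw [tens_star, hV.star_eq, hV'.star_eq]
  cont ζ := by
    have hn : ∀ t, ‖MQG.tens (V t) (V' t)‖ ≤ 1 := fun t =>
      (norm_tens_le _ _).trans (mul_le_one₀ (hV.norm_le t) (norm_nonneg _) (hV'.norm_le t))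
    -- the set of vectors with continuous orbit is closed
    rw [continuous_iff_continuousAt]
    intro t₀
    rw [Metric.continuousAt_iff']
    intro ε hε
    obtain ⟨η, hη, hd⟩ := Metric.mem_closure_iff.1 ((dense_span_tn (α := α) (β := β)) ζ) (ε / 3)
      (by positivity)
    have hc : Continuous fun t => MQG.tens (V t) (V' t) η := by
      refine Submodule.span_induction (p := fun η _ => Continuous fun t =>
        MQG.tens (V t) (V' t) η) ?_ ?_ ?_ ?_ hη
      · rintro _ ⟨x, y, rfl⟩
        simp only [tens_tn]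
        exact continuous_tn (hV.cont x) (hV'.cont y)
      · simp only [map_zero]
        exact continuous_const
      · intro a b _ _ ha hb
        simp only [map_add]
        exact ha.add hb
      · intro c a _ ha
        simp only [map_smul]
        exact ha.const_smul c
    have h1 := Metric.continuousAt_iff'.1 (hc.continuousAt (x := t₀)) (ε / 3) (by positivity)
    filter_upwards [h1] with t ht
    rw [dist_eq_norm] at hd ht ⊢
    have h2 : ∀ t, ‖MQG.tens (V t) (V' t) (ζ - η)‖ ≤ ‖ζ - η‖ := fun t => by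
      calc _ ≤ ‖MQG.tens (V t) (V' t)‖ * ‖ζ - η‖ := ContinuousLinearMap.le_opNorm _ _
        _ ≤ 1 * ‖ζ - η‖ := by gcongr; exact hn t
        _ = _ := one_mul _
    have e1 : MQG.tens (V t) (V' t) ζ - MQG.tens (V t₀) (V' t₀) ζ =
        MQG.tens (V t) (V' t) (ζ - η) +
        (MQG.tens (V t) (V' t) η - MQG.tens (V t₀) (V' t₀) η) -
        MQG.tens (V t₀) (V' t₀) (ζ - η) := by
      rw [map_sub, map_sub]
      abel
    rw [e1]
    calc _ ≤ ‖MQG.tens (V t) (V' t) (ζ - η)‖ +
          ‖MQG.tens (V t) (V' t) η - MQG.tens (V t₀) (V' t₀) η‖ +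
          ‖MQG.tens (V t₀) (V' t₀) (ζ - η)‖ :=
          (norm_sub_le _ _).trans (by gcongr; exact norm_add_le _ _)
      _ < ε := by linarith [h2 t, h2 t₀]

/-- tensor products of trajectories -/
theorem Traj.tn {V : ℝ → Op α} {V' : ℝ → Op β} {f : ℂ → L2 α} {g : ℂ → L2 β} (hf : Traj V f)
    (hg : Traj V' g) : Traj (fun t => MQG.tens (V t) (V' t)) fun z => MQG.tn (f z) (g z) := by
  refine ⟨differentiable_tn hf.1 hg.1, fun t => ?_⟩
  change MQG.tn (f t) (g t) = MQG.tens (V t) (V' t) (MQG.tn (f 0) (g 0))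
  rw [tens_tn, hf.2, hg.2]

/-- the conjugate group -/
theorem IsGroup.cj {V : ℝ → Op α} (hV : IsGroup V) : IsGroup fun t => MQG.cj (V t) where
  zero := by rw [hV.zero, cj_one]
  add s t := by rw [hV.add, cj_mul]
  star_eq t := by rw [← cj_star, hV.star_eq]
  cont ξ := by
    simp only [cj_apply]
    exact (hV.cont (star ξ)).star

/-- conjugates of trajectories -/
theorem Traj.cj {V : ℝ → Op α} {f : ℂ → L2 α} (hf : Traj V f) :
    Traj (fun t => MQG.cj (V t)) fun z => star (f (conj z)) := by
  refine ⟨fun z => ?_, fun t => ?_⟩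
  · have h2 := (hf.1 (conj z)).star_conj
    rw [conj_conj] at h2
    exact h2
  · change star (f (conj (t : ℂ))) = MQG.cj (V t) (star (f (conj 0)))
    rw [conj_ofReal, map_zero, cj_apply, star_star, hf.2]

end Pool.Agent.MQG
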