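import Pool.Agent.MQG.Model

set_option autoImplicit false

/-!
# The quantum group `G` of a manageable multiplicative unitary

Definitions for MP_a4f485_an.  `H = ℓ²(ι)`, `K = ℓ²(κ)`, `K ⊗ H = ℓ²(κ × ι)`; inner products are
linear in the second variable.
-/

namespace Pool.Agent.MQG.Lite

open scoped Topology
open Complex Filter

variable {α β γ κ κ' ι : Type}

/-! ## Hilbert spaces and operators -/

/-- The Hilbert space `ℓ²(α)`. -/
def Vec (α : Type) : Type := lp (fun _ : α => ℂ) 2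

noncomputable instance instNG (α : Type) : NormedAddCommGroup (Vec α) :=
  @lp.normedAddCommGroup α (fun _ => ℂ) 2 _ _

noncomputable instance instIP (α : Type) : InnerProductSpace ℂ (Vec α) :=
  @lp.instInnerProductSpace α ℂ _ (fun _ => ℂ) _ _

instance instCS (α : Type) : CompleteSpace (Vec α) :=
  @inferInstance (CompleteSpace (lp (fun _ : α => ℂ) 2)) _

/-- The coordinates of a vector. -/
def Vec.at (x : Vec α) (i : α) : ℂ := Subtype.val (p := fun f => f ∈ lp _ 2) x i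

/-- The inner product, linear in the second variable. -/
noncomputable def ip (x y : Vec α) : ℂ := inner ℂ x y

/-- The C*-algebra of the bounded operators on `ℓ²(α)`. -/
def BOp (α : Type) : Type := Vec α →L[ℂ] Vec α

@[irreducible] noncomputable def bopCA (α : Type) : CStarAlgebra (BOp α) :=
  @inferInstance (CStarAlgebra (Vec α →L[ℂ] Vec α)) _

noncomputable instance instCA (α : Type) : CStarAlgebra (BOp α) := bopCA α

/-- `T x` -/
noncomputable def BOp.app (T : BOp α) (x : Vec α) : Vec α :=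
  @DFunLike.coe (Vec α →L[ℂ] Vec α) (Vec α) (fun _ => Vec α) _ T x

theorem tn_mem (x : Vec α) (y : Vec β) :
    (fun p : α × β => x.at p.1 * y.at p.2) ∈ lp (fun _ : α × β => ℂ) 2 :=
  (MQG.tl (Equiv.refl (α × β)) x y).2

/-- `x ⊗ y` -/
noncomputable def tn (x : Vec α) (y : Vec β) : Vec (α × β) :=
  Subtype.mk (p := fun f => f ∈ lp _ 2) (fun p => x.at p.1 * y.at p.2) (tn_mem x y)

theorem conj_mem (x : Vec α) : (fun i => star (x.at i)) ∈ lp (fun _ : α => ℂ) 2 :=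
  (@star (L2 α) _ x).2

/-- The coordinatewise complex conjugate of a vector. -/
noncomputable def conj (x : Vec α) : Vec α :=
  Subtype.mk (p := fun f => f ∈ lp _ 2) (fun i => star (x.at i)) (conj_mem x)

/-- `U` is unitary. -/
def IsU (U : BOp α) : Prop := star U * U = 1 ∧ U * star U = 1

/-! ## Legs, adapted unitaries -/

/-- `S = T₁₂` -/
def Leg12 (T : BOp (α × β)) (S : BOp (α × β × γ)) : Prop :=
  ∀ (x x' : Vec α) (y y' : Vec β) (z z' : Vec γ),
    ip (tn x (tn y z)) (S.app (tn x' (tn y' z'))) = ip (tn x y) (T.app (tn x' y')) * ip z z'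

/-- `S = T₁₃` -/
def Leg13 (T : BOp (α × γ)) (S : BOp (α × β × γ)) : Prop :=
  ∀ (x x' : Vec α) (y y' : Vec β) (z z' : Vec γ),
    ip (tn x (tn y z)) (S.app (tn x' (tn y' z'))) = ip (tn x z) (T.app (tn x' z')) * ip y y'

/-- `S = T₂₃` -/
def Leg23 (T : BOp (β × γ)) (S : BOp (α × β × γ)) : Prop :=
  ∀ (x x' : Vec α) (y y' : Vec β) (z z' : Vec γ),
    ip (tn x (tn y z)) (S.app (tn x' (tn y' z'))) = ip (tn y z) (T.app (tn y' z')) * ip x x'

/-- `U ∈ B(K ⊗ H)` is a unitary adapted to `W ∈ B(H ⊗ H)`: `U₁₂ U₁₃ W₂₃ = W₂₃ U₁₂`. -/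
def Adapted (W : BOp (ι × ι)) (U : BOp (κ × ι)) : Prop :=
  IsU U ∧ ∃ U12 U13 W23 : BOp (κ × ι × ι), Leg12 U U12 ∧ Leg13 U U13 ∧ Leg23 W W23 ∧
    U12 * U13 * W23 = W23 * U12

/-! ## Manageable multiplicative unitaries -/

/-- A strongly continuous one-parameter group of unitary operators. -/
def IsGroup (V : ℝ → BOp α) : Prop :=
  V 0 = 1 ∧ (∀ s t, V (s + t) = V s * V t) ∧ (∀ t, star (V t) = V (-t)) ∧
    ∀ x, Continuous fun t => (V t).app x

/-- `f` is the entire extension of the orbit `t ↦ V t (f 0)`. -/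
def Traj (V : ℝ → BOp α) (f : ℂ → Vec α) : Prop :=
  Differentiable ℂ f ∧ ∀ t : ℝ, f t = (V t).app (f 0)

/-- A manageable multiplicative unitary (Woronowicz 1996) on `H = ℓ²(ι)`: a unitary `W` with
`W₁₂ W₁₃ W₂₃ = W₂₃ W₁₂`, a unitary `Wt` and a strictly positive operator `Q`, given by
`V t = Q^(2 i t)`, such that `W* (Q ⊗ Q) W = Q ⊗ Q` and
`(x ⊗ u | W (z ⊗ y)) = (conj z ⊗ Q u | Wt (conj x ⊗ Q⁻¹ y))`. -/
structure MU (ι : Type) where
  W : BOp (ι × ι)
  Wt : BOp (ι × ι)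
  V : ℝ → BOp ι
  W_adapted : Adapted W W
  Wt_unitary : IsU Wt
  V_group : IsGroup V
  inv : ∀ (t : ℝ) (x x' y y' : Vec ι),
    ip (tn ((V t).app x) ((V t).app y)) (W.app (tn ((V t).app x') ((V t).app y'))) =
      ip (tn x y) (W.app (tn x' y'))
  manageable : ∀ (x z : Vec ι) (f g : ℂ → Vec ι), Traj V f → Traj V g →
    ip (tn x (f 0)) (W.app (tn z (g 0))) =
      ip (tn (conj z) (f (-(I / 2)))) (Wt.app (tn (conj x) (g (I / 2))))

/-! ## Slices, the C*-algebras of slices -/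

/-- `T = (id ⊗ ω_{u,y})(U)` -/
def IsSl (U : BOp (κ × ι)) (u y : Vec ι) (T : BOp κ) : Prop :=
  ∀ x z : Vec κ, ip x (T.app z) = ip (tn x u) (U.app (tn z y))

/-- `T = (ω_{x,z} ⊗ id)(U)` -/
def IsCo (U : BOp (κ × ι)) (x z : Vec κ) (T : BOp ι) : Prop :=
  ∀ u y : Vec ι, ip u (T.app y) = ip (tn x u) (U.app (tn z y))

/-- The C*-algebra generated by a set of operators. -/
noncomputable def csGen (S : Set (BOp α)) : NonUnitalStarSubalgebra ℂ (BOp α) :=
  (NonUnitalStarAlgebra.adjoin ℂ S).topologicalClosure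

/-- The C*-algebra generated by the slices `(id ⊗ ω_{u,y})(U)`. -/
def Al (U : BOp (κ × ι)) : Type := ↥(csGen {T | ∃ u y, IsSl U u y T})

noncomputable instance instAl (U : BOp (κ × ι)) : NonUnitalCStarAlgebra (Al U) :=
  NonUnitalStarSubalgebra.nonUnitalCStarAlgebra (csGen {T | ∃ u y, IsSl U u y T})
    (h_closed := NonUnitalStarSubalgebra.isClosed_topologicalClosure _)

/-- The elements of `Al U` as operators. -/
def Al.op {U : BOp (κ × ι)} (a : Al U) : BOp κ := Subtype.val (p := fun T => T ∈ csGen _) a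

/-- The C*-algebra generated by the slices `(ω_{x,z} ⊗ id)(W)`: `C_0(G^)`. -/
noncomputable def B (W : BOp (ι × ι)) : Set (BOp ι) := csGen {T | ∃ x z, IsCo W x z T}

/-- The representations of `Al U` on `ℓ²(α)`. -/
def Rep (U : BOp (κ × ι)) (α : Type) : Type := Al U →⋆ₙₐ[ℂ] BOp α

/-- `π a` -/
noncomputable def Rep.app {U : BOp (κ × ι)} (π : Rep U α) (a : Al U) : BOp α :=
  @DFunLike.coe (Al U →⋆ₙₐ[ℂ] BOp α) (Al U) (fun _ => BOp α) _ π a

/-- `U' = (π ⊗ id)(U)` -/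
def IsRep (U : BOp (κ × ι)) (U' : BOp (α × ι)) (π : Rep U α) : Prop :=
  ∀ (u y : Vec ι) (a : Al U) (T : BOp α), IsSl U u y a.op → IsSl U' u y T → π.app a = T

/-- `U` is universal: it is adapted, and every adapted unitary is of the form `(π ⊗ id)(U)`.
Then `Al U` is `C_0^u(G)`. -/
def Universal (W : BOp (ι × ι)) (U : BOp (κ × ι)) : Prop :=
  Adapted W U ∧ ∀ (κ' : Type) (U' : BOp (κ' × ι)), Adapted W U' → ∃ π : Rep U κ', IsRep U U' π

/-! ## Functionals on `C_0^u(G)` -/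

/-- The dual Banach space of `Al U`. -/
def Du (U : BOp (κ × ι)) : Type := Al U →L[ℂ] ℂ

noncomputable instance instDu (U : BOp (κ × ι)) : NormedAddCommGroup (Du U) :=
  @inferInstance (NormedAddCommGroup (Al U →L[ℂ] ℂ)) _

/-- `μ a` -/
noncomputable def Du.ev {U : BOp (κ × ι)} (μ : Du U) (a : Al U) : ℂ :=
  @DFunLike.coe (Al U →L[ℂ] ℂ) (Al U) (fun _ => ℂ) _ μ a

/-- `μ` is a state. -/
def IsState {U : BOp (κ × ι)} (μ : Du U) : Prop :=
  ‖μ‖ = 1 ∧ ∀ a : Al U, ∃ r : ℝ, 0 ≤ r ∧ μ.ev (star a * a) = (r : ℂ)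

/-- `L = (μ ⊗ id)(U)` -/
def IsLam (U : BOp (κ × ι)) (μ : Du U) (L : BOp ι) : Prop :=
  ∀ (u y : Vec ι) (a : Al U), IsSl U u y a.op → ip u (L.app y) = μ.ev a

/-- `λ(μ) = (μ ⊗ id)(U)` -/
noncomputable def lam (U : BOp (κ × ι)) (μ : Du U) : BOp ι := Classical.epsilon (IsLam U μ)

/-- The convolution product, i.e. the functional with `λ(μ ⋆ ν) = λ(μ) λ(ν)`. -/
noncomputable def conv (U : BOp (κ × ι)) (μ ν : Du U) : Du U :=
  Classical.epsilon fun ρ : Du U => lam U ρ = lam U μ * lam U ν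

/-- The counit, i.e. the functional with `λ(ε) = 1`. -/
noncomputable def counit (U : BOp (κ × ι)) : Du U :=
  Classical.epsilon fun ρ : Du U => lam U ρ = 1

/-- `ω ∈ L^1(G)`: it is in the norm closure of the span of the functionals `(x | Λ(·) z)`, where
`Λ : C_0^u(G) → C_0(G) ⊆ B(H)` is the reducing homomorphism. -/
def L1 (W : BOp (ι × ι)) (U : BOp (κ × ι)) (ω : Du U) : Prop :=
  ∃ Λ : Rep U ι, IsRep U W Λ ∧ ∀ ε : ℝ, 0 < ε → ∃ (n : ℕ) (x z : Fin n → Vec ι),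
    ∀ a : Al U, ‖ω.ev a - ∑ i, ip (x i) ((Λ.app a).app (z i))‖ ≤ ε * ‖a‖

/-- `G` is amenable. (The net of states is given as a filter.) -/
def Amenable (W : BOp (ι × ι)) (U : BOp (κ × ι)) : Prop :=
  ∃ l : Filter (Du U), l.NeBot ∧ (∀ᶠ μ in l, L1 W U μ ∧ IsState μ) ∧
    ∀ ω, L1 W U ω → IsState ω → Tendsto (fun μ => ‖conv U ω μ - μ‖) l (𝓝 0)

/-- The Haagerup property of `G^`. -/
def Haagerup (W : BOp (ι × ι)) (U : BOp (κ × ι)) (T : Du U → BOp ι) : Prop :=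
  ∃ l : Filter (Du U), l.NeBot ∧ (∀ᶠ μ in l, IsState μ ∧ T μ ∈ B W) ∧
    ∀ b ∈ B W, Tendsto (fun μ => T μ * b) l (𝓝 b) ∧ Tendsto (fun μ => b * T μ) l (𝓝 b)

/-- Condition `(S_T)`. -/
def CondS (W : BOp (ι × ι)) (U : BOp (κ × ι)) (T : Du U → BOp ι) : Prop :=
  ∃ μ : ℝ → Du U, (∀ t, 0 ≤ t → IsState (μ t)) ∧ μ 0 = counit U ∧
    (∀ s t, 0 ≤ s → 0 ≤ t → μ (s + t) = conv U (μ s) (μ t)) ∧
    (∀ a, Tendsto (fun t => (μ t).ev a) (𝓝[>] 0) (𝓝 ((counit U).ev a))) ∧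
    (∀ ω, L1 W U ω → IsState ω → Tendsto (fun t => ‖conv U ω (μ t) - μ t‖) atTop (𝓝 0)) ∧
    ∀ t, 0 < t → T (μ t) ∈ B W

/-- `b = τ^_{i s}(a)` for `s > 0`, where `τ^_t(a) = V t a V(-t)` is the scaling group of `G^`: there
is a bounded function `F` on the strip `0 ≤ Im z ≤ s` with values in `B(H)`, weakly continuous and
analytic inside, with `F t = V t a V(-t)` for real `t` and `F (i s) = b`. -/
def IsTau (V : ℝ → BOp ι) (s : ℝ) (a b : BOp ι) : Prop :=
  ∃ F : ℂ → BOp ι,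
    (∀ u y, DiffContOnCl ℂ (fun z => ip u ((F z).app y)) {z | 0 < z.im ∧ z.im < s}) ∧
    (∃ C, ∀ z : ℂ, 0 ≤ z.im → z.im ≤ s → ‖F z‖ ≤ C) ∧
    (∀ t : ℝ, F t = V t * a * V (-t)) ∧ F (I * s) = b

end Pool.Agent.MQG.Lite
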