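import Pool.Agent.MQG.Lite
import Pool.Agent.MQG.Final

set_option autoImplicit false

/-!
# The definitions of `Lite` and those of `Defs`

`Vec α` is `L2 α` and `BOp α` is `Op α`.
-/

namespace Pool.Agent.MQG.Lite

open scoped InnerProductSpace InnerProduct Topology
open Complex Filter

variable {α β γ κ κ' ι : Type}

/-- The identity `Vec α ≃ L2 α`. -/
noncomputable def tv : Vec α ≃ₗᵢ[ℂ] L2 α where
  toFun x := x
  invFun x := x
  left_inv _ := rfl
  right_inv _ := rfl
  map_add' _ _ := rfl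
  map_smul' _ _ := rfl
  norm_map' _ := rfl

theorem ip_eq (x y : Vec α) : ip x y = ⟪tv x, tv y⟫_ℂ := rfl

theorem tv_tn (x : Vec α) (y : Vec β) : tv (tn x y) = MQG.tn (tv x) (tv y) := rfl

theorem tv_conj (x : Vec α) : tv (conj x) = star (tv x) := rfl

unseal bopCA in
/-- The identity `BOp α ≃ Op α`. -/
noncomputable def cv : BOp α ≃⋆ₐ[ℂ] Op α where
  toFun T := T
  invFun T := T
  left_inv _ := rfl
  right_inv _ := rfl
  map_add' _ _ := rfl
  map_mul' _ _ := rfl
  map_smul' _ _ := rfl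
  map_star' _ := rfl

unseal bopCA in
theorem norm_cv (T : BOp α) : ‖cv T‖ = ‖T‖ := rfl

theorem tv_app (T : BOp α) (x : Vec α) : tv (T.app x) = cv T (tv x) := rfl

theorem isU_iff (U : BOp α) : IsU U ↔ cv U ∈ unitary (Op α) := by
  rw [Unitary.mem_iff, IsU, ← map_star, ← map_mul, ← map_mul, ← map_one (cv : BOp α ≃⋆ₐ[ℂ] Op α),
    EmbeddingLike.apply_eq_iff_eq, EmbeddingLike.apply_eq_iff_eq]

theorem leg12_iff (T : BOp (α × β)) (S : BOp (α × β × γ)) :
    Leg12 T S ↔ cv S = l12 (cv T) := by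
  constructor
  · intro h
    refine ext_inner_tn3 fun x y z x' y' z' => ?_
    rw [inner_l12]
    exact h x x' y y' z z'
  · intro h x x' y y' z z'
    show ⟪MQG.tn (tv x) (MQG.tn (tv y) (tv z)),
      cv S (MQG.tn (tv x') (MQG.tn (tv y') (tv z')))⟫_ℂ = _
    rw [h, inner_l12]
    rfl

theorem leg13_iff (T : BOp (α × γ)) (S : BOp (α × β × γ)) :
    Leg13 T S ↔ cv S = l13 (cv T) := by
  constructor
  · intro h
    refine ext_inner_tn3 fun x y z x' y' z' => ?_
    rw [inner_l13]
    exact h x x' y y' z z'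
  · intro h x x' y y' z z'
    show ⟪MQG.tn (tv x) (MQG.tn (tv y) (tv z)),
      cv S (MQG.tn (tv x') (MQG.tn (tv y') (tv z')))⟫_ℂ = _
    rw [h, inner_l13]
    rfl

theorem leg23_iff (T : BOp (β × γ)) (S : BOp (α × β × γ)) :
    Leg23 T S ↔ cv S = l23 (cv T) := by
  constructor
  · intro h
    refine ext_inner_tn3 fun x y z x' y' z' => ?_
    rw [inner_l23]
    exact h x x' y y' z z'
  · intro h x x' y y' z z'
    show ⟪MQG.tn (tv x) (MQG.tn (tv y) (tv z)),
      cv S (MQG.tn (tv x') (MQG.tn (tv y') (tv z')))⟫_ℂ = _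
    rw [h, inner_l23]
    rfl

theorem adapted_iff (W : BOp (ι × ι)) (U : BOp (κ × ι)) :
    Adapted W U ↔ MQG.Adapted (cv W) (cv U) := by
  constructor
  · rintro ⟨h, U12, U13, W23, h12, h13, h23, he⟩
    refine ⟨(isU_iff U).1 h, ?_⟩
    rw [leg12_iff] at h12
    rw [leg13_iff] at h13
    rw [leg23_iff] at h23
    rw [← h12, ← h13, ← h23, ← map_mul, ← map_mul, ← map_mul, he]
  · rintro ⟨h, he⟩
    refine ⟨(isU_iff U).2 h, cv.symm (l12 (cv U)), cv.symm (l13 (cv U)), cv.symm (l23 (cv W)),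
      ?_, ?_, ?_, ?_⟩
    · rw [leg12_iff, StarAlgEquiv.apply_symm_apply]
    · rw [leg13_iff, StarAlgEquiv.apply_symm_apply]
    · rw [leg23_iff, StarAlgEquiv.apply_symm_apply]
    · rw [← map_mul, ← map_mul, ← map_mul, he]

theorem isSl_iff (U : BOp (κ × ι)) (u y : Vec ι) (T : BOp κ) :
    IsSl U u y T ↔ cv T = sl (cv U) (tv u) (tv y) := by
  constructor
  · intro h
    refine ContinuousLinearMap.ext fun z => ext_inner_left ℂ fun x => ?_
    rw [inner_sl]
    exact h x z
  · intro h x z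
    show ⟪tv x, cv T (tv z)⟫_ℂ = _
    rw [h, inner_sl]
    rfl

theorem isCo_iff (U : BOp (κ × ι)) (x z : Vec κ) (T : BOp ι) :
    IsCo U x z T ↔ cv T = co (cv U) (tv x) (tv z) := by
  constructor
  · intro h
    refine ContinuousLinearMap.ext fun y => ext_inner_left ℂ fun u => ?_
    rw [inner_co]
    exact h u y
  · intro h u y
    show ⟪tv u, cv T (tv y)⟫_ℂ = _
    rw [h, inner_co]
    rfl

theorem isGroup_iff (V : ℝ → BOp α) : IsGroup V ↔ MQG.IsGroup fun t => cv (V t) := by
  constructor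
  · rintro ⟨h0, h1, h2, h3⟩
    refine ⟨?_, fun s t => ?_, fun t => ?_, fun x => h3 x⟩
    · show cv (V 0) = 1
      rw [h0, map_one]
    · show cv (V (s + t)) = cv (V s) * cv (V t)
      rw [h1, map_mul]
    · show star (cv (V t)) = cv (V (-t))
      rw [← map_star, h2]
  · intro h
    refine ⟨?_, fun s t => ?_, fun t => ?_, fun x => h.cont x⟩
    · exact cv.injective ((h.zero).trans (map_one cv).symm)
    · exact cv.injective ((h.add s t).trans (map_mul cv _ _).symm)
    · exact cv.injective ((map_star cv _).trans (h.star_eq t))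

theorem traj_iff (V : ℝ → BOp α) (f : ℂ → Vec α) :
    Traj V f ↔ MQG.Traj (fun t => cv (V t)) (fun z => tv (f z)) := Iff.rfl

/-- The manageable multiplicative unitary with the old definitions. -/
noncomputable def toMU (M : MU ι) : MQG.MU ι where
  W := cv M.W
  Wt := cv M.Wt
  V t := cv (M.V t)
  W_unitary := ((adapted_iff _ _).1 M.W_adapted).unit
  Wt_unitary := (isU_iff _).1 M.Wt_unitary
  V_group := (isGroup_iff _).1 M.V_group
  pentagon := ((adapted_iff _ _).1 M.W_adapted).eq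
  inv t := by
    have hV := (isGroup_iff _).1 M.V_group
    have h1 : tens (cv (M.V t)) (cv (M.V t)) ∈ unitary (Op (ι × ι)) := by
      have h2 : cv (M.V t) ∈ unitary (Op ι) := by
        rw [Unitary.mem_iff]
        have e1 : star (cv (M.V t)) = cv (M.V (-t)) := hV.star_eq t
        have e2 : cv (M.V (-t + t)) = cv (M.V (-t)) * cv (M.V t) := hV.add (-t) t
        have e3 : cv (M.V (t + -t)) = cv (M.V t) * cv (M.V (-t)) := hV.add t (-t)
        rw [e1, ← e2, ← e3, neg_add_cancel, add_neg_cancel]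
        exact ⟨hV.zero, hV.zero⟩
      exact tens_unitary h2 h2
    have h3 : star (tens (cv (M.V t)) (cv (M.V t))) * cv M.W * tens (cv (M.V t)) (cv (M.V t)) =
        cv M.W := by
      refine ext_inner_tn fun x y x' y' => ?_
      rw [mul_apply_eq_comp, mul_apply_eq_comp,
        ContinuousLinearMap.star_eq_adjoint, ContinuousLinearMap.adjoint_inner_right, tens_tn,
        tens_tn]
      exact M.inv t x x' y y'
    have h4 := (Unitary.mem_iff.1 h1).2
    calc cv M.W * tens (cv (M.V t)) (cv (M.V t))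
        = tens (cv (M.V t)) (cv (M.V t)) * star (tens (cv (M.V t)) (cv (M.V t))) * cv M.W *
          tens (cv (M.V t)) (cv (M.V t)) := by rw [h4, one_mul]
      _ = tens (cv (M.V t)) (cv (M.V t)) * cv M.W := by
          rw [mul_assoc, mul_assoc, ← mul_assoc (star _), h3]
  manageable x z f g hf hg := M.manageable x z f g ((traj_iff _ _).2 hf) ((traj_iff _ _).2 hg)

/-! ## The C*-algebras -/

unseal bopCA in
theorem mem_csGen (S : Set (BOp α)) (S' : Set (Op α)) (h : ∀ T, T ∈ S ↔ cv T ∈ S') (T : BOp α) :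
    T ∈ csGen S ↔ cv T ∈ (NonUnitalStarAlgebra.adjoin ℂ S').topologicalClosure := by
  have h1 : S' = (S : Set (Op α)) := by
    ext T
    exact (h T).symm
  subst h1
  exact Iff.rfl

theorem mem_B_iff (W : BOp (ι × ι)) (b : BOp ι) : b ∈ B W ↔ cv b ∈ Balg (cv W) := by
  refine mem_csGen _ _ (fun T => ?_) b
  constructor
  · rintro ⟨x, z, h⟩
    exact ⟨tv x, tv z, (isCo_iff W x z T).1 h⟩
  · rintro ⟨x, z, h⟩
    exact ⟨x, z, (isCo_iff W x z T).2 h⟩

theorem mem_A_iff (U : BOp (κ × ι)) (a : BOp κ) :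
    a ∈ csGen {T | ∃ u y, IsSl U u y T} ↔ cv a ∈ Aalg (cv U) := by
  refine mem_csGen _ _ (fun T => ?_) a
  constructor
  · rintro ⟨u, y, h⟩
    exact ⟨tv u, tv y, (isSl_iff U u y T).1 h⟩
  · rintro ⟨u, y, h⟩
    exact ⟨u, y, (isSl_iff U u y T).2 h⟩

theorem op_mem {U : BOp (κ × ι)} (a : Al U) : a.op ∈ csGen {T | ∃ u y, IsSl U u y T} :=
  Subtype.property (p := fun T => T ∈ csGen _) a

theorem op_injective {U : BOp (κ × ι)} : Function.Injective (Al.op : Al U → BOp κ) :=
  fun _ _ h => Subtype.ext h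

theorem op_add {U : BOp (κ × ι)} (a b : Al U) : (a + b).op = a.op + b.op := rfl

theorem op_mul {U : BOp (κ × ι)} (a b : Al U) : (a * b).op = a.op * b.op := rfl

theorem op_smul {U : BOp (κ × ι)} (c : ℂ) (a : Al U) : (c • a).op = c • a.op := rfl

theorem op_star {U : BOp (κ × ι)} (a : Al U) : (star a).op = star a.op := rfl

theorem norm_op {U : BOp (κ × ι)} (a : Al U) : ‖a.op‖ = ‖a‖ := rfl


theorem op_mk {U : BOp (κ × ι)} (T : BOp κ) (h : T ∈ csGen {T | ∃ u y, IsSl U u y T}) :
    Al.op (U := U) (Subtype.mk (p := fun T => T ∈ csGen _) T h) = T := rfl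

/-- The identity `Al U → Al (cv U)`. -/
noncomputable def fA (U : BOp (κ × ι)) (a : Al U) : MQG.Al (cv U) :=
  mkA (cv a.op) ((mem_A_iff U _).1 (op_mem a))

theorem val_fA (U : BOp (κ × ι)) (a : Al U) : val (fA U a) = cv a.op := rfl

/-- The inverse of `fA`. -/
noncomputable def gA (U : BOp (κ × ι)) (a : MQG.Al (cv U)) : Al U :=
  Subtype.mk (p := fun T => T ∈ csGen _) (cv.symm (val a))
    ((mem_A_iff U _).2 (by rw [StarAlgEquiv.apply_symm_apply]; exact val_mem a))

theorem op_gA (U : BOp (κ × ι)) (a : MQG.Al (cv U)) : (gA U a).op = cv.symm (val a) := by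
  unfold gA
  exact op_mk _ _

theorem gA_fA (U : BOp (κ × ι)) (a : Al U) : gA U (fA U a) = a := by
  apply op_injective
  rw [op_gA, val_fA, StarAlgEquiv.symm_apply_apply]

theorem fA_gA (U : BOp (κ × ι)) (a : MQG.Al (cv U)) : fA U (gA U a) = a := by
  apply val_injective
  rw [val_fA, op_gA, StarAlgEquiv.apply_symm_apply]

theorem fA_add (U : BOp (κ × ι)) (a b : Al U) : fA U (a + b) = fA U a + fA U b := by
  apply val_injective
  rw [val_fA, op_add, map_add, map_add, val_fA, val_fA]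

theorem fA_mul (U : BOp (κ × ι)) (a b : Al U) : fA U (a * b) = fA U a * fA U b := by
  apply val_injective
  rw [val_fA, op_mul, map_mul, map_mul, val_fA, val_fA]

theorem fA_smul (U : BOp (κ × ι)) (c : ℂ) (a : Al U) : fA U (c • a) = c • fA U a := by
  apply val_injective
  rw [val_fA, op_smul, map_smul, map_smul, val_fA]

theorem fA_star (U : BOp (κ × ι)) (a : Al U) : fA U (star a) = star (fA U a) := by
  apply val_injective
  rw [val_fA, op_star, map_star, map_star, val_fA]

/-- The identity `Al U ≃ Al (cv U)`. -/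
noncomputable def eA (U : BOp (κ × ι)) : Al U ≃⋆ₐ[ℂ] MQG.Al (cv U) where
  toFun := fA U
  invFun := gA U
  left_inv := gA_fA U
  right_inv := fA_gA U
  map_add' := fA_add U
  map_mul' := fA_mul U
  map_smul' := fA_smul U
  map_star' := fA_star U

theorem val_eA (U : BOp (κ × ι)) (a : Al U) : val (eA U a) = cv a.op := rfl

theorem norm_eA (U : BOp (κ × ι)) (a : Al U) : ‖eA U a‖ = ‖a‖ := by
  rw [← norm_val, val_eA, norm_cv, norm_op]

theorem isSl_iff' (U : BOp (κ × ι)) (u y : Vec ι) (a : Al U) :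
    IsSl U u y a.op ↔ eA U a = asl (cv U) (tv u) (tv y) := by
  rw [isSl_iff]
  constructor
  · intro h
    exact val_injective (by rw [val_eA, h, val_asl])
  · intro h
    rw [← val_eA, h, val_asl]

/-- The linear isometry `Al U ≃ Al (cv U)`. -/
noncomputable def eL (U : BOp (κ × ι)) : Al U ≃ₗᵢ[ℂ] MQG.Al (cv U) where
  toFun := eA U
  invFun := (eA U).symm
  left_inv := (eA U).left_inv
  right_inv := (eA U).right_inv
  map_add' := map_add (eA U)
  map_smul' := map_smul (eA U)
  norm_map' := norm_eA U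

theorem eL_apply (U : BOp (κ × ι)) (a : Al U) : eL U a = eA U a := rfl

theorem eL_symm_apply (U : BOp (κ × ι)) (a : MQG.Al (cv U)) : (eL U).symm a = (eA U).symm a := rfl

end Pool.Agent.MQG.Lite
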