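import Pool.Agent.MQG.LiteB

set_option autoImplicit false

/-!
# The definitions of `Lite` and those of `Defs`: functionals
-/

namespace Pool.Agent.MQG.Lite

open scoped InnerProductSpace InnerProduct Topology
open Complex Filter

variable {α β γ κ κ' ι : Type}

theorem cv_injective : Function.Injective (cv : BOp α → Op α) := cv.injective

theorem ext_cv {S T : BOp α} (h : ∀ x y : Vec α, ⟪tv x, cv S (tv y)⟫_ℂ = ⟪tv x, cv T (tv y)⟫_ℂ) :
    cv S = cv T :=
  ContinuousLinearMap.ext fun y => ext_inner_left ℂ fun x => h x y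

/-! ## Functionals -/

theorem Du.ext {U : BOp (κ × ι)} {μ ν : Du U} (h : ∀ a, μ.ev a = ν.ev a) : μ = ν :=
  ContinuousLinearMap.ext h

theorem ev_sub {U : BOp (κ × ι)} (μ ν : Du U) (a : Al U) : (μ - ν).ev a = μ.ev a - ν.ev a := rfl

/-- A functional on `Al U` as a functional on `Al (cv U)`. -/
noncomputable def eD {U : BOp (κ × ι)} (μ : Du U) : MQG.Du (cv U) :=
  ContinuousLinearMap.comp (σ₁₂ := RingHom.id ℂ) (M₂ := Al U) (M₃ := ℂ) μ
    ((eL U).symm.toContinuousLinearEquiv : MQG.Al (cv U) →L[ℂ] Al U)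

/-- The inverse of `eD`. -/
noncomputable def gD {U : BOp (κ × ι)} (ν : MQG.Du (cv U)) : Du U :=
  ContinuousLinearMap.comp (σ₁₂ := RingHom.id ℂ) (M₁ := Al U) ν
    ((eL U).toContinuousLinearEquiv : Al U →L[ℂ] MQG.Al (cv U))

theorem eD_apply {U : BOp (κ × ι)} (μ : Du U) (a : MQG.Al (cv U)) :
    eD μ a = μ.ev ((eA U).symm a) := rfl

theorem eD_apply' {U : BOp (κ × ι)} (μ : Du U) (a : Al U) : eD μ (eA U a) = μ.ev a := by
  rw [eD_apply, StarAlgEquiv.symm_apply_apply]

theorem ev_gD {U : BOp (κ × ι)} (ν : MQG.Du (cv U)) (a : Al U) : (gD ν).ev a = ν (eA U a) := rfl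

theorem eD_gD {U : BOp (κ × ι)} (ν : MQG.Du (cv U)) : eD (gD ν) = ν := by
  refine ContinuousLinearMap.ext fun a => ?_
  rw [eD_apply, ev_gD, StarAlgEquiv.apply_symm_apply]

theorem gD_eD {U : BOp (κ × ι)} (μ : Du U) : gD (eD μ) = μ := by
  refine Du.ext fun a => ?_
  rw [ev_gD, eD_apply, StarAlgEquiv.symm_apply_apply]

theorem eD_injective {U : BOp (κ × ι)} : Function.Injective (eD : Du U → MQG.Du (cv U)) :=
  fun μ ν h => by rw [← gD_eD μ, ← gD_eD ν, h]

theorem norm_Du {U : BOp (κ × ι)} (μ : Du U) : ‖μ‖ = ‖eD μ‖ := by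
  rw [eD]
  exact (ContinuousLinearMap.opNorm_comp_linearIsometryEquiv (F := Al U) (G := ℂ) μ
    (eL U).symm).symm

theorem eD_sub {U : BOp (κ × ι)} (μ ν : Du U) : eD (μ - ν) = eD μ - eD ν := by
  refine ContinuousLinearMap.ext fun a => ?_
  rw [sub_apply, eD_apply, eD_apply, eD_apply, ev_sub]

theorem norm_sub_Du {U : BOp (κ × ι)} (μ ν : Du U) : ‖μ - ν‖ = ‖eD μ - eD ν‖ := by
  rw [norm_Du, eD_sub]

theorem isState_iff {U : BOp (κ × ι)} (μ : Du U) : IsState μ ↔ MQG.IsState (eD μ) := by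
  constructor
  · rintro ⟨h1, h2⟩
    refine ⟨by rw [← norm_Du, h1], fun a => ?_⟩
    obtain ⟨r, hr, h3⟩ := h2 ((eA U).symm a)
    refine ⟨r, hr, ?_⟩
    rw [eD_apply, map_mul, map_star, h3]
  · rintro ⟨h1, h2⟩
    refine ⟨by rw [norm_Du, h1], fun a => ?_⟩
    obtain ⟨r, hr, h3⟩ := h2 (eA U a)
    refine ⟨r, hr, ?_⟩
    rw [← h3, ← map_star, ← map_mul, eD_apply']

theorem isLam_iff {U : BOp (κ × ι)} (μ : Du U) (L : BOp ι) :
    IsLam U μ L ↔ cv L = MQG.lam (cv U) (eD μ) := by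
  constructor
  · intro h
    have key : ∀ u y : Vec ι,
        ⟪tv u, cv L (tv y)⟫_ℂ = ⟪tv u, MQG.lam (cv U) (eD μ) (tv y)⟫_ℂ := by
      intro u y
      rw [inner_lam, eD_apply]
      have h1 : IsSl U u y ((eA U).symm (asl (cv U) (tv u) (tv y))).op := by
        rw [isSl_iff', StarAlgEquiv.apply_symm_apply]
      exact h u y _ h1
    exact ContinuousLinearMap.ext fun y => ext_inner_left ℂ fun u => key u y
  · intro h u y a ha
    rw [isSl_iff'] at ha
    show ⟪tv u, cv L (tv y)⟫_ℂ = _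
    rw [h, inner_lam, ← ha, eD_apply']

theorem cv_lam {U : BOp (κ × ι)} (μ : Du U) : cv (lam U μ) = MQG.lam (cv U) (eD μ) := by
  refine (isLam_iff μ _).1 (Classical.epsilon_spec (p := IsLam U μ)
    ⟨cv.symm (MQG.lam (cv U) (eD μ)), (isLam_iff μ _).2 ?_⟩)
  rw [StarAlgEquiv.apply_symm_apply]

theorem isLam_iff_eq {U : BOp (κ × ι)} (μ : Du U) (L : BOp ι) : IsLam U μ L ↔ L = lam U μ := by
  rw [isLam_iff, ← cv_lam, EmbeddingLike.apply_eq_iff_eq]

/-- The facts on `λ`. -/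
structure Facts (U : BOp (κ × ι)) : Prop where
  inj : Function.Injective (MQG.lam (cv U))
  one : MQG.lam (cv U) (MQG.counit (cv U)) = 1
  mul : ∀ μ ν, MQG.lam (cv U) (MQG.conv (cv U) μ ν) = MQG.lam (cv U) μ * MQG.lam (cv U) ν

section facts

variable {U : BOp (κ × ι)} (h : Facts U)

include h

theorem lam_injective : Function.Injective (lam U) := by
  intro μ ν hμν
  refine eD_injective (h.inj ?_)
  rw [← cv_lam, ← cv_lam, hμν]

theorem lam_counit : lam U (counit U) = 1 := by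
  refine Classical.epsilon_spec (p := fun ρ : Du U => lam U ρ = 1)
    ⟨gD (MQG.counit (cv U)), cv_injective ?_⟩
  rw [cv_lam, eD_gD, h.one, map_one]

theorem lam_conv (μ ν : Du U) : lam U (conv U μ ν) = lam U μ * lam U ν := by
  refine Classical.epsilon_spec (p := fun ρ : Du U => lam U ρ = lam U μ * lam U ν)
    ⟨gD (MQG.conv (cv U) (eD μ) (eD ν)), cv_injective ?_⟩
  rw [cv_lam, eD_gD, h.mul, map_mul, cv_lam, cv_lam]

theorem eD_counit : eD (counit U) = MQG.counit (cv U) := by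
  refine h.inj ?_
  rw [← cv_lam, lam_counit h, h.one, map_one]

theorem eD_conv (μ ν : Du U) : eD (conv U μ ν) = MQG.conv (cv U) (eD μ) (eD ν) := by
  refine h.inj ?_
  rw [← cv_lam, lam_conv h, h.mul, map_mul, cv_lam, cv_lam]

end facts

/-! ## Representations -/

theorem app_add {U : BOp (κ × ι)} (π : Rep U α) (a b : Al U) :
    π.app (a + b) = π.app a + π.app b := map_add (F := Al U →⋆ₙₐ[ℂ] BOp α) π a b

theorem app_mul {U : BOp (κ × ι)} (π : Rep U α) (a b : Al U) :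
    π.app (a * b) = π.app a * π.app b := map_mul (F := Al U →⋆ₙₐ[ℂ] BOp α) π a b

theorem app_smul {U : BOp (κ × ι)} (π : Rep U α) (c : ℂ) (a : Al U) :
    π.app (c • a) = c • π.app a := map_smul (F := Al U →⋆ₙₐ[ℂ] BOp α) π c a

theorem app_zero {U : BOp (κ × ι)} (π : Rep U α) : π.app (0 : Al U) = 0 :=
  map_zero (F := Al U →⋆ₙₐ[ℂ] BOp α) π

theorem app_star {U : BOp (κ × ι)} (π : Rep U α) (a : Al U) :
    π.app (star a) = star (π.app a) := map_star (F := Al U →⋆ₙₐ[ℂ] BOp α) π a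

/-- A representation of `Al U` as a representation of `Al (cv U)`. -/
noncomputable def eR {U : BOp (κ × ι)} (π : Rep U α) : MQG.Al (cv U) →⋆ₙₐ[ℂ] Op α where
  toFun a := cv (π.app ((eA U).symm a))
  map_add' a b := by rw [map_add, app_add, map_add]
  map_mul' a b := by rw [map_mul, app_mul, map_mul]
  map_smul' c a := by rw [map_smul, app_smul, map_smul, MonoidHom.id_apply]
  map_zero' := by rw [map_zero, app_zero, map_zero]
  map_star' a := by rw [map_star, app_star, map_star]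

theorem eR_apply {U : BOp (κ × ι)} (π : Rep U α) (a : MQG.Al (cv U)) :
    eR π a = cv (π.app ((eA U).symm a)) := rfl

theorem eR_apply' {U : BOp (κ × ι)} (π : Rep U α) (a : Al U) :
    eR π (eA U a) = cv (π.app a) := by
  rw [eR_apply, StarAlgEquiv.symm_apply_apply]

theorem cvs_star (T : Op α) : cv.symm (star T) = star (cv.symm T) := map_star cv.symm T

theorem cvs_add (S T : Op α) : cv.symm (S + T) = cv.symm S + cv.symm T := map_add cv.symm S T

theorem cvs_mul (S T : Op α) : cv.symm (S * T) = cv.symm S * cv.symm T := map_mul cv.symm S T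

theorem cvs_smul (c : ℂ) (T : Op α) : cv.symm (c • T) = c • cv.symm T := map_smul cv.symm c T

theorem cvs_zero : cv.symm (0 : Op α) = 0 := map_zero cv.symm

/-- The inverse of `eR`, as a homomorphism. -/
noncomputable def gR' {U : BOp (κ × ι)} (π : MQG.Al (cv U) →⋆ₙₐ[ℂ] Op α) :
    Al U →⋆ₙₐ[ℂ] BOp α where
  toFun a := cv.symm (π (eA U a))
  map_add' a b := by rw [map_add, map_add, cvs_add]
  map_mul' a b := by rw [map_mul, map_mul, cvs_mul]
  map_smul' c a := by rw [map_smul, map_smul, cvs_smul, MonoidHom.id_apply]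
  map_zero' := by rw [map_zero, map_zero, cvs_zero]
  map_star' a := by rw [map_star, map_star, cvs_star]

/-- The inverse of `eR`. -/
noncomputable def gR {U : BOp (κ × ι)} (π : MQG.Al (cv U) →⋆ₙₐ[ℂ] Op α) : Rep U α := gR' π

theorem app_gR {U : BOp (κ × ι)} (π : MQG.Al (cv U) →⋆ₙₐ[ℂ] Op α) (a : Al U) :
    (gR π).app a = cv.symm (π (eA U a)) := rfl

theorem isRep_iff {U : BOp (κ × ι)} {U' : BOp (α × ι)} (π : Rep U α) :
    IsRep U U' π ↔ ∀ u y, eR π (asl (cv U) u y) = sl (cv U') u y := by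
  constructor
  · intro h
    have key : ∀ u y : Vec ι, eR π (asl (cv U) (tv u) (tv y)) = sl (cv U') (tv u) (tv y) := by
      intro u y
      have h1 : IsSl U u y ((eA U).symm (asl (cv U) (tv u) (tv y))).op := by
        rw [isSl_iff', StarAlgEquiv.apply_symm_apply]
      have h2 : IsSl U' u y (cv.symm (sl (cv U') (tv u) (tv y))) := by
        rw [isSl_iff, StarAlgEquiv.apply_symm_apply]
      rw [eR_apply, h u y _ _ h1 h2, StarAlgEquiv.apply_symm_apply]
    exact key
  · intro h u y a T ha hT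
    rw [isSl_iff'] at ha
    rw [isSl_iff] at hT
    refine cv_injective ?_
    rw [hT, ← h, ← eR_apply', ha]

theorem isRep_gR {U : BOp (κ × ι)} {U' : BOp (α × ι)} (π : MQG.Al (cv U) →⋆ₙₐ[ℂ] Op α)
    (h : ∀ u y, π (asl (cv U) u y) = sl (cv U') u y) : IsRep U U' (gR π) := by
  rw [isRep_iff]
  intro u y
  rw [eR_apply, app_gR, StarAlgEquiv.apply_symm_apply, StarAlgEquiv.apply_symm_apply, h]

theorem universal_iff (W : BOp (ι × ι)) (U : BOp (κ × ι)) :
    Universal W U ↔ MQG.Universal (cv W) (cv U) := by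
  constructor
  · rintro ⟨h1, h2⟩
    refine ⟨(adapted_iff W U).1 h1, fun κ' U' hU' => ?_⟩
    obtain ⟨π, hπ⟩ := h2 κ' (cv.symm U') ((adapted_iff _ _).2 (by
      rw [StarAlgEquiv.apply_symm_apply]; exact hU'))
    rw [isRep_iff, StarAlgEquiv.apply_symm_apply] at hπ
    exact ⟨eR π, hπ⟩
  · intro h
    refine ⟨(adapted_iff W U).2 h.adapted, fun κ' U' hU' => ?_⟩
    obtain ⟨π, hπ⟩ := h.lift κ' (cv U') ((adapted_iff _ _).1 hU')
    exact ⟨gR π, isRep_gR π hπ⟩

end Pool.Agent.MQG.Lite
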