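import Pool.Agent.MQG.LiteC

set_option autoImplicit false

/-!
# The definitions of `Lite` and those of `Defs`: the conditions, and the final statement
-/

namespace Pool.Agent.MQG.Lite

open scoped InnerProductSpace InnerProduct Topology
open Complex Filter

variable {α β γ κ κ' ι : Type}

/-! ## `L^1(G)` -/

theorem hom_ext {W : Op (κ × ι)}
    (dns : Dense (Submodule.span ℂ {a : MQG.Al W | ∃ u y, a = asl W u y} : Set (MQG.Al W)))
    (Λ Λ' : MQG.Al W →⋆ₙₐ[ℂ] Op α) (h : ∀ u y, Λ (asl W u y) = Λ' (asl W u y)) :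
    ∀ a, Λ a = Λ' a := by
  have hc : ∀ Λ : MQG.Al W →⋆ₙₐ[ℂ] Op α, Continuous Λ := fun Λ =>
    AddMonoidHomClass.continuous_of_bound Λ 1 fun a => by
      rw [one_mul]
      exact NonUnitalStarAlgHom.norm_apply_le Λ a
  have h1 : Set.EqOn Λ Λ' (Submodule.span ℂ {a : MQG.Al W | ∃ u y, a = asl W u y} : Set _) := by
    intro a ha
    induction ha using Submodule.span_induction with
    | mem a ha =>
      obtain ⟨u, y, rfl⟩ := ha
      exact h u y
    | zero => rw [map_zero, map_zero]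
    | add a b _ _ ha hb => rw [map_add, map_add, ha, hb]
    | smul c a _ ha => rw [map_smul, map_smul, ha]
  exact fun a => congrFun (Continuous.ext_on dns (hc Λ) (hc Λ') h1) a

theorem l1_iff {W : BOp (ι × ι)} {U : BOp (κ × ι)} (hU : MQG.Universal (cv W) (cv U))
    (hWW : MQG.Adapted (cv W) (cv W))
    (dns : Dense (Submodule.span ℂ {a : MQG.Al (cv U) | ∃ u y, a = asl (cv U) u y} :
      Set (MQG.Al (cv U)))) (ω : Du U) : L1 W U ω ↔ eD ω ∈ MQG.L1 (cv W) (cv U) := by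
  constructor
  · rintro ⟨Λ, hΛ, h⟩
    rw [isRep_iff] at hΛ
    show eD ω ∈ closure _
    refine Metric.mem_closure_iff.2 fun ε hε => ?_
    obtain ⟨n, x, z, h1⟩ := h (ε / 2) (half_pos hε)
    refine ⟨∑ i, H39.vecFun (eR Λ) (tv (x i)) (tv (z i)), Submodule.sum_mem _ fun i _ =>
      Submodule.subset_span ⟨eR Λ, hΛ, tv (x i), tv (z i), fun a => rfl⟩, ?_⟩
    rw [dist_eq_norm]
    refine lt_of_le_of_lt (ContinuousLinearMap.opNorm_le_bound _ (half_pos hε).le fun a => ?_)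
      (half_lt_self hε)
    have h2 := h1 ((eA U).symm a)
    have h3 : ‖(eA U).symm a‖ = ‖a‖ := by
      rw [← norm_eA, StarAlgEquiv.apply_symm_apply]
    rw [h3] at h2
    rw [sub_apply, sum_apply, eD_apply]
    exact h2
  · intro h
    obtain ⟨Λ', hΛ'⟩ := hU.lift ι (cv W) hWW
    refine ⟨gR Λ', isRep_gR Λ' hΛ', fun ε hε => ?_⟩
    have h0 : eD ω ∈ closure (Submodule.span ℂ {ω : MQG.Du (cv U) |
      ∃ Λ : MQG.Al (cv U) →⋆ₙₐ[ℂ] Op ι, (∀ u y, Λ (asl (cv U) u y) = sl (cv W) u y) ∧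
        ∃ x z, ∀ a, ω a = ⟪x, Λ a z⟫_ℂ} : Set (MQG.Du (cv U))) := h
    obtain ⟨σ, hσ, h1⟩ := Metric.mem_closure_iff.1 h0 ε hε
    have h2 : ∃ (n : ℕ) (x z : Fin n → L2 ι), ∀ a, σ a = ∑ i, ⟪x i, Λ' a (z i)⟫_ℂ := by
      clear h1
      induction hσ using Submodule.span_induction with
      | mem σ hσ =>
        obtain ⟨Λ, hΛ, x, z, h3⟩ := hσ
        refine ⟨1, fun _ => x, fun _ => z, fun a => ?_⟩
        rw [h3, Fin.sum_univ_one, hom_ext dns Λ Λ' (fun u y => by rw [hΛ, hΛ']) a]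
      | zero => exact ⟨0, fun _ => 0, fun _ => 0, fun a => by simp⟩
      | add σ τ _ _ hσ hτ =>
        obtain ⟨n, x, z, h3⟩ := hσ
        obtain ⟨m, x', z', h4⟩ := hτ
        refine ⟨n + m, Fin.append x x', Fin.append z z', fun a => ?_⟩
        rw [add_apply, h3, h4, Fin.sum_univ_add]
        simp only [Fin.append_left, Fin.append_right]
      | smul c σ _ hσ =>
        obtain ⟨n, x, z, h3⟩ := hσ
        refine ⟨n, x, fun i => c • z i, fun a => ?_⟩
        rw [smul_apply, h3, smul_eq_mul, Finset.mul_sum]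
        refine Finset.sum_congr rfl fun i _ => ?_
        rw [map_smul, inner_smul_right]
    obtain ⟨n, x, z, h3⟩ := h2
    refine ⟨n, x, z, fun a => ?_⟩
    rw [dist_eq_norm] at h1
    have h4 := ((eD ω - σ).le_opNorm (eA U a)).trans
      (mul_le_mul_of_nonneg_right h1.le (norm_nonneg _))
    rw [norm_eA, sub_apply, eD_apply', h3] at h4
    exact h4

/-! ## The conditions -/

section

variable {W : BOp (ι × ι)} {U : BOp (κ × ι)} (h : Facts U)
  (hL : ∀ ω : Du U, L1 W U ω ↔ eD ω ∈ MQG.L1 (cv W) (cv U))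

include h in
theorem norm_conv_sub (ω μ : Du U) :
    ‖conv U ω μ - μ‖ = ‖MQG.conv (cv U) (eD ω) (eD μ) - eD μ‖ := by
  rw [norm_sub_Du, eD_conv h]

include h hL in
theorem amenable_iff : Amenable W U ↔ MQG.Amenable (cv W) (cv U) := by
  constructor
  · rintro ⟨l, hl, h1, h2⟩
    refine ⟨l.map eD, hl.map eD, ?_, fun ω hω hs => ?_⟩
    · rw [eventually_map]
      exact h1.mono fun μ hμ => ⟨(hL μ).1 hμ.1, (isState_iff μ).1 hμ.2⟩
    · rw [tendsto_map'_iff]
      have h3 := h2 (gD ω) ((hL _).2 (by rw [eD_gD]; exact hω))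
        ((isState_iff _).2 (by rw [eD_gD]; exact hs))
      refine h3.congr fun μ => ?_
      rw [norm_conv_sub h, eD_gD]
      rfl
  · rintro ⟨l, hl, h1, h2⟩
    refine ⟨l.map gD, hl.map gD, ?_, fun ω hω hs => ?_⟩
    · rw [eventually_map]
      exact h1.mono fun μ hμ => ⟨(hL _).2 (by rw [eD_gD]; exact hμ.1),
        (isState_iff _).2 (by rw [eD_gD]; exact hμ.2)⟩
    · rw [tendsto_map'_iff]
      refine (h2 (eD ω) ((hL ω).1 hω) ((isState_iff ω).1 hs)).congr fun μ => ?_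
      show _ = ‖conv U ω (gD μ) - gD μ‖
      rw [norm_conv_sub h, eD_gD]

theorem tendsto_cv {X : Type} {l : Filter X} (f : X → BOp α) (b : BOp α) :
    Tendsto f l (𝓝 b) ↔ Tendsto (fun x => cv (f x)) l (𝓝 (cv b)) := by
  have h1 : ∀ x, ‖f x - b‖ = ‖cv (f x) - cv b‖ := fun x => by rw [← map_sub, norm_cv]
  refine tendsto_iff_norm_sub_tendsto_zero.trans
    (Iff.trans ?_ tendsto_iff_norm_sub_tendsto_zero.symm)
  exact ⟨fun h => h.congr h1, fun h => h.congr fun x => (h1 x).symm⟩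

theorem haagerup_iff (T : Du U → BOp ι) (T' : MQG.Du (cv U) → Op ι)
    (hT : ∀ μ, cv (T μ) = T' (eD μ)) : Haagerup W U T ↔ MQG.Haagerup (cv W) (cv U) T' := by
  constructor
  · rintro ⟨l, hl, h1, h2⟩
    refine ⟨l.map eD, hl.map eD, ?_, fun b hb => ?_⟩
    · rw [eventually_map]
      exact h1.mono fun μ hμ => ⟨(isState_iff μ).1 hμ.1, by
        rw [← hT]
        exact (mem_B_iff W _).1 hμ.2⟩
    · have h3 := h2 (cv.symm b) ((mem_B_iff W _).2 (by
        rw [StarAlgEquiv.apply_symm_apply]; exact hb))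
      rw [tendsto_cv, tendsto_cv] at h3
      simp only [map_mul, hT, StarAlgEquiv.apply_symm_apply] at h3
      rw [tendsto_map'_iff, tendsto_map'_iff]
      exact h3
  · rintro ⟨l, hl, h1, h2⟩
    refine ⟨l.map gD, hl.map gD, ?_, fun b hb => ?_⟩
    · rw [eventually_map]
      exact h1.mono fun μ hμ => ⟨(isState_iff _).2 (by rw [eD_gD]; exact hμ.1),
        (mem_B_iff W _).2 (by rw [hT, eD_gD]; exact hμ.2)⟩
    · have h3 := h2 (cv b) ((mem_B_iff W _).1 hb)
      rw [tendsto_map'_iff, tendsto_map'_iff, tendsto_cv, tendsto_cv]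
      simp only [Function.comp_def, map_mul, hT, eD_gD]
      exact h3

include h hL in
theorem condS_iff (T : Du U → BOp ι) (T' : MQG.Du (cv U) → Op ι)
    (hT : ∀ μ, cv (T μ) = T' (eD μ)) : CondS W U T ↔ MQG.CondS (cv W) (cv U) T' := by
  constructor
  · rintro ⟨μ, h1, h2, h3, h4, h5, h6⟩
    refine ⟨fun t => eD (μ t), fun t ht => (isState_iff _).1 (h1 t ht), ?_, fun s t hs ht => ?_,
      fun a => ?_, fun ω hω hs => ?_, fun t ht => ?_⟩
    · show eD (μ 0) = _
      rw [h2, eD_counit h]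
    · show eD (μ (s + t)) = _
      rw [h3 s t hs ht, eD_conv h]
    · have := h4 ((eA U).symm a)
      rw [← eD_counit h]
      exact this
    · have h7 := h5 (gD ω) ((hL _).2 (by rw [eD_gD]; exact hω))
        ((isState_iff _).2 (by rw [eD_gD]; exact hs))
      refine h7.congr fun t => ?_
      rw [norm_conv_sub h, eD_gD]
    · show T' (eD (μ t)) ∈ _
      rw [← hT]
      exact (mem_B_iff W _).1 (h6 t ht)
  · rintro ⟨μ, h1, h2, h3, h4, h5, h6⟩
    refine ⟨fun t => gD (μ t), fun t ht => (isState_iff _).2 (by rw [eD_gD]; exact h1 t ht), ?_,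
      fun s t hs ht => ?_, fun a => ?_, fun ω hω hs => ?_, fun t ht => ?_⟩
    · refine eD_injective ?_
      rw [eD_gD, h2, eD_counit h]
    · refine eD_injective ?_
      rw [eD_gD, h3 s t hs ht, eD_conv h, eD_gD, eD_gD]
    · have h7 := h4 (eA U a)
      rw [← eD_counit h, eD_apply'] at h7
      exact h7
    · refine (h5 (eD ω) ((hL ω).1 hω) ((isState_iff ω).1 hs)).congr fun t => ?_
      rw [norm_conv_sub h, eD_gD]
    · exact (mem_B_iff W _).2 (by rw [hT, eD_gD]; exact h6 t ht)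

end

theorem isTau_iff (V : ℝ → BOp ι) (s : ℝ) (a b : BOp ι) :
    IsTau V s a b ↔ MQG.IsTau (fun t => cv (V t)) s (cv a) (cv b) := by
  constructor
  · rintro ⟨F, h1, ⟨C, h2⟩, h3, h4⟩
    refine ⟨fun z => cv (F z), fun u y => h1 u y, ⟨C, fun z hz hz' => ?_⟩, fun t => ?_, ?_⟩
    · rw [norm_cv]
      exact h2 z hz hz'
    · show cv (F t) = cv (V t) * cv a * cv (V (-t))
      rw [h3, map_mul, map_mul]
    · show cv (F (I * s)) = cv b
      rw [h4]
  · rintro ⟨F, h1, ⟨C, h2⟩, h3, h4⟩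
    refine ⟨fun z => cv.symm (F z), fun u y => h1 u y, ⟨C, fun z hz hz' => ?_⟩, fun t => ?_, ?_⟩
    · rw [← norm_cv, StarAlgEquiv.apply_symm_apply]
      exact h2 z hz hz'
    · refine cv_injective ?_
      rw [StarAlgEquiv.apply_symm_apply, h3, map_mul, map_mul]
    · show cv.symm (F (I * s)) = b
      rw [h4, StarAlgEquiv.symm_apply_apply]

/-! ## The final statement -/

theorem facts {ι : Type} [Countable ι] [Nonempty ι] (M : MU ι) {κ : Type} (U : BOp (κ × ι))
    (hU : Universal M.W U) : Facts U := by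
  have h := (Final.final ι (toMU M)).2 κ (cv U) ((universal_iff M.W U).1 hU)
  exact ⟨h.1.1, h.1.2.1, h.1.2.2⟩

theorem l1_iff' {ι : Type} [Countable ι] [Nonempty ι] (M : MU ι) {κ : Type} (U : BOp (κ × ι))
    (hU : Universal M.W U) (ω : Du U) : L1 M.W U ω ↔ eD ω ∈ MQG.L1 (cv M.W) (cv U) :=
  l1_iff ((universal_iff M.W U).1 hU) ((adapted_iff _ _).1 M.W_adapted)
    (Final.dns ι (toMU M) κ (cv U) ((universal_iff M.W U).1 hU).adapted) ω

theorem exists_universal {ι : Type} [Countable ι] [Nonempty ι] (M : MU ι) :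
    ∃ (κ : Type) (U : BOp (κ × ι)), Universal M.W U := by
  obtain ⟨κ, WW, h⟩ := (Final.final ι (toMU M)).1
  refine ⟨κ, cv.symm WW, (universal_iff _ _).2 ?_⟩
  rw [StarAlgEquiv.apply_symm_apply]
  exact h

theorem lam_facts {ι : Type} [Countable ι] [Nonempty ι] (M : MU ι) {κ : Type} (U : BOp (κ × ι))
    (hU : Universal M.W U) : (∀ μ L, IsLam U μ L ↔ L = lam U μ) ∧ Function.Injective (lam U) ∧
      lam U (counit U) = 1 ∧ ∀ μ ν, lam U (conv U μ ν) = lam U μ * lam U ν :=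
  ⟨isLam_iff_eq, lam_injective (facts M U hU), lam_counit (facts M U hU),
    lam_conv (facts M U hU)⟩

theorem q1 {ι : Type} [Countable ι] [Nonempty ι] (M : MU ι) {κ : Type} (U : BOp (κ × ι))
    (hU : Universal M.W U) :
    (Amenable M.W U ∧ Haagerup M.W U (lam U)) ↔ CondS M.W U (lam U) := by
  rw [amenable_iff (facts M U hU) (l1_iff' M U hU), haagerup_iff (lam U) (MQG.lam (cv U)) cv_lam,
    condS_iff (facts M U hU) (l1_iff' M U hU) (lam U) (MQG.lam (cv U)) cv_lam]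
  exact ((Final.final ι (toMU M)).2 κ (cv U) ((universal_iff M.W U).1 hU)).2.1

theorem q2 {ι : Type} [Countable ι] [Nonempty ι] (M : MU ι) {κ : Type} (U : BOp (κ × ι))
    (hU : Universal M.W U) :
    ∃ lamt : Du U → BOp ι, (∀ μ b, IsTau M.V (1 / 4) (lam U μ) b ↔ b = lamt μ) ∧
      (Haagerup M.W U (lam U) ↔ Haagerup M.W U lamt) ∧
      ((Amenable M.W U ∧ Haagerup M.W U (lam U)) ↔ CondS M.W U lamt) := by
  obtain ⟨T, h1, h2, h3⟩ :=
    ((Final.final ι (toMU M)).2 κ (cv U) ((universal_iff M.W U).1 hU)).2.2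
  have hT : ∀ μ : Du U, cv ((fun μ : Du U => cv.symm (T (eD μ))) μ) = T (eD μ) := fun μ => by
    rw [StarAlgEquiv.apply_symm_apply]
  refine ⟨fun μ => cv.symm (T (eD μ)), fun μ b => ?_, ?_, ?_⟩
  · rw [isTau_iff, cv_lam, ← cv_injective.eq_iff, hT μ]
    exact h1 (eD μ) (cv b)
  · rw [haagerup_iff (lam U) (MQG.lam (cv U)) cv_lam, haagerup_iff _ T hT]
    exact h2
  · rw [amenable_iff (facts M U hU) (l1_iff' M U hU), haagerup_iff (lam U) (MQG.lam (cv U)) cv_lam,
      condS_iff (facts M U hU) (l1_iff' M U hU) _ T hT]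
    exact h3

end Pool.Agent.MQG.Lite
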