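import Mathlib

set_option autoImplicit false

/-!
# The concrete model of Hilbert spaces and of their tensor products

`L2 α = ℓ²(α)`; the Hilbert space tensor product `ℓ²(α) ⊗ ℓ²(β)` is `ℓ²(α × β)`.
-/

namespace Pool.Agent.MQG

open scoped InnerProductSpace InnerProduct

/-- The Hilbert space `ℓ²(α)`. -/
abbrev L2 (α : Type) : Type := lp (fun _ : α => ℂ) 2

/-- The bounded operators on `ℓ²(α)`. -/
abbrev Op (α : Type) : Type := L2 α →L[ℂ] L2 α

variable {α β γ : Type}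

theorem summable_sq (f : L2 α) : Summable fun i => ‖f i‖ ^ 2 := by
  have h := (lp.memℓp f).summable (by norm_num)
  simpa using h

theorem norm_sq_eq (f : L2 α) : ‖f‖ ^ 2 = ∑' i, ‖f i‖ ^ 2 := by
  have h := lp.norm_rpow_eq_tsum (p := 2) (by norm_num) f
  simpa using h

theorem memℓ2 {f : α → ℂ} (h : Summable fun i => ‖f i‖ ^ 2) : Memℓp f 2 :=
  memℓp_gen (by simpa using h)

/-- The elementary tensor `ξ ⊗ g ∈ ℓ²(γ)`, for an identification `e` of `γ` with `α × β`. -/
noncomputable def tl (e : γ ≃ α × β) (ξ : L2 α) (g : L2 β) : L2 γ :=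
  ⟨fun c => ξ (e c).1 * g (e c).2, memℓ2 (by
    have h := (summable_sq ξ).mul_of_nonneg (summable_sq g) (fun _ => by positivity)
      (fun _ => by positivity)
    have h2 := h.comp_injective e.injective
    refine h2.congr fun c => ?_
    simp [mul_pow])⟩

@[simp] theorem tl_apply (e : γ ≃ α × β) (ξ : L2 α) (g : L2 β) (c : γ) :
    tl e ξ g c = ξ (e c).1 * g (e c).2 := rfl

/-- The function `a ↦ ζ(a, b)`, for an identification `e` of `γ` with `α × β`. -/
noncomputable def fib (e : γ ≃ α × β) (ζ : L2 γ) (b : β) : L2 α :=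
  ⟨fun a => ζ (e.symm (a, b)), memℓ2 (by
    have h := (summable_sq ζ).comp_injective
      (i := fun a : α => e.symm (a, b)) (fun x y hxy => by simpa using hxy)
    exact h)⟩

@[simp] theorem fib_apply (e : γ ≃ α × β) (ζ : L2 γ) (b : β) (a : α) :
    fib e ζ b a = ζ (e.symm (a, b)) := rfl

theorem hasSum_fib (e : γ ≃ α × β) (ζ : L2 γ) : HasSum (fun b => ‖fib e ζ b‖ ^ 2) (‖ζ‖ ^ 2) := by
  have h0 : Summable fun c => ‖ζ c‖ ^ 2 := summable_sq ζ
  let σ : β × α ≃ γ := (Equiv.prodComm β α).trans e.symm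
  have h1 : HasSum (fun p : β × α => ‖ζ (σ p)‖ ^ 2) (‖ζ‖ ^ 2) := by
    rw [norm_sq_eq]
    exact (Equiv.hasSum_iff σ).2 h0.hasSum
  refine h1.prod_fiberwise fun b => ?_
  rw [norm_sq_eq]
  exact (summable_sq (fib e ζ b)).hasSum

theorem hasSum_glue (e : γ ≃ α × β) (φ : β → L2 α) (h : Summable fun b => ‖φ b‖ ^ 2) :
    HasSum (fun c : γ => ‖φ (e c).2 (e c).1‖ ^ 2) (∑' b, ‖φ b‖ ^ 2) := by
  let σ : β × α ≃ γ := (Equiv.prodComm β α).trans e.symm
  have h2 : Summable fun p : β × α => ‖φ p.1 p.2‖ ^ 2 := by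
    rw [summable_prod_of_nonneg (fun _ => by positivity)]
    refine ⟨fun b => summable_sq (φ b), ?_⟩
    simpa only [← norm_sq_eq] using h
  have h3 : HasSum (fun p : β × α => ‖φ p.1 p.2‖ ^ 2) (∑' b, ‖φ b‖ ^ 2) := by
    have h4 : ∑' b, ‖φ b‖ ^ 2 = ∑' p : β × α, ‖φ p.1 p.2‖ ^ 2 := by
      rw [h2.tsum_prod]
      exact tsum_congr fun b => norm_sq_eq (φ b)
    rw [h4]
    exact h2.hasSum
  exact (Equiv.hasSum_iff σ.symm).2 h3

/-- The ampliation `T ⊗ 1 ∈ B(ℓ²(γ))` of `T ∈ B(ℓ²(α))`, for an identification `e` of `γ` with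
`α × β`: the operator `T` acts on the first coordinate, `(T ⊗ 1)ζ (·, b) = T (ζ(·, b))`. -/
noncomputable def leg (e : γ ≃ α × β) (T : Op α) : Op γ :=
  LinearMap.mkContinuous
    { toFun := fun ζ => ⟨fun c => T (fib e ζ (e c).2) (e c).1, memℓ2 (hasSum_glue e
        (fun b => T (fib e ζ b)) (by
          refine Summable.of_nonneg_of_le (fun _ => by positivity)
            (fun b => ?_) ((hasSum_fib e ζ).summable.mul_left (‖T‖ ^ 2))
          rw [← mul_pow]
          exact pow_le_pow_left₀ (norm_nonneg _) (T.le_opNorm _) 2)).summable⟩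
      map_add' := fun ζ η => by
        ext c
        have h : fib e (ζ + η) (e c).2 = fib e ζ (e c).2 + fib e η (e c).2 := by
          ext a; simp
        simp [h]
      map_smul' := fun r ζ => by
        ext c
        have h : fib e (r • ζ) (e c).2 = r • fib e ζ (e c).2 := by
          ext a; simp
        simp [h] }
    ‖T‖ (fun ζ => by
      refine abs_le_of_sq_le_sq' ?_ (by positivity) |>.2
      have h1 : Summable fun b => ‖T (fib e ζ b)‖ ^ 2 := by
        refine Summable.of_nonneg_of_le (fun _ => by positivity)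
            (fun b => ?_) ((hasSum_fib e ζ).summable.mul_left (‖T‖ ^ 2))
        rw [← mul_pow]
        exact pow_le_pow_left₀ (norm_nonneg _) (T.le_opNorm _) 2
      rw [norm_sq_eq]
      have h2 := (hasSum_glue e (fun b => T (fib e ζ b)) h1).tsum_eq
      simp only [LinearMap.coe_mk, AddHom.coe_mk]
      rw [h2, mul_pow, ← (hasSum_fib e ζ).tsum_eq, ← tsum_mul_left]
      refine h1.tsum_le_tsum (fun b => ?_) ((hasSum_fib e ζ).summable.mul_left (‖T‖ ^ 2))
      rw [← mul_pow]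
      exact pow_le_pow_left₀ (norm_nonneg _) (T.le_opNorm _) 2)

@[simp] theorem leg_apply (e : γ ≃ α × β) (T : Op α) (ζ : L2 γ) (c : γ) :
    leg e T ζ c = T (fib e ζ (e c).2) (e c).1 := rfl

theorem norm_leg_le (e : γ ≃ α × β) (T : Op α) : ‖leg e T‖ ≤ ‖T‖ :=
  LinearMap.mkContinuous_norm_le _ (norm_nonneg _) _

theorem norm_tl (e : γ ≃ α × β) (ξ : L2 α) (g : L2 β) : ‖tl e ξ g‖ = ‖ξ‖ * ‖g‖ := by
  have h : ‖tl e ξ g‖ ^ 2 = (‖ξ‖ * ‖g‖) ^ 2 := by
    rw [norm_sq_eq, mul_pow, norm_sq_eq ξ, norm_sq_eq g,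
      (summable_sq ξ).tsum_mul_tsum (summable_sq g)
        ((summable_sq ξ).mul_of_nonneg (summable_sq g) (fun _ => by positivity)
          (fun _ => by positivity))]
    rw [← Equiv.tsum_eq e]
    refine tsum_congr fun c => ?_
    simp [mul_pow]
  exact (pow_left_inj₀ (norm_nonneg _) (by positivity) two_ne_zero).1 h

/-- `ξ ↦ ξ ⊗ g`. -/
noncomputable def emb (e : γ ≃ α × β) (g : L2 β) : L2 α →L[ℂ] L2 γ :=
  LinearMap.mkContinuous
    { toFun := fun ξ => tl e ξ g
      map_add' := fun ξ η => by ext c; simp [add_mul]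
      map_smul' := fun r ξ => by ext c; simp [mul_assoc] }
    ‖g‖ (fun ξ => by simp [norm_tl, mul_comm])

/-- `g ↦ ξ ⊗ g`. -/
noncomputable def emb' (e : γ ≃ α × β) (ξ : L2 α) : L2 β →L[ℂ] L2 γ :=
  LinearMap.mkContinuous
    { toFun := fun g => tl e ξ g
      map_add' := fun ξ η => by ext c; simp [mul_add]
      map_smul' := fun r ξ => by ext c; simp [mul_left_comm] }
    ‖ξ‖ (fun g => by simp [norm_tl])

@[simp] theorem emb_apply (e : γ ≃ α × β) (ξ : L2 α) (g : L2 β) : emb e g ξ = tl e ξ g := rfl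

@[simp] theorem emb'_apply (e : γ ≃ α × β) (ξ : L2 α) (g : L2 β) : emb' e ξ g = tl e ξ g := rfl

theorem emb_add (e : γ ≃ α × β) (g h : L2 β) : emb e (g + h) = emb e g + emb e h := by
  ext ξ c; simp [mul_add]

theorem emb_smul (e : γ ≃ α × β) (r : ℂ) (g : L2 β) : emb e (r • g) = r • emb e g := by
  ext ξ c; simp [mul_left_comm]

theorem emb'_add (e : γ ≃ α × β) (g h : L2 α) : emb' e (g + h) = emb' e g + emb' e h := by
  ext ξ c; simp [add_mul]

theorem emb'_smul (e : γ ≃ α × β) (r : ℂ) (g : L2 α) : emb' e (r • g) = r • emb' e g := by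
  ext ξ c; simp [mul_assoc]

theorem norm_emb_le (e : γ ≃ α × β) (g : L2 β) : ‖emb e g‖ ≤ ‖g‖ :=
  LinearMap.mkContinuous_norm_le _ (norm_nonneg _) _

theorem norm_emb'_le (e : γ ≃ α × β) (g : L2 α) : ‖emb' e g‖ ≤ ‖g‖ :=
  LinearMap.mkContinuous_norm_le _ (norm_nonneg _) _

end Pool.Agent.MQG
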