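import Pool.Agent.MQG.Core

set_option autoImplicit false

/-!
# Statements of block A: manageable multiplicative unitaries

Notation of the proofs: `x ⊗ y` is `tn x y`, `bar y` is `star y`, `C` is `star`, `W^ = cj M.Wt`.  For a
trajectory `f` of `M.V` (`Traj M.V f`, `f 0` is an entire vector) `Q (f 0)` is `f (-(I / 2))` and
`Q⁻¹ (f 0)` is `f (I / 2)`; shifts of trajectories are trajectories (`Traj.shift`),
`⟪f (z + w), g w'⟫ = ⟪f z, g (w' - conj w)⟫` (`Traj.inner_shift`), values of trajectories at any point are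
total (`total_traj`).  Import `Pool.Agent.MQG.StmtsA`; the calculus is in `Legs`, `Legs2`, `Legs3`,
`Core`, `Grp`, `Gauss`: please look at the names there first (`core`, `IsHat.sl`, `IsHat.front`, `sl_l12`,
`sl_l12_mul_l13`, `sl_l23_mul`, `co12`, `emb_tn12`, `adj_e13_l13`, `inner_tn_tl_e13`, `Total.*`,
`sl_mem_of_total`, `co_mem_of_total`, `Traj.inner_const`, `IsGroup.tens`, `IsGroup.cj`, `Traj.tn`, `Traj.cj`).
-/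

namespace Pool.Agent.MQG

open scoped InnerProductSpace InnerProduct Topology ComplexConjugate
open Complex Filter

/-! ## 1. The operator `U^` -/

/-- COM: `Wt` commutes with `C V_t C ⊗ V_t`, and `W^ = cj Wt` with `V_t ⊗ C V_t C`.

Proof.  Write `u = f 0`, `y = g 0` (trajectories).  By `manageable`, `inv` and `V_t` unitary
(`f (· + t)` is a trajectory, `f t = V_t u`, `f (t - I/2) = V_t f (-I/2)`):
`⟪bar z ⊗ f (-I/2), Wt (bar x ⊗ g (I/2))⟫ = ⟪x ⊗ u, W (z ⊗ y)⟫ = ⟪V_t x ⊗ V_t u, W (V_t z ⊗ V_t y)⟫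
= ⟪bar (V_t z) ⊗ V_t f (-I/2), Wt (bar (V_t x) ⊗ V_t g (I/2))⟫
= ⟪T (bar z ⊗ f (-I/2)), Wt T (bar x ⊗ g (I/2))⟫` with `T = tens (cj V_t) V_t` unitary.  The vectors
`bar z ⊗ f (-I/2)` and `bar x ⊗ g (I/2)` are total: `T* Wt T = Wt`.  The second claim: apply `cj`
(`cj_mul`, `cj_tens`, `cj_cj`). -/
def ComStmt : Prop := ∀ (ι : Type) (M : MU ι) (t : ℝ),
  M.Wt * tens (cj (M.V t)) (M.V t) = tens (cj (M.V t)) (M.V t) * M.Wt ∧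
  cj M.Wt * tens (M.V t) (cj (M.V t)) = tens (M.V t) (cj (M.V t)) * cj M.Wt

/-- HAW: `W^ = cj Wt` is the operator `U^` for `U = W`.

Proof.  `a = f 0`, `b = g 0`.  `⟪x ⊗ bar a, C Wt C (z ⊗ bar b)⟫ = ⟪Wt (bar z ⊗ b), bar x ⊗ a⟫` (`inner_cj`,
`star_tn`).  `manageable` with `x := z`, `z := x`, the trajectories `F w = f (w + I/2)`, `G w = g (w - I/2)`
(`F (-I/2) = a`, `G (I/2) = b`, `F 0 = f (I/2)`, `G 0 = g (-I/2)`):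
`⟪z ⊗ f (I/2), W (x ⊗ g (-I/2))⟫ = ⟪bar x ⊗ a, Wt (bar z ⊗ b)⟫`; take complex conjugates. -/
def HawStmt : Prop := ∀ (ι : Type) (M : MU ι), IsHat M.V M.W (cj M.Wt)

/-- `Y = U₁₂* W^₂₃ U₁₂ W^₂₃*` on `K ⊗ H ⊗ H`; it will be `U^₁₃`. -/
noncomputable def Yop {ι κ : Type} (M : MU ι) (U : Op (κ × ι)) : Op (κ × ι × ι) :=
  star (l12 U) * l23 (cj M.Wt) * l12 U * star (l23 (cj M.Wt))

/-- YID: the first identity for `Y`.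

Proof.  `Y W^₂₃ = U₁₂* W^₂₃ U₁₂` (`cj Wt` is unitary), so the left side is
`⟪U₁₂ (x ⊗ h ⊗ bar a), W^₂₃ U₁₂ (z ⊗ h' ⊗ bar b)⟫ = ⟪tl e12 (U (x ⊗ h)) (bar a), W^₂₃ (tl e12 (U (z ⊗ h')) (bar b))⟫`
(`l12_tn`), by HAW and `IsHat.front` it is
`⟪tl e12 (U (x ⊗ h)) (g (-I/2)), W₂₃* (tl e12 (U (z ⊗ h')) (f (I/2)))⟫ =
⟪x ⊗ h ⊗ g (-I/2), U₁₂* W₂₃* U₁₂ (z ⊗ h' ⊗ f (I/2))⟫`, and `U₁₂* W₂₃ U₁₂ = U₁₃ W₂₃` (adapted), so
`U₁₂* W₂₃* U₁₂ = W₂₃* U₁₃*`. -/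
def YidStmt : Prop := ∀ (ι : Type) (M : MU ι) (κ : Type) (U : Op (κ × ι)), Adapted M.W U →
  ∀ (x z : L2 κ) (h h' : L2 ι) (f g : ℂ → L2 ι), Traj M.V f → Traj M.V g →
  ⟪tn x (tn h (star (f 0))), Yop M U (l23 (cj M.Wt) (tn z (tn h' (star (g 0)))))⟫_ℂ =
    ⟪tn x (tn h (g (-(I / 2)))), star (l23 M.W) (star (l13 U) (tn z (tn h' (f (I / 2)))))⟫_ℂ

/-- YLI: the second identity for `Y`.

Proof.  Write `h = k 0`, `a = f 0`, `D_t = V_t ⊗ C V_t C` (a group, `IsGroup.tens`, `IsGroup.cj`; it commutes with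
`W^`, COM) and `p = (emb' x)† (U* (z ⊗ f (I/2))) ∈ H`, i.e. `⟪v, p⟫ = ⟪x ⊗ v, U* (z ⊗ f (I/2))⟫`.
(1) For `h' ∈ H` and a trajectory `g` the right side of YID is
`⟪x ⊗ W (h ⊗ g (-I/2)), tl e13 (U* (z ⊗ f (I/2))) h'⟫ = ⟪W (h ⊗ g (-I/2)), h' ⊗ p⟫ = ⟪h ⊗ g (-I/2), W* (h' ⊗ p)⟫`
(`l23_tn'`, `l13_tn`, `inner_tn_tl_e13`).
(2) Claim: for trajectories `m`, `g` and `Z w := W^ (m w ⊗ bar (g (conj w)))`
`⟪h ⊗ g (-I/2), W* (m 0 ⊗ p)⟫ = ⟪k (-I/2) ⊗ bar p, Z (I/2)⟫`.  Both sides are linear and continuous in `p`, so let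
`p = c 0`, `c` a trajectory.  HAW with `c~ w = c (w - I/2)`: the left side is `⟪h ⊗ bar (c (-I/2)), W^ (m 0 ⊗ bar (g 0))⟫`
`= ⟪Ξ (I/2), Z 0⟫` with `Ξ w = k (w - I/2) ⊗ bar (c (conj w))`.  `Ξ` and `Z` are trajectories of `D` (`Traj.tn`,
`Traj.cj`, `Traj.map`), `Traj.inner_shift`: `⟪Ξ (0 + I/2), Z 0⟫ = ⟪Ξ 0, Z (0 - conj (I/2))⟫ = ⟪Ξ 0, Z (I/2)⟫`, and
`Ξ 0 = k (-I/2) ⊗ bar p`.
(3) Let `F₁ ζ = ⟪x ⊗ h ⊗ bar a, Y (x ↦ z ⊗ ζ)⟫`, i.e. `F₁ ζ = ⟪x ⊗ (h ⊗ bar a), Y (z ⊗ ζ)⟫`, `F₂ ζ = ⟪k (-I/2) ⊗ bar p, ζ⟫`.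
By YID, (1), (2) `F₁ (Z 0) = F₂ (Z (I/2))` for all `Z` as in (2) (`Y (z ⊗ W^ ζ) = Y W^₂₃ (z ⊗ ζ)`, `l23_tn'`).
These `Z` are invariant under real shifts and their values at `0` are total (`W^` unitary; `total_traj`,
`total_star`, `Total.tn`; the image of a total set under a surjective continuous linear map is total).  By `core`
it holds for all trajectories of `D`, in particular for `Z w = k' w ⊗ bar (v (conj w))`: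
`Z (I/2) = k' (I/2) ⊗ bar (v (-I/2))` and `F₂ (Z (I/2)) = ⟪k (-I/2), k' (I/2)⟫ ⟪bar p, bar (v (-I/2))⟫ =
⟪k 0, k' 0⟫ ⟪v (-I/2), p⟫` (`Traj.inner_shift`, `inner_star_star`), which is the right side. -/
def YliStmt : Prop := ∀ (ι : Type) (M : MU ι) (κ : Type) (U : Op (κ × ι)), Adapted M.W U →
  ∀ (x z : L2 κ) (k k' f v : ℂ → L2 ι), Traj M.V k → Traj M.V k' → Traj M.V f → Traj M.V v →
  ⟪tn x (tn (k 0) (star (f 0))), Yop M U (tn z (tn (k' 0) (star (v 0))))⟫_ℂ =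
    ⟪k 0, k' 0⟫_ℂ * ⟪tn x (v (-(I / 2))), star U (tn z (f (I / 2)))⟫_ℂ

/-- HTE: existence of `U^`.

Proof.  If `ι` is empty take `Uh = 1` (all vectors are `0`).  Otherwise let `e` be a unit vector of `H`
(`lp.single`) and `Uh := (emb e13 e)† ∘ Y ∘ emb e13 e` (`e` in the second leg).  By YLI and continuity in `k 0`, `k' 0`
(values of trajectories are dense), for all `h, h' ∈ H` and trajectories `f`, `v`:
`⟪x ⊗ h ⊗ bar (f 0), Y (z ⊗ h' ⊗ bar (v 0))⟫ = ⟪h, h'⟫ ⟪x ⊗ v (-I/2), U* (z ⊗ f (I/2))⟫` (*).  With `h = h' = e`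
this is `IsHat M.V U Uh` (`tl_e13`).  Again by (*) `Y` and `l13 Uh` have the same matrix elements at
`x ⊗ h ⊗ bar (f 0)`, `z ⊗ h' ⊗ bar (v 0)` (`inner_l13`), which are total: `Y = l13 Uh`.  `Y` is a product of
unitaries, so `l13 (Uh* Uh) = Y* Y = 1 = l13 1`, `l13 (Uh Uh*) = 1`, and `l13` is injective (`leg_injective`). -/
def HteStmt : Prop := ∀ (ι : Type) (M : MU ι) (κ : Type) (U : Op (κ × ι)), Adapted M.W U →
  ∃ Uh : Op (κ × ι), Uh ∈ unitary (Op (κ × ι)) ∧ IsHat M.V U Uh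

/-! ## 2. Transposition -/

/-- TTA: transposition for `Wt₂₃ U^₁₂`.

Proof.  By continuity in `u`, `y` let `u = f 0`, `y = g 0` with trajectories `f`, `g`.  Put
`v w := (emb (g' w))† (W (k w ⊗ g (w - I/2)))` with `g' w = f (conj w + I/2)`, i.e. for `h₁ ∈ H`
`⟪h₁, v w⟫ = ⟪h₁ ⊗ f (conj w + I/2), W (k w ⊗ g (w - I/2))⟫`.  `v` is a trajectory of `M.V`: it is differentiable
(`v w` is `bilinear` in `star (f (conj w + I/2))` and `W (...)`; or use `inner_differentiable` and a fixed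
continuous bilinear map), and `V_t v 0 = v t` by `inv` (`⟪h₁, V_t v 0⟫ = ⟪V_(-t) h₁ ⊗ f (I/2), W (k 0 ⊗ g (-I/2))⟫`,
apply the unitary `V_t ⊗ V_t`).  `v (I/2) = (emb (f 0))† (W (k (I/2) ⊗ g 0))`.
(1) For all `ζ ∈ K ⊗ H`: `⟪x ⊗ bar (k 0) ⊗ u, Wt₂₃ (tl e12 ζ y)⟫ = ⟪x ⊗ bar (v 0), ζ⟫`: it is enough for
`ζ = z' ⊗ bar h₁`, and then it says `⟪bar (k 0) ⊗ u, Wt (bar h₁ ⊗ y)⟫ = ⟪h₁, v 0⟫ = ⟪bar (v 0), bar h₁⟫`, which is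
`manageable` with `x := h₁`, `z := k 0` and the trajectories `f (· + I/2)`, `g (· - I/2)`.
(2) So the left side is `⟪x ⊗ bar (v 0), Uh (z ⊗ bar (k' 0))⟫ = ⟪x ⊗ k' (-I/2), U* (z ⊗ v (I/2))⟫` (`IsHat`) and the right
side is `⟪tl e12 (U (x ⊗ k' (-I/2))) u, z ⊗ W (k (I/2) ⊗ y)⟫ = ⟪U (x ⊗ k' (-I/2)), z ⊗ (emb u)† (W (k (I/2) ⊗ y))⟫`
`= ⟪U (x ⊗ k' (-I/2)), z ⊗ v (I/2)⟫`. -/
def TtaStmt : Prop := ∀ (ι : Type) (M : MU ι) (κ : Type) (U Uh : Op (κ × ι)), IsHat M.V U Uh →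
  ∀ (x z : L2 κ) (k k' : ℂ → L2 ι) (u y : L2 ι), Traj M.V k → Traj M.V k' →
  ⟪tn x (tn (star (k 0)) u), l23 M.Wt (l12 Uh (tn z (tn (star (k' 0)) y)))⟫_ℂ =
    ⟪tn x (tn (k' (-(I / 2))) u), star (l12 U) (l23 M.W (tn z (tn (k (I / 2)) y)))⟫_ℂ

/-- TTB: transposition for `U^₁₂ Wt₂₃`; `χ ∈ K ⊗ H` is in the legs 1 and 3.

Proof.  By continuity in `χ` and `y` let `χ = x ⊗ f 0`, `y = g 0` (so `tl e13 χ h = x ⊗ h ⊗ u`, `u = f 0`).  Put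
`w s := (emb (g (conj s - I/2)))† (W* (k' s ⊗ f (s + I/2)))`, a trajectory (as in TTA, `W*` commutes with `V_t ⊗ V_t`),
`w (-I/2) = (emb (g 0))† (W* (k' (-I/2) ⊗ f 0))`.
(1) `(emb u)† (Wt (bar (k' 0) ⊗ y)) = bar (w 0)`: for `b ∈ H`, `⟪bar b ⊗ u, Wt (bar (k' 0) ⊗ y)⟫ =
⟪k' 0 ⊗ f (I/2), W (b ⊗ g (-I/2))⟫` (`manageable`) `= ⟪W* (k' 0 ⊗ f (I/2)), b ⊗ g (-I/2)⟫ = ⟪w 0, b⟫ = ⟪bar b, bar (w 0)⟫`.
(2) The left side is `⟪Uh* (x ⊗ bar (k 0)) ⊗ u, z ⊗ Wt (bar (k' 0) ⊗ y)⟫ = ⟪Uh* (x ⊗ bar (k 0)), z ⊗ bar (w 0)⟫ =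
⟪x ⊗ bar (k 0), Uh (z ⊗ bar (w 0))⟫ = ⟪x ⊗ w (-I/2), U* (z ⊗ k (I/2))⟫` (`IsHat`).  The right side is
`⟪x ⊗ W* (k' (-I/2) ⊗ u), tl e12 (U* (z ⊗ k (I/2))) y⟫ = ⟪x ⊗ (emb y)† (W* (k' (-I/2) ⊗ u)), U* (z ⊗ k (I/2))⟫`, the
same.  (For `⟪x ⊗ η, tl e12 ζ y⟫ = ⟪x ⊗ (emb y)† η, ζ⟫`, `η ∈ H ⊗ H`, take `ζ` elementary.) -/
def TtbStmt : Prop := ∀ (ι : Type) (M : MU ι) (κ : Type) (U Uh : Op (κ × ι)), IsHat M.V U Uh →
  ∀ (χ : L2 (κ × ι)) (z : L2 κ) (k k' : ℂ → L2 ι) (y : L2 ι), Traj M.V k → Traj M.V k' →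
  ⟪tl e13 χ (star (k 0)), l12 Uh (l23 M.Wt (tn z (tn (star (k' 0)) y)))⟫_ℂ =
    ⟪tl e13 χ (k' (-(I / 2))), l23 M.W (star (l12 U) (tn z (tn (k (I / 2)) y)))⟫_ℂ

/-- KEY: the key identity.

Proof.  Matrix elements at `x ⊗ bar (k 0) ⊗ u` and `z ⊗ bar (k' 0) ⊗ y`, `k`, `k'` trajectories (total).  Left side, TTA:
`⟪x ⊗ k' (-I/2) ⊗ u, U₁₂* W₂₃ (z ⊗ k (I/2) ⊗ y)⟫`.  Right side: `U₁₃* (x ⊗ bar (k 0) ⊗ u) = tl e13 (U* (x ⊗ u)) (bar (k 0))`,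
so TTB with `χ = U* (x ⊗ u)` gives `⟪tl e13 (U* (x ⊗ u)) (k' (-I/2)), W₂₃ U₁₂* (z ⊗ k (I/2) ⊗ y)⟫ =
⟪x ⊗ k' (-I/2) ⊗ u, U₁₃ W₂₃ U₁₂* (z ⊗ k (I/2) ⊗ y)⟫`, and `U₁₃ W₂₃ U₁₂* = U₁₂* W₂₃` (adapted, `U₁₂` unitary). -/
def KeyStmt : Prop := ∀ (ι : Type) (M : MU ι) (κ : Type) (U Uh : Op (κ × ι)), Adapted M.W U →
  IsHat M.V U Uh → l23 M.Wt * l12 Uh = (l13 U * l12 Uh * l23 M.Wt : Op (κ × ι × ι))

/-! ## 3. The algebra `Balg W` is the closed span of the slices -/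

/-- BCO: the slices of `W` and of `Wt`.

Proof.  Test with `p 0`, `q 0`, trajectories: `⟪p 0, co W (f 0) (g 0) (q 0)⟫ = ⟪f 0 ⊗ p 0, W (g 0 ⊗ q 0)⟫ =
⟪bar (g 0) ⊗ p (-I/2), Wt (bar (f 0) ⊗ q (I/2))⟫` (`inner_co`, `manageable`).  `Ξ w = bar (g (conj w)) ⊗ p (w - I/2)` and
`H w = bar (f (conj w)) ⊗ q (w + I/2)` are trajectories of `tens (cj V_t) V_t`, which commutes with `Wt` (COM);
`Traj.inner_const` with `w = -I/2`: the value is `⟪Ξ (I/2), Wt (H (-I/2))⟫ = ⟪bar (g (-I/2)) ⊗ p 0, Wt (bar (f (I/2)) ⊗ q 0)⟫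
= ⟪p 0, co Wt (bar (g (-I/2))) (bar (f (I/2))) (q 0)⟫`.  The `p 0`, `q 0` are total. -/
def BcoStmt : Prop := ∀ (ι : Type) (M : MU ι) (f g : ℂ → L2 ι), Traj M.V f → Traj M.V g →
  co M.W (f 0) (g 0) = co M.Wt (star (g (-(I / 2)))) (star (f (I / 2)))

/-- The closed span of the slices `co T x z`. -/
noncomputable def CoSp {κ ι : Type} (T : Op (κ × ι)) : Submodule ℂ (Op ι) :=
  (Submodule.span ℂ {S | ∃ x z, S = co T x z}).topologicalClosure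

/-- The closed span of the slices `sl T u y`. -/
noncomputable def SlSp {κ ι : Type} (T : Op (κ × ι)) : Submodule ℂ (Op κ) :=
  (Submodule.span ℂ {S | ∃ u y, S = sl T u y}).topologicalClosure

/-- BTW: `Wt` and `W` have the same closed span of slices.  Proof.  BCO; `f 0`, `g 0` are total, and so are
`bar (g (-I/2))`, `bar (f (I/2))` (`total_traj`, `total_star`); `co_mem_of_total`. -/
def BtwStmt : Prop := ∀ (ι : Type) (M : MU ι), CoSp M.Wt = CoSp M.W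

/-- BPR: products of slices of `Wt*` and of `W`.

Proof.  KEY for `U = W` (adapted: `M.pentagon`), `Uh = cj Wt` (HAW): `Wt₂₃* W₁₃ = W^₁₂ Wt₂₃* W^₁₂*` (`Wt`, `W^ = cj Wt`
unitary).  Take `co12 · (x ⊗ h) (z ⊗ h')`: `co (star Wt) h h' * co W x z = co12 (l23 (star Wt)) (W^* (x ⊗ h)) (W^* (z ⊗ h'))`
(`co12_l23_mul_l13`, `co12_l12_mul`).  (a): `co12 (l23 (star Wt)) ζ ζ' ∈ CoSp (star Wt)` for all `ζ`, `ζ'`: for elementary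
ones by `co12_l23`, then by continuity and totality (`co12` is bounded sesquilinear, `Total.sesq_mem`).
(b): `co12 (l23 (star Wt)) (W^* ζ) (W^* ζ')` is in the closed span of the products for all `ζ`, `ζ'` (elementary ones are
total); with `ζ = W^ (e ⊗ p)`, `ζ' = W^ (e ⊗ q)`, `e` a unit vector, it is `co (star Wt) p q`.  (If `ι` is empty
everything is `0`.) -/
def BprStmt : Prop := ∀ (ι : Type) (M : MU ι),
  (∀ h h' x z, co (star M.Wt) h h' * co M.W x z ∈ CoSp (star M.Wt)) ∧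
  ∀ p q, co (star M.Wt) p q ∈ (Submodule.span ℂ {S : Op ι | ∃ h h' x z,
    S = co (star M.Wt) h h' * co M.W x z}).topologicalClosure

/-- ABX: `Balg W` is the closed span of the slices.

Proof.  `B := CoSp W = CoSp Wt` (BTW), `B* := {b* | b ∈ B} = CoSp (star W) = CoSp (star Wt)` (`star_co`).  BPR (a), (b):
`B* B ⊆ B*` and `B* ⊆` closed span of `B* B` (products of elements of the closed spans are limits of sums of products of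
slices).  The closed span of `B* B` is invariant under `star`.  So `B = (B*)* ⊆` closed span of `B* B ⊆ B*`, and by `star`
also `B* ⊆ B`: `B = B*`, and `B B = B* B ⊆ B* = B`.  So `B` is a closed subspace, closed under products and `star`, which
contains the slices: `Balg W ⊆ B` (`NonUnitalStarAlgebra.adjoin_le`, `topologicalClosure_minimal`). -/
def AbxStmt : Prop := ∀ (ι : Type) (M : MU ι),
  (∀ b, b ∈ Balg M.W ↔ b ∈ CoSp M.W) ∧ CoSp M.Wt = CoSp M.W ∧ CoSp (star M.Wt) = CoSp M.W ∧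
  CoSp (star M.W) = CoSp M.W

/-! ## 4. The algebra `Aalg U` is the closed span of the slices -/

/-- AHR: products of slices of `U` and `U^`.

Proof.  KEY: `U₁₃ U^₁₂ = Wt₂₃ U^₁₂ Wt₂₃*`.  Take `sl · (u ⊗ u') (y ⊗ y')`: `sl U u' y' * sl Uh u y =
sl (l12 Uh) (Wt* (u ⊗ u')) (Wt* (y ⊗ y'))` (`sl_l13_mul_l12`, `sl_l23_mul`).  (a): `sl (l12 Uh) ζ ζ' ∈ SlSp Uh` for all `ζ`,
`ζ'` (`sl_l12`, `sl_mem_of_total`).  (b): `sl (l12 Uh) (Wt* ζ) (Wt* ζ')` is in the closed span of the products for all `ζ`,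
`ζ'`; with `ζ = Wt (u ⊗ e)`, `ζ' = Wt (y ⊗ e)`, `e` a unit vector of `H`, it is `sl Uh u y`. -/
def AhrStmt : Prop := ∀ (ι : Type) (M : MU ι) (κ : Type) (U Uh : Op (κ × ι)), Adapted M.W U →
  IsHat M.V U Uh → (∀ u' y' u y, sl U u' y' * sl Uh u y ∈ SlSp Uh) ∧
  ∀ u y, sl Uh u y ∈ (Submodule.span ℂ {S : Op κ | ∃ u' y' u y,
    S = sl U u' y' * sl Uh u y}).topologicalClosure

/-- ASX: `Aalg U` is the closed span of the slices.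

Proof.  `A := SlSp U`, `A* := SlSp (star U) = {a* | a ∈ A}` (`star_sl`).  `SlSp Uh = A*`: `IsHat.sl` and totality
(`total_traj`, `total_star`, `sl_mem_of_total`).  AHR: `A A* ⊆ A*` and `A* ⊆` closed span of `A A*`, which is invariant
under `star`; so `A = (A*)* ⊆` closed span of `A A* ⊆ A*`, hence `A = A*`, `A A = A A* ⊆ A* = A`, and `Aalg U = A` as in
ABX. -/
def AsxStmt : Prop := ∀ (ι : Type) (M : MU ι) (κ : Type) (U Uh : Op (κ × ι)), Adapted M.W U →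
  IsHat M.V U Uh → (∀ a, a ∈ Aalg U ↔ a ∈ SlSp U) ∧ SlSp (star U) = SlSp U ∧
    SlSp Uh = SlSp U ∧ SlSp (star Uh) = SlSp U

/-! ## 5. The multiplier property -/

/-- MUA: the multiplier property for `U` and the slices of `U^`.

Proof.  `g := g 0`, `b := b 0` below, `a := sl Uh (bar g) (bar b)`.  For `ζ ∈ H ⊗ H` let
`R ζ := (emb e13 (bar g))† ∘ Wt₂₃ ∘ U^₁₂ ∘ emb ζ : K → K ⊗ H` (`emb ζ k = k ⊗ ζ`), linear and continuous in `ζ`.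
(1) `U ∘ col a h = R (Wt* (bar b ⊗ h))`: `a k = (emb (bar g))† (Uh (k ⊗ bar b))`, so
`U (a k ⊗ h) = U ((emb e13 (bar g))† (tl e12 (Uh (k ⊗ bar b)) h)) = (emb e13 (bar g))† (U₁₃ (U^₁₂ (k ⊗ bar b ⊗ h)))`
(`adj_e13_tl_e12`, `adj_e13_l13`, `l12_tn`) and `U₁₃ U^₁₂ = Wt₂₃ U^₁₂ Wt₂₃*` (KEY).
(2) `R ζ ∈ Cols U` for all `ζ`: by totality let `ζ = bar (b' 0) ⊗ h'`, `b'` a trajectory.  TTA (`k := g`, `k' := b'`):
`⟪k₁ ⊗ u, R ζ k₂⟫ = ⟪k₁ ⊗ bar g ⊗ u, Wt₂₃ U^₁₂ (k₂ ⊗ bar (b' 0) ⊗ h')⟫ = ⟪k₁ ⊗ b' (-I/2) ⊗ u, U₁₂* W₂₃ (k₂ ⊗ g (I/2) ⊗ h')⟫`,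
so `R ζ = R' (W (g (I/2) ⊗ h'))` with `R' η := (emb e13 (b' (-I/2)))† ∘ U₁₂* ∘ emb η`, linear and continuous in `η`, and
`R' (p ⊗ q) = col (sl (star U) (b' (-I/2)) p) q ∈ Cols U` (`star_sl`: `sl (star U) .. = star (sl U ..) ∈ Aalg U`). -/
def MuaStmt : Prop := ∀ (ι : Type) (M : MU ι) (κ : Type) (U Uh : Op (κ × ι)), Adapted M.W U →
  IsHat M.V U Uh → ∀ (g b : ℂ → L2 ι) (h : L2 ι), Traj M.V g → Traj M.V b →
  U ∘L col (sl Uh (star (g 0)) (star (b 0))) h ∈ Cols U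

/-- MUB: the multiplier property for `U*` and the slices of `U*`.

Proof.  `g := g 0`, `b := b 0`, `a := sl (star U) g b`.  `U₁₃* U₁₂* = W₂₃ U₁₂* W₂₃*` (adapted).  For `ζ ∈ H ⊗ H` let
`R ζ := (emb e13 g)† ∘ W₂₃ ∘ U₁₂* ∘ emb ζ`.  (1) `star U ∘ col a h = R (W* (b ⊗ h))`, as in MUA (1).
(2) `R ζ ∈ Cols U`: let `ζ = b' 0 ⊗ h'`.  TTB with `χ = k₁ ⊗ u`, `k' := g (· + I/2)` (so `k' (-I/2) = g`),
`k := b' (· - I/2)` (so `k (I/2) = b' 0`), `y = h'`: `⟪k₁ ⊗ u, R ζ k₂⟫ = ⟪k₁ ⊗ g ⊗ u, W₂₃ U₁₂* (k₂ ⊗ b' 0 ⊗ h')⟫ =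
⟪k₁ ⊗ bar (b' (-I/2)) ⊗ u, U^₁₂ Wt₂₃ (k₂ ⊗ bar (g (I/2)) ⊗ h')⟫`, so `R ζ = R' (Wt (bar (g (I/2)) ⊗ h'))` with
`R' η := (emb e13 (bar (b' (-I/2))))† ∘ U^₁₂ ∘ emb η` and `R' (p ⊗ q) = col (sl Uh (bar (b' (-I/2))) p) q ∈ Cols U`:
`sl Uh (bar (b' (-I/2))) p ∈ Aalg U` for `p = bar (p' 0)` by `IsHat.sl`, for all `p` by totality (`Aalg U` is closed). -/
def MubStmt : Prop := ∀ (ι : Type) (M : MU ι) (κ : Type) (U Uh : Op (κ × ι)), Adapted M.W U →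
  IsHat M.V U Uh → ∀ (g b : ℂ → L2 ι) (h : L2 ι), Traj M.V g → Traj M.V b →
  star U ∘L col (sl (star U) (g 0) (b 0)) h ∈ Cols U

/-! ## 6. Conclusions in the form used by block B

`AMU` (`AmuStmt` in `StmtsB`).  Proof.  HTE: `Uh`.  For fixed `h` the sets `{a | U ∘ col a h ∈ Cols U}`,
`{a | star U ∘ col a h ∈ Cols U}` are closed subspaces of `Op κ` (`col a h` is linear and continuous in `a`, `Cols U` is
closed); by MUA, MUB they contain the `sl Uh (bar (g 0)) (bar (b 0))`, resp. the `sl (star U) (g 0) (b 0)`, hence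
`SlSp Uh`, resp. `SlSp (star U)` (totality), which are `Aalg U` (ASX).

`ASP` (`AspStmt`) and `ABS` (`AbsStmt`) are weaker forms of ASX (with HTE) and ABX. -/

end Pool.Agent.MQG
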